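import Pool.Agent.Lib.MP_305fdd_al.F8.PO.Nofin
import Mathlib.LinearAlgebra.Matrix.ProjectiveSpecialLinearGroup

/-!
# MP_305fdd_al, project PO: `PGL₂(R)` contains `PSL₂(R)` as a normal subgroup of finite index
-/

set_option autoImplicit false

namespace Pool.Agent.F8.PO

open Pool.Agent.MP_305fdd_al Pool.Agent.Lib.MP_305fdd_al Pool.Agent.F2X Pool.Agent.F8
  Pool.Agent.F8.HN Pool.Agent.F8.AB

noncomputable section

theorem pgl_sub (R : Type) [CommRing R] [Finite Rˣ] : ∃ N : Subgroup (PGLR R), N.Normal ∧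
    N.FiniteIndex ∧ Nonempty (N ≃* Matrix.ProjectiveSpecialLinearGroup (Fin 2) R) := by
  set φ : SL2 R →* PGLR R :=
    (QuotientGroup.mk' (Subgroup.center (GL (Fin 2) R))).comp Matrix.SpecialLinearGroup.toGL with hφ
  have hr : (Matrix.SpecialLinearGroup.toGL : SL2 R →* GL (Fin 2) R).range =
      (Matrix.GeneralLinearGroup.det : GL (Fin 2) R →* Rˣ).ker := by
    ext g
    rw [MonoidHom.mem_range, MonoidHom.mem_ker]
    constructor
    · rintro ⟨x, rfl⟩
      apply Units.ext
      exact x.2
    · intro h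
      refine ⟨⟨g.val, congrArg Units.val h⟩, ?_⟩
      apply Units.ext
      rfl
  have hN : φ.range = (Matrix.SpecialLinearGroup.toGL : SL2 R →* GL (Fin 2) R).range.map
      (QuotientGroup.mk' (Subgroup.center (GL (Fin 2) R))) := by
    rw [hφ, MonoidHom.range_comp]
  refine ⟨φ.range, ?_, ?_, ?_⟩
  · rw [hN, hr]
    exact Subgroup.Normal.map inferInstance _ (QuotientGroup.mk'_surjective _)
  · have h1 : ((Matrix.GeneralLinearGroup.det : GL (Fin 2) R →* Rˣ).ker).FiniteIndex :=
      inferInstance
    have h2 : (φ.range.comap (QuotientGroup.mk' (Subgroup.center (GL (Fin 2) R)))).FiniteIndex := by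
      apply Subgroup.finiteIndex_of_le (H := (Matrix.GeneralLinearGroup.det : GL (Fin 2) R →* Rˣ).ker)
      rw [hN, ← hr]
      exact Subgroup.le_comap_map _ _
    constructor
    rw [← Subgroup.index_comap_of_surjective φ.range (QuotientGroup.mk'_surjective _)]
    exact h2.index_ne_zero
  · have hk : φ.ker = Subgroup.center (SL2 R) := by
      ext g
      rw [MonoidHom.mem_ker, ← Matrix.SpecialLinearGroup.toGL_mem_center_iff]
      exact QuotientGroup.eq_one_iff _
    exact ⟨(QuotientGroup.quotientKerEquivRange φ).symm.trans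
      (QuotientGroup.quotientMulEquivOfEq hk)⟩

end

end Pool.Agent.F8.PO
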