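import Pool.Agent.Lib.MP_305fdd_al.F8.PO.Main
import Pool.Agent.Lib.MP_305fdd_al.F8.PO.Pgl
import Pool.Agent.Lib.MP_305fdd_al.F8.PIC7.P_ok7
import Pool.Agent.Lib.MP_305fdd_al.F8.PIC7.P_pso
import Pool.Agent.Lib.MP_305fdd_al.F8.Models

/-!
# MP_305fdd_al, project PO: the final statements, over the ring of integers of `ℚ(i)` and `ℚ(√-7)`
-/

set_option autoImplicit false

namespace Pool.Agent.F8.PO

open Pool.Agent.MP_305fdd_al Pool.Agent.Lib.MP_305fdd_al Pool.Agent.F2X Pool.Agent.F8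
  Pool.Agent.F8.HN Pool.Agent.F8.AB
open Pool.Agent.F8.D1 (O1)
open Pool.Agent.F8.D7 (O7)
open scoped QuadraticAlgebra

noncomputable section

theorem int_one {x y : ℤ} (hx : 0 ≤ x) (h : x * y = 1) : x = 1 := by
  rcases Int.eq_one_or_neg_one_of_mul_eq_one h with h | h
  · exact h
  · omega

theorem units_of {R : Type} [Monoid R] (f : R → ℤ × ℤ) (hf : Function.Injective f)
    (h : ∀ u : Rˣ, (f u.val).1 ∈ Set.Icc (-1 : ℤ) 1 ∧ (f u.val).2 ∈ Set.Icc (-1 : ℤ) 1) :
    Finite Rˣ := by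
  have hs : (Set.Icc (-1 : ℤ) 1 ×ˢ Set.Icc (-1 : ℤ) 1).Finite :=
    (Set.finite_Icc (-1 : ℤ) 1).prod (Set.finite_Icc (-1 : ℤ) 1)
  have := hs.to_subtype
  refine Finite.of_injective (fun u : Rˣ => (⟨f u.val, ⟨(h u).1, (h u).2⟩⟩ :
    (Set.Icc (-1 : ℤ) 1 ×ˢ Set.Icc (-1 : ℤ) 1 : Set (ℤ × ℤ)))) ?_
  intro u v huv
  exact Units.ext (hf (congrArg Subtype.val huv))

theorem fin_u1 : Finite O1ˣ := by
  refine units_of (fun z : O1 => (z.re, z.im)) ?_ ?_
  · intro x y h
    exact QuadraticAlgebra.ext (congrArg Prod.fst h) (congrArg Prod.snd h)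
  · intro u
    have h := u.mul_inv
    have h1 := congrArg QuadraticAlgebra.re h
    have h2 := congrArg QuadraticAlgebra.im h
    rw [QuadraticAlgebra.re_mul, QuadraticAlgebra.re_one] at h1
    rw [QuadraticAlgebra.im_mul, QuadraticAlgebra.im_one] at h2
    generalize u.val.re = a at *
    generalize u.val.im = b at *
    generalize u⁻¹.val.re = c at *
    generalize u⁻¹.val.im = d at *
    have h3 : (a ^ 2 + b ^ 2) * (c ^ 2 + d ^ 2) = 1 := by
      have e1 : a * c - b * d = 1 := by linarith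
      have e2 : a * d + b * c = 0 := by linarith
      calc (a ^ 2 + b ^ 2) * (c ^ 2 + d ^ 2) = (a * c - b * d) ^ 2 + (a * d + b * c) ^ 2 := by ring
        _ = 1 := by rw [e1, e2]; ring
    have h4 := int_one (by positivity) h3
    simp only [Set.mem_Icc]
    refine ⟨⟨?_, ?_⟩, ?_, ?_⟩ <;> nlinarith

theorem fin_u7 : Finite O7ˣ := by
  refine units_of (fun z : O7 => (z.re, z.im)) ?_ ?_
  · intro x y h
    exact QuadraticAlgebra.ext (congrArg Prod.fst h) (congrArg Prod.snd h)
  · intro u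
    have h := u.mul_inv
    have h1 := congrArg QuadraticAlgebra.re h
    have h2 := congrArg QuadraticAlgebra.im h
    rw [QuadraticAlgebra.re_mul, QuadraticAlgebra.re_one] at h1
    rw [QuadraticAlgebra.im_mul, QuadraticAlgebra.im_one] at h2
    generalize u.val.re = a at *
    generalize u.val.im = b at *
    generalize u⁻¹.val.re = c at *
    generalize u⁻¹.val.im = d at *
    have h3 : (a ^ 2 - a * b + 2 * b ^ 2) * (c ^ 2 - c * d + 2 * d ^ 2) = 1 := by
      have e1 : a * c - 2 * b * d = 1 := by linarith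
      have e2 : a * d + b * c - b * d = 0 := by linarith
      calc (a ^ 2 - a * b + 2 * b ^ 2) * (c ^ 2 - c * d + 2 * d ^ 2)
          = (a * c - 2 * b * d) ^ 2 - (a * c - 2 * b * d) * (a * d + b * c - b * d) +
            2 * (a * d + b * c - b * d) ^ 2 := by ring
        _ = 1 := by rw [e1, e2]; ring
    have h4 := int_one (by nlinarith [sq_nonneg (2 * a - b), sq_nonneg b]) h3
    have h5 : (2 * a - b) ^ 2 + 7 * b ^ 2 = 4 := by linarith
    have hb : b = 0 := by
      by_contra hb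
      have : 1 ≤ b ^ 2 := by
        have := sq_nonneg b
        have h6 : b ^ 2 ≠ 0 := pow_ne_zero 2 hb
        omega
      nlinarith [sq_nonneg (2 * a - b)]
    subst hb
    simp only [Set.mem_Icc]
    refine ⟨⟨?_, ?_⟩, ?_, ?_⟩ <;> nlinarith

/-- Every group without nontrivial finite normal subgroups which contains `PSL₂` of the ring of integers of `ℚ(i)` or `ℚ(√-7)`
as a normal subgroup of finite index is profinitely rigid. -/
theorem over_of (h1 : ProfinitelyRigid M1) (h7 : ProfinitelyRigid M7) (K : Type) [Field K]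
    [NumberField K] (w : K) (hw : w ^ 2 = -1 ∨ w ^ 2 = -7) (hK : Module.finrank ℚ K = 2)
    (G : Type) [Group G] (N : Subgroup G) (hN : N.Normal) (hi : N.FiniteIndex)
    (he : Nonempty (N ≃* Matrix.ProjectiveSpecialLinearGroup (Fin 2)
      (NumberField.RingOfIntegers K)))
    (hf : ∀ F : Subgroup G, F.Normal → Finite F → F = ⊥) : ProfinitelyRigid G := by
  obtain ⟨e⟩ := he
  rcases hw with hw | hw
  · obtain ⟨r⟩ := PIC7.p_ok1 K w hw hK
    have : IsDomain O1 := r.toMulEquiv.isDomain _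
    obtain ⟨e'⟩ := PIC7.p_pso O1 _ r
    exact over1 h1 G N hN hi ⟨e.trans e'.symm⟩ hf
  · obtain ⟨r⟩ := PIC7.p_ok7 K w hw hK
    have : IsDomain O7 := r.toMulEquiv.isDomain _
    obtain ⟨e'⟩ := PIC7.p_pso O7 _ r
    exact over7 h7 G N hN hi ⟨e.trans e'.symm⟩ hf

/-- `PSL₂` has no nontrivial finite normal subgroups -/
theorem psl_nofin (R : Type) [CommRing R] [IsDomain R] [CharZero R]
    (F : Subgroup (Matrix.ProjectiveSpecialLinearGroup (Fin 2) R)) (hF : F.Normal)
    (hf : Finite F) : F = ⊥ := by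
  obtain ⟨e⟩ := PIC7.p_pso R R (RingEquiv.refl R)
  have h1 : F.comap e.toMonoidHom = ⊥ := by
    apply nofin_pm
    · exact hF.comap _
    · exact Finite.of_injective (fun x => (⟨e x.1, x.2⟩ : F)) (by
        intro x y h
        exact Subtype.ext (e.injective (congrArg Subtype.val h)))
  rw [eq_bot_iff]
  intro x hx
  have h2 : e.symm x ∈ F.comap e.toMonoidHom := by
    rw [Subgroup.mem_comap]
    show e (e.symm x) ∈ F
    rw [e.apply_symm_apply]
    exact hx
  rw [h1, Subgroup.mem_bot] at h2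
  rw [Subgroup.mem_bot, ← e.apply_symm_apply x, h2, map_one]

/-- `PSL₂` of the ring of integers of `ℚ(i)` or `ℚ(√-7)` -/
theorem psl_of (h1 : ProfinitelyRigid M1) (h7 : ProfinitelyRigid M7) (K : Type) [Field K]
    [NumberField K] (w : K) (hw : w ^ 2 = -1 ∨ w ^ 2 = -7) (hK : Module.finrank ℚ K = 2) :
    ProfinitelyRigid (Matrix.ProjectiveSpecialLinearGroup (Fin 2)
      (NumberField.RingOfIntegers K)) :=
  over_of h1 h7 K w hw hK _ ⊤ inferInstance inferInstance ⟨Subgroup.topEquiv⟩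
    (psl_nofin (NumberField.RingOfIntegers K))

/-- `PGL₂` of the ring of integers of `ℚ(i)` or `ℚ(√-7)` -/
theorem pgl_of (h1 : ProfinitelyRigid M1) (h7 : ProfinitelyRigid M7) (K : Type) [Field K]
    [NumberField K] (w : K) (hw : w ^ 2 = -1 ∨ w ^ 2 = -7) (hK : Module.finrank ℚ K = 2) :
    ProfinitelyRigid (GL (Fin 2) (NumberField.RingOfIntegers K) ⧸
      Subgroup.center (GL (Fin 2) (NumberField.RingOfIntegers K))) := by
  have : Finite (NumberField.RingOfIntegers K)ˣ := by
    rcases hw with hw | hw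
    · obtain ⟨r⟩ := PIC7.p_ok1 K w hw hK
      have := fin_u1
      exact Finite.of_equiv _ (Units.mapEquiv r.toMulEquiv).toEquiv
    · obtain ⟨r⟩ := PIC7.p_ok7 K w hw hK
      have := fin_u7
      exact Finite.of_equiv _ (Units.mapEquiv r.toMulEquiv).toEquiv
  obtain ⟨N, hN, hi, he⟩ := pgl_sub (NumberField.RingOfIntegers K)
  exact over_of h1 h7 K w hw hK _ N hN hi he nofin_PGL

end

end Pool.Agent.F8.PO
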