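import Pool.Agent.Lib.MP_305fdd_al.F8.PIC.Defs
import Pool.Agent.Lib.MP_305fdd_al.F8.D1.G.Pres
import Pool.Agent.Lib.MP_305fdd_al.F8.D1.E.Ar
import Pool.Agent.Lib.MP_305fdd_al.F8.D7.G.Pres
import Pool.Agent.Lib.MP_305fdd_al.F8.D7.E.Ar

/-!
# MP_305fdd_al, project PO: the groups which contain `PSL₂(O)` as a normal subgroup, `O = ℤ[i]`, `O7`

THEOREM. Let `O = ℤ[i]` or `O = ℤ[(1 + √-7) / 2]` and let `M = PSL₂(O)` be profinitely rigid. Then every group without
nontrivial finite normal subgroups which contains `M` as a normal subgroup of finite index is profinitely rigid.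

The proof. `S_ov` is a general principle: it is enough that the outer automorphisms of `M` are told apart by the numbers `Fx`:
`Fx M P h` is the number of the homomorphisms `θ : M → P` (`P` finite) such that `θ ∘ h` is conjugate to `θ`. The outer automorphism
group is the Klein group of the classes of `st d e` (`S_aut1`, `S_aut7`), and the numbers are computed with the presentation
(`S_fx1`, `S_fx7`).

Every piece may use the statements named in its docstring (Uses ..) as hypotheses.
-/

set_option autoImplicit false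

namespace Pool.Agent.F8.PO

open Pool.Agent.MP_305fdd_al Pool.Agent.Lib.MP_305fdd_al Pool.Agent.F2X Pool.Agent.F8
  Pool.Agent.F8.HN Pool.Agent.F8.AB
open Pool.Agent.F8.D1 (O1)
open Pool.Agent.F8.D7 (O7)
open scoped QuadraticAlgebra

noncomputable section

/-! ## The general principle -/

/-- the number of the homomorphisms `θ : M → P` such that `θ ∘ h` is conjugate to `θ` -/
def Fx (M P : Type) [Group M] [Group P] (h : MulAut M) : ℕ :=
  Nat.card {θ : M →* P // ∃ z : P, ∀ x, θ (h x) = z * θ x * z⁻¹}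

/-- [PO ov] overgroups of a profinitely rigid group without centre whose outer automorphisms are separated by `Fx`.

Proof. Let `G`, `N` be as in the statement, `e : N ≃* M`, `Λ` in the genus of `G`. `G` is finitely generated, `Φ : NatBij G Λ` (`exists_natBij`), `π : G → G ⧸ N`,
`π' = Φ π`, `N' = ker π'`, `Ψ : NatBij N N'` (`natBij_ker`), so `N'` is in the genus of `M` and there is `f : N' ≃* M`. For `g ∈ G` let `κ g ∈ MulAut M` be the conjugation with `g`, transported with
`e`, `κ' l` for `l ∈ Λ` the same with `f`. (1) If `π g = π' l` then `Fx M P (κ g) = Fx M P (κ' l)` for every finite `P`. For `θ : N → P` let `E` be a finite group and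
`ϑ : G → E` such that `Ψ θ` and `θ` have the same value at `l₁ ∈ N'`, `g₁ ∈ N` with `ϑ g₁ = Φ ϑ l₁` (as `Cor` in `F8/Tower.lean`; e.g. `E = G ⧸ core`, where core is the normal core of `ker θ`). There is `g₁ ∈ G` with `ϑ g₁ = Φ ϑ l`,
`π g₁ = π' l` (`pair_val`), and `Ψ (θ ∘ conj g₁) = (Ψ θ) ∘ conj l` (`Cor.unique` or directly). `g₁ = g n`, `n ∈ N`, so `θ ∘ conj g` is conjugate to `θ` iff `θ ∘ conj g₁` is. And `θ ∘ conj g₁ = conj z ∘ θ` iff
`(Ψ θ) ∘ conj l = conj z ∘ Ψ θ` (`nat`). (2) So by hypothesis `κ' l` and `κ g` differ by an inner automorphism of `M`, whenever `π g = π' l`; such `l` exists for every `g` and conversely (`range_eq`), so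
`κ` and `κ'` have the same range. (3) `κ` is injective: its kernel meets `N` trivially (no centre), so it is finite. (4) `κ'` is injective: if `κ' l = 1`, take `g` with
`π g = π' l`; `κ g` is inner, `κ g = κ n`, so `g = n ∈ N`, `π' l = 1`, `l ∈ N'` is in the centre. So `G ≅ range κ = range κ' ≅ Λ`. -/
def S_ov : Prop := ∀ (M : Type) [Group M] [Group.FG M], ProfinitelyRigid M →
  (∀ m : M, (∀ x, m * x = x * m) → m = 1) →
  (∀ h h' : MulAut M, (∀ (P : Type) [Group P] [Finite P], Fx M P h = Fx M P h') →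
    ∃ m : M, ∀ x, h' x = h (m * x * m⁻¹)) →
  ∀ (G : Type) [Group G] (N : Subgroup G), N.Normal → N.FiniteIndex → Nonempty (N ≃* M) →
  (∀ K : Subgroup G, K.Normal → Finite K → K = ⊥) → ProfinitelyRigid G

/-! ## Parabolic elements -/

/-- [PO par] An element of `SL₂(R)`, `R` a discrete subring of `ℂ`, whose centraliser contains `ℤ²` has trace `± 2`.

Proof. Suppose `tr T ≠ ± 2`. Over `ℂ` `T` has two different eigenvalues, so `T` and `U` are simultaneously diagonal in a suitable basis (or: an
eigenvector of `T` is an eigenvector of `U`), with the eigenvalues `λ, λ⁻¹` and `μ, μ⁻¹`. Put `χ v = λ ^ m μ ^ n` for `v = (m, n)`; the trace of `T ^ m U ^ n` is `χ v + (χ v)⁻¹`, and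
`χ v = 1` implies `T ^ m U ^ n = 1`, so `χ` is injective. Let `a = log |λ|`, `b = log |μ|`. There is an infinite set `S` of `v ∈ ℤ²` with `|a m + b n| ≤ |b|` (`b = 0`: `m = 0`; otherwise `n = -⌊a m / b⌋`
for every `m`). For `v ∈ S` the absolute value of the trace is at most `2 exp |b|`, so the traces are in a finite subset of `R`, and infinitely many `v ∈ S` have the same trace `c`; but
`χ v + (χ v)⁻¹ = c` has at most two solutions `χ v`. -/
def S_par : Prop := ∀ (R : Type) [CommRing R] (j : R →+* ℂ), Function.Injective j →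
  (∀ C : ℝ, {z : R | ‖j z‖ ≤ C}.Finite) → ∀ T U : SL2 R, T * U = U * T →
  (∀ m n : ℤ, T ^ m * U ^ n = 1 → m = 0 ∧ n = 0) → tr T = 2 ∨ tr T = -2

/-- [PO emb] `O1` and `O7` are discrete subrings of `ℂ`.

Proof. `ev1 (Int.castRingHom ℂ) Complex.I`, `ev7 (Int.castRingHom ℂ) δ`, `δ = (-1 + √7 i) / 2`. The imaginary part bounds `im z`, then the real part bounds `re z`. -/
def S_emb : Prop := (∃ j : O1 →+* ℂ, Function.Injective j ∧ ∀ C : ℝ, {z : O1 | ‖j z‖ ≤ C}.Finite) ∧
  ∃ j : O7 →+* ℂ, Function.Injective j ∧ ∀ C : ℝ, {z : O7 | ‖j z‖ ≤ C}.Finite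

/-- [PO nrm] unipotent matrices over a principal ideal domain.

Proof. `N = T - 1 = [[a, b], [c, -a]]`, `a² + b c = 0` (from `det T = 1`, `tr T = 2`). If `a = c = 0`, then `T = mU b`. Otherwise let `g` be a generator of the ideal `(a, c)` (`IsBezout`, or the
`gcd` lemmas), `a = g a'`, `c = g c'`, `r a' + s c' = 1`. `N (a', c') = 0` (multiply with `g`: `a² + b c = 0`, `c a - a c = 0`). Let `A⁻¹` be the matrix with the columns `(a', c')`, `(-s, r)`, of determinant
`r a' + s c' = 1`. `A T A⁻¹` has the first column `(1, 0)` and determinant one. -/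
def S_nrm : Prop := ∀ (R : Type) [CommRing R] [IsDomain R] [IsPrincipalIdealRing R] (T : SL2 R),
  tr T = 2 → ∃ (A : SL2 R) (x : R), A * T * A⁻¹ = mU x

/-! ## The automorphisms -/

/-- conjugation with `diag(i, 1)` -/
def de1 : SL2 O1 →* SL2 O1 where
  toFun g := mx (g.val 0 0) (⟨0, 1⟩ * g.val 0 1) (⟨0, -1⟩ * g.val 1 0) (g.val 1 1) (by
    have h : (⟨0, 1⟩ : O1) * ⟨0, -1⟩ = 1 := by decide
    linear_combination G.SL_det g - g.val 0 1 * g.val 1 0 * h)
  map_one' := by
    rw [mx_one]
    apply mx_congr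
    · rfl
    · exact mul_zero _
    · exact mul_zero _
    · rfl
  map_mul' g g' := by
    have h : (⟨0, 1⟩ : O1) * ⟨0, -1⟩ = 1 := by decide
    rw [mx_mul]
    apply mx_congr
    · rw [G.SL_mul]; linear_combination (-g.val 0 1 * g'.val 1 0) * h
    · rw [G.SL_mul]; ring
    · rw [G.SL_mul]; ring
    · rw [G.SL_mul]; linear_combination (-g.val 1 0 * g'.val 0 1) * h

/-- conjugation with `diag(-1, 1)` -/
def de7 : SL2 O7 →* SL2 O7 where
  toFun g := mx (g.val 0 0) (-g.val 0 1) (-g.val 1 0) (g.val 1 1) (by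
    linear_combination G.SL_det g)
  map_one' := by
    rw [mx_one]
    apply mx_congr
    · rfl
    · exact neg_zero
    · exact neg_zero
    · rfl
  map_mul' g g' := by
    rw [mx_mul]
    apply mx_congr
    · rw [G.SL_mul]; ring
    · rw [G.SL_mul]; ring
    · rw [G.SL_mul]; ring
    · rw [G.SL_mul]; ring

/-- complex conjugation on `O7`: `δ ↦ -1 - δ` -/
def cj7 : O7 →+* O7 where
  toFun z := ⟨z.re - z.im, -z.im⟩
  map_one' := by
    apply QuadraticAlgebra.ext
    · simp
    · simp
  map_zero' := by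
    apply QuadraticAlgebra.ext
    · simp
    · simp
  map_add' x y := by
    apply QuadraticAlgebra.ext
    · simp only [QuadraticAlgebra.re_add, QuadraticAlgebra.im_add]; ring
    · simp only [QuadraticAlgebra.im_add]; ring
  map_mul' x y := by
    apply QuadraticAlgebra.ext
    · simp only [QuadraticAlgebra.re_mul, QuadraticAlgebra.im_mul]; ring
    · simp only [QuadraticAlgebra.im_mul]; ring

/-- The four automorphisms of `SL₂(O1)`: `st1 true false` is the conjugation with `diag(i, 1)`, `st1 false true` is complex conjugation. -/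
def st1 (d e : Bool) : SL2 O1 →* SL2 O1 :=
  (if d then de1 else MonoidHom.id _).comp (if e then SLm (PIC.cj ℤ) else MonoidHom.id _)

/-- The four automorphisms of `SL₂(O7)`: `st7 true false` is the conjugation with `diag(-1, 1)`, `st7 false true` is complex conjugation. -/
def st7 (d e : Bool) : SL2 O7 →* SL2 O7 :=
  (if d then de7 else MonoidHom.id _).comp (if e then SLm cj7 else MonoidHom.id _)

/-- `PSL₂(ℤ[i])` -/
abbrev M1 : Type := SL2 O1 ⧸ pm O1

/-- `PSL₂(O7)` -/
abbrev M7 : Type := SL2 O7 ⧸ pm O7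

/-- the automorphism `h` of `PSL₂(ℤ[i])` is in the class of `st1 d e` -/
def Is1 (h : MulAut M1) (d e : Bool) : Prop :=
  ∃ m : SL2 O1, ∀ x, h (pj O1 x) = pj O1 (m * st1 d e x * m⁻¹)

/-- the automorphism `h` of `PSL₂(O7)` is in the class of `st7 d e` -/
def Is7 (h : MulAut M7) (d e : Bool) : Prop :=
  ∃ m : SL2 O7, ∀ x, h (pj O7 x) = pj O7 (m * st7 d e x * m⁻¹)

/-- [PO aut1] the automorphisms of `PSL₂(ℤ[i])`. (Uses `S_par`, `S_emb`, `S_nrm`.)

Proof. Let `T, U, B, L ∈ SL2 O1` be lifts of the images of `mU 1`, `mU i`, `mB`, `mL` (`pj` is onto). As `h` is injective, `B, L, B L ≠ ± 1`, and their squares are `± 1`; an element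
`x` with `x² = 1` is `± 1` (Cayley-Hamilton), so `B² = L² = (B L)² = -1`, so `tr B = tr L = tr (B L) = 0`. Similarly `(T L)² = (U L)² = -1`, so `tr (T L) = tr (U L) = 0`. `(T B)³ = ± 1`,
`(U L B)³ = ± 1` (up to the order of `B`, `L`: `B L = ± L B`). `T U = ± U T`; the sign `-` would give `tr T = 0`, `T² = -1`, contradiction (`h` is injective and `mU 1` has infinite
order). So `T U = U T`, and `T ^ m U ^ n = 1` implies `m = n = 0` (injectivity). `S_par`, `S_emb`: `tr T = ± 2`; replace `T` by `-T`: `tr T = 2`. `S_nrm`: after a conjugation (change `m`) `T = mU x`, `x ≠ 0`. `U` commutes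
with `T`: `U = ± mU y`, replace `U` by `-U`. `tr (T L) = tr L = 0` gives `L 1 0 = 0` (`x ≠ 0`), so `L = [[w, l], [0, -w]]`, `w² = -1`. `(T B)³ = ± 1`: `T B = ± 1` is impossible (`B² = -1`,
`(mU x)⁻² ≠ -1`), so `tr (T B) = ± 1`: `x b = ± 1`, `b = B 1 0` (`tr B = 0`). So `x`, `b` are units; conjugate with `mU z`, `z = -(B 0 0) / b`: `B = [[0, -1 / b], [b, 0]]`. `tr (B L) = b l = 0`: `L = diag(w, -w) = ± mL`. `U L B`:
not `± 1` (its entry `1 0` is not zero), so its trace is `± 1`: `y = ± i x`. Let `x = i ^ k` (units of `O1`). `k` even: conjugation with `mL` if `x = -1` (`mL mU x mL⁻¹ = mU (-x)`), so `x = 1`, `b = ± 1`,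
`B = ± mB`, `U = mU (± i)`: `h` is on the generators `st1 false false` or `st1 false true`. `k` odd: the same with `st1 true e`: `x = i` after a conjugation with `mL`; `de1 (mU 1) = mU i`,
`de1 mB = [[0, -i], [-i, 0]]`, `de1 (mU i) = mU (-1)`, `de1 mL = mL`. `PG.SL_sub` for the set of the `x` with `h (pj x) = pj (m * st1 d e x * m⁻¹)`. -/
def S_aut1 : Prop := ∀ h : MulAut M1, ∃ d e : Bool, Is1 h d e

/-- [PO aut7] the automorphisms of `PSL₂(O7)`. (Uses `S_par`, `S_emb`, `S_nrm`.)

Proof. Let `T, U, B ∈ SL2 O7` be lifts of the images of `mU 1`, `mU δ`, `mB`. As in `S_aut1`: `B² = -1`, `T U = U T`, `T ^ m U ^ n = 1` implies `m = n = 0`, `tr T = ± 2`, and after a conjugation and with a suitable sign `T = mU x`, `x ≠ 0`,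
`U = mU y`; `tr (T B) = ± 1`, so `x b = ± 1`, `b = B 1 0`; `x, b ∈ {1, -1}`, and after a conjugation with `mU z` `B = ± mB`. If `x = -1`: write everything as `de7` of the same with `x = 1` (`de7 (mU z) = mU (-z)`, `de7 mB = -mB`). So let `x = 1`.
The element `mB mU(1) mU(δ) mB mU(-δ)` of `SL2 O7` has the square `-1` and is not `± 1`, so `Z = mB mU(1) mU(y) mB mU(-y)` has a square `± 1` and is not `± 1`, so its trace is zero:
`-2 - y - y² = 0`, so `y = δ` or `y = -1 - δ` (`(y - δ) (y + 1 + δ) = 0`). -/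
def S_aut7 : Prop := ∀ h : MulAut M7, ∃ d e : Bool, Is7 h d e

/-! ## The numbers -/

/-- the numbers for `ℤ[i]` -/
def tb1 (d e : Bool) : ℕ := if d then (if e then 118 else 70) else (if e then 100 else 148)

/-- [PO fx1] the numbers for `P = S₄`. (Uses nothing; `PG.pres`.)

Proof. The homomorphisms `θ : M1 → P` correspond to the quadruples `(al, up, be, la) ∈ P⁴` with `Rel` (`PG.pres`: the homomorphism `SL2 O1 → P` maps `-1 = mB²` to `1`; uniqueness: `PG.SL_sub`). `θ ∘ h` is conjugate to `θ` iff `θ ∘ st1 d e` is (a conjugation with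
`θ m`), and the values of `θ ∘ st1 d e` at `mU 1, mU i, mB, mL` are `(al, up, be, la)` for `d = e = false`, `(al, up⁻¹, be, la⁻¹)` for `(false, true)`, `(up, al⁻¹, be la, la)` for `(true, false)` (`de1 mB = ± mB mL`) and for
`(true, true)`: `st1 true true = de1 ∘ cj`, values `(up, al, be la, la⁻¹)`. So `Fx` is the number of the quadruples with `Rel` for which there is `z ∈ P` with `z (al, ..) z⁻¹ = ` the new quadruple. Count with
`decide +kernel` in a model of `S₄` on `Fin 24` with a multiplication table (`al`: `24`, `be`, `la`: `10` elements with square one; prune with the relations). (Checked by computer: `148, 100, 70, 118`.)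
To avoid the counting of a subtype of `P⁴` by brute force, give the list of the `148` quadruples and prove that it is complete. -/
def S_fx1 : Prop := ∀ (h : MulAut M1) (d e : Bool), Is1 h d e →
  Fx M1 (Equiv.Perm (Fin 4)) h = tb1 d e

/-- [PO fx7] the numbers for `P = ℤ / 2` and `P = ℤ / 3`. (Uses nothing; `D7.PG.pres`.)

Proof. The homomorphisms `θ : M7 → P`, `P` commutative, correspond to the triples `(al, up, be)` with `Rel`: `be² = 1`, `al³ be³ = 1`, `al⁻² up⁰ be⁴ = 1` (abelianise `c4`), so for `P = ℤ/2`: `al = be`, `up` arbitrary, `4` homomorphisms, for `P = ℤ/3`: `al = be = 1`,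
`up` arbitrary: `3`. The values of `θ ∘ st7 d e` at `mU 1, mU δ, mB`: `(al, up, be)`; `(false, true)`: `(al, al⁻¹ up⁻¹, be)`; `(true, false)`: `(al⁻¹, up⁻¹, be)`; `(true, true)`: `(al⁻¹, al up, be)`. Conjugate = equal.
`ℤ/2`: `e = false`: all `4`; `e = true`: `al = 1`: `2`. `ℤ/3`: `d = e`: all `3`; otherwise `up = up⁻¹`: `1`. -/
def S_fx7 : Prop := ∀ (h : MulAut M7) (d e : Bool), Is7 h d e →
  Fx M7 (Multiplicative (ZMod 2)) h = (if e then 2 else 4) ∧
  Fx M7 (Multiplicative (ZMod 3)) h = (if d = e then 3 else 1)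

/-! ## The results -/

/-- the main result for `ℤ[i]` -/
def S_over1 : Prop := ProfinitelyRigid M1 → ∀ (G : Type) [Group G] (N : Subgroup G), N.Normal →
  N.FiniteIndex → Nonempty (N ≃* M1) → (∀ K : Subgroup G, K.Normal → Finite K → K = ⊥) →
  ProfinitelyRigid G

/-- the main result for `O7` -/
def S_over7 : Prop := ProfinitelyRigid M7 → ∀ (G : Type) [Group G] (N : Subgroup G), N.Normal →
  N.FiniteIndex → Nonempty (N ≃* M7) → (∀ K : Subgroup G, K.Normal → Finite K → K = ⊥) →
  ProfinitelyRigid G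

end

end Pool.Agent.F8.PO
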