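import Pool.Agent.Lib.MP_305fdd_al.F8.PO.P_ov

/-!
# MP_305fdd_al, project PO: assembly of the pieces
-/

set_option autoImplicit false

namespace Pool.Agent.F8.PO

open Pool.Agent.MP_305fdd_al Pool.Agent.Lib.MP_305fdd_al Pool.Agent.F2X Pool.Agent.F8
  Pool.Agent.F8.HN Pool.Agent.F8.AB
open Pool.Agent.F8.D1 (O1)
open Pool.Agent.F8.D7 (O7)
open scoped QuadraticAlgebra

noncomputable section

/-- the centre of `SL₂(R) / ±1` is trivial -/
theorem cen_pm {R : Type} [CommRing R] [IsDomain R] (h2 : (2 : R) ≠ 0) (m : SL2 R ⧸ pm R)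
    (hm : ∀ x, m * x = x * m) : m = 1 := by
  obtain ⟨g, rfl⟩ := QuotientGroup.mk'_surjective (pm R) m
  have key : ∀ x : SL2 R, g * x = x * g ∨ g * x = -(x * g) := by
    intro x
    have h := hm (pj R x)
    rw [← map_mul, ← map_mul] at h
    exact pj_eq h
  have h2' : ∀ a : R, a = -a → a = 0 := by
    intro a ha
    have : 2 * a = 0 := by linear_combination ha
    rcases mul_eq_zero.1 this with h | h
    · exact absurd h h2
    · exact h
  have hc : g.val 1 0 = 0 := by
    rcases key (mU 1) with h | h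
    · have a1 := congrArg (fun x : SL2 R => x.val 0 0) h
      simp only [G.SL_mul, G.mU00, G.mU01, G.mU10, G.mU11] at a1
      linear_combination -a1
    · have a1 := congrArg (fun x : SL2 R => x.val 1 0) h
      simp only [G.SL_neg, G.SL_mul, G.mU00, G.mU01, G.mU10, G.mU11] at a1
      apply h2'
      linear_combination a1
  have hd : g.val 0 0 = g.val 1 1 := by
    rcases key (mU 1) with h | h
    · have a1 := congrArg (fun x : SL2 R => x.val 0 1) h
      simp only [G.SL_mul, G.mU00, G.mU01, G.mU10, G.mU11] at a1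
      linear_combination a1
    · exfalso
      have a1 := congrArg (fun x : SL2 R => x.val 0 0) h
      simp only [G.SL_neg, G.SL_mul, G.mU00, G.mU01, G.mU10, G.mU11] at a1
      have h3 : g.val 0 0 = 0 := by
        apply h2'
        linear_combination a1 - hc
      have h4 := G.SL_det g
      rw [h3, hc, zero_mul, mul_zero, sub_zero] at h4
      exact zero_ne_one h4
  have hb : g.val 0 1 = 0 := by
    rcases key (mB R) with h | h
    · have a1 := congrArg (fun x : SL2 R => x.val 0 0) h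
      simp only [G.SL_mul, G.mB00, G.mB01, G.mB10, G.mB11] at a1
      linear_combination a1 - hc
    · have a1 := congrArg (fun x : SL2 R => x.val 0 0) h
      simp only [G.SL_neg, G.SL_mul, G.mB00, G.mB01, G.mB10, G.mB11] at a1
      linear_combination a1 + hc
  have hdet := G.SL_det g
  rw [hb, ← hd, zero_mul, sub_zero] at hdet
  have h5 : (g.val 0 0 - 1) * (g.val 0 0 + 1) = 0 := by linear_combination hdet
  show pj R g = 1
  rw [← map_one (pj R)]
  rcases mul_eq_zero.1 h5 with h | h
  · have h0 : g.val 0 0 = 1 := by linear_combination h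
    congr 1
    apply G.SL_ext
    · rw [G.one00, h0]
    · rw [G.one01, hb]
    · rw [G.one10, hc]
    · rw [G.one11, ← hd, h0]
  · have h0 : g.val 0 0 = -1 := by linear_combination h
    rw [← pj_neg 1]
    congr 1
    apply G.SL_ext
    · rw [G.SL_neg, G.one00, h0]
    · rw [G.SL_neg, G.one01, hb, neg_zero]
    · rw [G.SL_neg, G.one10, hc, neg_zero]
    · rw [G.SL_neg, G.one11, ← hd, h0]

theorem fg_M1 : Group.FG M1 := by
  have : Group.FG (SL2 O1) := by
    rw [Group.fg_iff]
    refine ⟨{mU 1, mU ⟨0, 1⟩, mB O1, D1.PG.mL}, ?_, Set.toFinite _⟩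
    rw [eq_top_iff]
    intro g _
    exact D1.PG.SL_sub _ (Subgroup.subset_closure (by simp)) (Subgroup.subset_closure (by simp))
      (Subgroup.subset_closure (by simp)) (Subgroup.subset_closure (by simp)) g
  exact Group.fg_of_surjective (f := pj O1) (QuotientGroup.mk'_surjective _)

theorem fg_M7 : Group.FG M7 := by
  have : Group.FG (SL2 O7) := by
    rw [Group.fg_iff]
    refine ⟨{mU 1, mU (D7.dl ℤ), mB O7}, ?_, Set.toFinite _⟩
    rw [eq_top_iff]
    intro g _
    exact D7.PG.SL_sub _ (Subgroup.subset_closure (by simp)) (Subgroup.subset_closure (by simp))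
      (Subgroup.subset_closure (by simp)) g
  exact Group.fg_of_surjective (f := pj O7) (QuotientGroup.mk'_surjective _)

/-- two automorphisms in the same class -/
theorem same_class {R : Type} [CommRing R] (st : SL2 R →* SL2 R)
    (h h' : MulAut (SL2 R ⧸ pm R)) (a : ∃ m : SL2 R, ∀ x, h (pj R x) = pj R (m * st x * m⁻¹))
    (b : ∃ m : SL2 R, ∀ x, h' (pj R x) = pj R (m * st x * m⁻¹)) :
    ∃ m : SL2 R ⧸ pm R, ∀ x, h' x = h (m * x * m⁻¹) := by
  obtain ⟨m, hm⟩ := a
  obtain ⟨m', hm'⟩ := b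
  obtain ⟨n, hn⟩ := h.surjective (pj R (m' * m⁻¹))
  refine ⟨n, fun y => ?_⟩
  obtain ⟨x, rfl⟩ := QuotientGroup.mk'_surjective (pm R) y
  have h1 : h (n * pj R x * n⁻¹) = h n * h (pj R x) * (h n)⁻¹ := by
    rw [map_mul, map_mul, map_inv]
  show h' (pj R x) = h (n * pj R x * n⁻¹)
  rw [h1, hn, hm, hm', ← map_inv, ← map_mul, ← map_mul]
  congr 1
  group

theorem two_ne_O1 : (2 : O1) ≠ 0 := by decide

theorem two_ne_O7 : (2 : O7) ≠ 0 := by decide

theorem over1_of (ha : S_aut1) (hf : S_fx1) : S_over1 := by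
  intro hM G _ N hN hi he hK
  have := fg_M1
  refine p_ov M1 hM (cen_pm two_ne_O1) ?_ G N hN hi he hK
  intro h h' hF
  obtain ⟨d, e, hde⟩ := ha h
  obtain ⟨d', e', hde'⟩ := ha h'
  have h1 := hF (Equiv.Perm (Fin 4))
  rw [hf h d e hde, hf h' d' e' hde'] at h1
  have h2 : ∀ d e d' e' : Bool, tb1 d e = tb1 d' e' → d = d' ∧ e = e' := by decide
  obtain ⟨rfl, rfl⟩ := h2 _ _ _ _ h1
  exact same_class (st1 d e) h h' hde hde'

theorem over7_of (ha : S_aut7) (hf : S_fx7) : S_over7 := by
  intro hM G _ N hN hi he hK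
  have := fg_M7
  refine p_ov M7 hM (cen_pm two_ne_O7) ?_ G N hN hi he hK
  intro h h' hF
  obtain ⟨d, e, hde⟩ := ha h
  obtain ⟨d', e', hde'⟩ := ha h'
  have h1 := hF (Multiplicative (ZMod 2))
  have h3 := hF (Multiplicative (ZMod 3))
  rw [(hf h d e hde).1, (hf h' d' e' hde').1] at h1
  rw [(hf h d e hde).2, (hf h' d' e' hde').2] at h3
  have h2 : ∀ d e d' e' : Bool, (if e then 2 else 4 : ℕ) = (if e' then 2 else 4) →
      (if d = e then 3 else 1 : ℕ) = (if d' = e' then 3 else 1) → d = d' ∧ e = e' := by decide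
  obtain ⟨rfl, rfl⟩ := h2 _ _ _ _ h1 h3
  exact same_class (st7 d e) h h' hde hde'

end

end Pool.Agent.F8.PO
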