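import Pool.Agent.Lib.MP_305fdd_al.F8.PO.Stm

/-!
# MP_305fdd_al, project PO: piece aut7, the automorphisms of `PSL₂(O7)`
-/

set_option autoImplicit false

namespace Pool.Agent.F8.PO

open Pool.Agent.MP_305fdd_al Pool.Agent.Lib.MP_305fdd_al Pool.Agent.F2X Pool.Agent.F8
  Pool.Agent.F8.HN Pool.Agent.F8.AB
open Pool.Agent.F8.D1 (O1)
open Pool.Agent.F8.D7 (O7)
open scoped QuadraticAlgebra

noncomputable section

section mat

variable {R : Type} [CommRing R] [IsDomain R]

private theorem aut7_scalar (x : SL2 R) (b0 : x.val 0 1 = 0) (c0 : x.val 1 0 = 0)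
    (ad : x.val 0 0 = x.val 1 1) : x = 1 ∨ x = -1 := by
  have hdet := G.SL_det x
  rw [b0, c0, ← ad] at hdet
  have h1 : (x.val 0 0 - 1) * (x.val 0 0 + 1) = 0 := by linear_combination hdet
  rcases mul_eq_zero.1 h1 with h | h
  · left
    have h' : x.val 0 0 = 1 := by linear_combination h
    apply G.SL_ext
    · exact h'
    · exact b0
    · exact c0
    · rw [← ad]; exact h'
  · right
    have h' : x.val 0 0 = -1 := by linear_combination h
    apply G.SL_ext
    · exact h'
    · rw [b0]; exact neg_zero.symm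
    · rw [c0]; exact neg_zero.symm
    · rw [← ad]; exact h'

/-- an element whose square is `± 1` is `± 1` or has trace zero -/
private theorem aut7_sq (x : SL2 R) (hx : x * x = 1 ∨ x * x = -1) :
    (x = 1 ∨ x = -1) ∨ tr x = 0 := by
  by_cases ht : tr x = 0
  · exact Or.inr ht
  left
  rw [tr_eq] at ht
  have key : ∃ s : R, (x * x).val 0 1 = 0 ∧ (x * x).val 1 0 = 0 ∧ (x * x).val 0 0 = s ∧
      (x * x).val 1 1 = s := by
    rcases hx with h | h
    · rw [h]; exact ⟨1, rfl, rfl, rfl, rfl⟩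
    · rw [h]; exact ⟨-1, neg_zero, neg_zero, rfl, rfl⟩
  obtain ⟨s, k01, k10, k00, k11⟩ := key
  rw [G.SL_mul] at k01 k10 k00 k11
  have b0 : x.val 0 1 = 0 := by
    have : x.val 0 1 * (x.val 0 0 + x.val 1 1) = 0 := by linear_combination k01
    exact (mul_eq_zero.1 this).resolve_right ht
  have c0 : x.val 1 0 = 0 := by
    have : x.val 1 0 * (x.val 0 0 + x.val 1 1) = 0 := by linear_combination k10
    exact (mul_eq_zero.1 this).resolve_right ht
  have ad : x.val 0 0 = x.val 1 1 := by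
    have : (x.val 0 0 - x.val 1 1) * (x.val 0 0 + x.val 1 1) = 0 := by
      linear_combination k00 - k11
    exact sub_eq_zero.1 ((mul_eq_zero.1 this).resolve_right ht)
  exact aut7_scalar x b0 c0 ad

/-- an element whose cube is `± 1` is `± 1` or has trace `± 1` -/
private theorem aut7_cube (x : SL2 R) (hx : x * x * x = 1 ∨ x * x * x = -1) :
    (x = 1 ∨ x = -1) ∨ tr x * tr x = 1 := by
  by_cases ht : tr x * tr x = 1
  · exact Or.inr ht
  left
  rw [tr_eq] at ht
  have ht' : (x.val 0 0 + x.val 1 1) * (x.val 0 0 + x.val 1 1) - 1 ≠ 0 := sub_ne_zero.2 ht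
  have key : ∃ s : R, (x * x * x).val 0 1 = 0 ∧ (x * x * x).val 1 0 = 0 ∧
      (x * x * x).val 0 0 = s ∧ (x * x * x).val 1 1 = s := by
    rcases hx with h | h
    · rw [h]; exact ⟨1, rfl, rfl, rfl, rfl⟩
    · rw [h]; exact ⟨-1, neg_zero, neg_zero, rfl, rfl⟩
  obtain ⟨s, k01, k10, k00, k11⟩ := key
  simp only [G.SL_mul] at k01 k10 k00 k11
  have hdet := G.SL_det x
  have b0 : x.val 0 1 = 0 := by
    have : x.val 0 1 * ((x.val 0 0 + x.val 1 1) * (x.val 0 0 + x.val 1 1) - 1) = 0 := by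
      linear_combination k01 + x.val 0 1 * hdet
    exact (mul_eq_zero.1 this).resolve_right ht'
  have c0 : x.val 1 0 = 0 := by
    have : x.val 1 0 * ((x.val 0 0 + x.val 1 1) * (x.val 0 0 + x.val 1 1) - 1) = 0 := by
      linear_combination k10 + x.val 1 0 * hdet
    exact (mul_eq_zero.1 this).resolve_right ht'
  have ad : x.val 0 0 = x.val 1 1 := by
    have : (x.val 0 0 - x.val 1 1) *
        ((x.val 0 0 + x.val 1 1) * (x.val 0 0 + x.val 1 1) - 1) = 0 := by
      linear_combination k00 - k11 + (x.val 0 0 - x.val 1 1) * hdet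
    exact sub_eq_zero.1 ((mul_eq_zero.1 this).resolve_right ht')
  exact aut7_scalar x b0 c0 ad

/-- the centraliser of `mU x` -/
private theorem aut7_cent (x : R) (hx : x ≠ 0) (u : SL2 R) (h : mU x * u = u * mU x) :
    ∃ y, u = mU y ∨ u = -mU y := by
  have h00 := congrArg (fun g : SL2 R => g.val 0 0) h
  have h01 := congrArg (fun g : SL2 R => g.val 0 1) h
  simp only [G.SL_mul, G.mU00, G.mU01, G.mU10, G.mU11] at h00 h01
  have c0 : u.val 1 0 = 0 := by
    have : x * u.val 1 0 = 0 := by linear_combination h00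
    exact (mul_eq_zero.1 this).resolve_left hx
  have ad : u.val 0 0 = u.val 1 1 := by
    have : x * (u.val 0 0 - u.val 1 1) = 0 := by linear_combination -h01
    exact sub_eq_zero.1 ((mul_eq_zero.1 this).resolve_left hx)
  have hdet := G.SL_det u
  rw [c0, ← ad] at hdet
  have h1 : (u.val 0 0 - 1) * (u.val 0 0 + 1) = 0 := by linear_combination hdet
  rcases mul_eq_zero.1 h1 with h | h
  · have h' : u.val 0 0 = 1 := by linear_combination h
    refine ⟨u.val 0 1, Or.inl ?_⟩
    apply G.SL_ext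
    · exact h'
    · rfl
    · exact c0
    · rw [← ad]; exact h'
  · have h' : u.val 0 0 = -1 := by linear_combination h
    refine ⟨-u.val 0 1, Or.inr ?_⟩
    apply G.SL_ext
    · exact h'
    · exact (neg_neg _).symm
    · rw [c0]; exact neg_zero.symm
    · rw [← ad]; exact h'

omit [IsDomain R] in
private theorem aut7_trc (x a : SL2 R) : tr (a * x * a⁻¹) = tr x := by
  unfold tr
  rw [Matrix.SpecialLinearGroup.coe_mul, Matrix.trace_mul_comm, ← Matrix.SpecialLinearGroup.coe_mul,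
    inv_mul_cancel_left]

end mat


/-- the conclusion for a homomorphism -/
private def aut7_Q (ψ : SL2 O7 →* M7) : Prop :=
  ∃ (d e : Bool) (m : SL2 O7), ∀ x, ψ x = pj O7 (m * st7 d e x * m⁻¹)

private theorem aut7_conj (ψ : SL2 O7 →* M7) (A : SL2 O7)
    (h : aut7_Q (((MulAut.conj (pj O7 A)).toMonoidHom).comp ψ)) : aut7_Q ψ := by
  obtain ⟨d, e, m, hm⟩ := h
  refine ⟨d, e, A⁻¹ * m, fun x => ?_⟩
  have h1 : pj O7 A * ψ x * (pj O7 A)⁻¹ = pj O7 (m * st7 d e x * m⁻¹) := hm x
  have h2 : ψ x = (pj O7 A)⁻¹ * pj O7 (m * st7 d e x * m⁻¹) * pj O7 A := by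
    rw [← h1]; group
  rw [h2, ← map_inv, ← map_mul, ← map_mul]
  congr 1
  group

/-- `mU x ^ n = mU (n x)` -/
private theorem aut7_pow (x : O7) (n : ℤ) : mU x ^ n = mU ((n : O7) * x) := by
  induction n using Int.induction_on with
  | zero => rw [Int.cast_zero, zero_mul, G.mU_zero, zpow_zero]
  | succ i ih =>
    rw [zpow_add_one, ih, ← G.mU_add]
    congr 1
    push_cast; ring
  | pred i ih =>
    rw [zpow_sub_one, ih, mul_inv_eq_iff_eq_mul, ← G.mU_add]
    congr 1
    push_cast; ring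

private theorem aut7_two : (2 : O7) ≠ 0 := by
  intro h
  have := congrArg QuadraticAlgebra.re h
  revert this
  decide

private theorem aut7_unit {a b : O7} (h : a * b * (a * b) = 1) : a = 1 ∨ a = -1 := by
  have hu : a * (b * (a * b)) = 1 := by rw [← h]; ring
  apply D7.PG.unit_cases
  have h1 : D7.PG.nm a * D7.PG.nm (b * (a * b)) = 1 := by
    rw [← D7.PG.nm_mul, hu, D7.PG.nm_one]
  have h2 := D7.PG.nm_nonneg a
  exact Int.eq_one_of_mul_eq_one_right h2 h1

/-- the last step -/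
private theorem aut7_end (ψ : SL2 O7 →* M7) (d e : Bool)
    (hT : ψ (mU 1) = pj O7 (st7 d e (mU 1))) (hU : ψ (mU (D7.dl ℤ)) = pj O7 (st7 d e (mU (D7.dl ℤ))))
    (hB : ψ (mB O7) = pj O7 (st7 d e (mB O7))) : aut7_Q ψ := by
  refine ⟨d, e, 1, fun x => ?_⟩
  rw [one_mul, inv_one, mul_one]
  exact D7.PG.SL_sub (MonoidHom.eqLocus ψ ((pj O7).comp (st7 d e))) hT hU hB x

/-- homomorphisms with kernel `± 1` -/
private structure aut7_G (ψ : SL2 O7 →* M7) : Prop where
  neg : ψ (-1) = 1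
  ker : ∀ g, ψ g = 1 → g = 1 ∨ g = -1

private theorem aut7_pm {g : SL2 O7} (h : g = 1 ∨ g = -1) : pj O7 g = 1 := by
  rcases h with rfl | rfl
  · exact map_one _
  · rw [pj_neg, map_one]

private theorem aut7_G.cj {ψ : SL2 O7 →* M7} (hψ : aut7_G ψ) (A : SL2 O7) :
    aut7_G (((MulAut.conj (pj O7 A)).toMonoidHom).comp ψ) := by
  constructor
  · show pj O7 A * ψ (-1) * (pj O7 A)⁻¹ = 1
    rw [hψ.neg, mul_one, mul_inv_cancel]
  · intro g hg
    have h1 : pj O7 A * ψ g * (pj O7 A)⁻¹ = 1 := hg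
    apply hψ.ker
    have h2 : ψ g = (pj O7 A)⁻¹ * (pj O7 A * ψ g * (pj O7 A)⁻¹) * pj O7 A := by group
    rw [h2, h1]; group

private theorem aut7_cjv (ψ : SL2 O7 →* M7) (A g G : SL2 O7) (h : ψ g = pj O7 G) :
    (((MulAut.conj (pj O7 A)).toMonoidHom).comp ψ) g = pj O7 (A * G * A⁻¹) := by
  show pj O7 A * ψ g * (pj O7 A)⁻¹ = _
  rw [h, map_mul, map_mul, map_inv]

private theorem aut7_inv (y : O7) : (mU y)⁻¹ = mU (-y) := by
  rw [inv_eq_iff_mul_eq_one, ← G.mU_add, add_neg_cancel, G.mU_zero]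

/-- the normal form -/
private theorem aut7_fin (ψ : SL2 O7 →* M7) (hψ : aut7_G ψ) (x y : O7) (hx : x = 1 ∨ x = -1)
    (hT : ψ (mU 1) = pj O7 (mU x)) (hU : ψ (mU (D7.dl ℤ)) = pj O7 (mU y))
    (hB : ψ (mB O7) = pj O7 (mB O7)) : aut7_Q ψ := by
  have hxx : x * x = 1 := by
    rcases hx with rfl | rfl
    · ring
    · ring
  obtain ⟨Z, hZ⟩ : ∃ Z : SL2 O7, Z = mB O7 * mU 1 * mU (D7.dl ℤ) * mB O7 * mU (-(D7.dl ℤ)) := ⟨_, rfl⟩
  obtain ⟨Z', hZ'⟩ : ∃ Z' : SL2 O7, Z' = mB O7 * mU x * mU y * mB O7 * mU (-y) := ⟨_, rfl⟩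
  have hZZ : ψ Z = pj O7 Z' := by
    rw [hZ, hZ', ← aut7_inv, ← aut7_inv]
    simp only [map_mul, map_inv, hT, hU, hB]
  have hZ2 : Z * Z = -1 := by
    rw [hZ]
    apply G.SL_ext <;> simp only [G.SL_mul] <;> decide
  have hZ1 : ¬ (Z = 1 ∨ Z = -1) := by
    rw [hZ]
    rintro (h | h)
    · have h1 := congrArg (fun g : SL2 O7 => g.val 1 0) h
      simp only [G.SL_mul] at h1
      revert h1
      decide
    · have h1 := congrArg (fun g : SL2 O7 => g.val 1 0) h
      simp only [G.SL_mul] at h1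
      revert h1
      decide
  have h2 : Z' * Z' = 1 ∨ Z' * Z' = -1 := by
    apply pj_eq_one
    rw [map_mul, ← hZZ, ← map_mul, hZ2, hψ.neg]
  have h3 : ¬ (Z' = 1 ∨ Z' = -1) := by
    intro h
    apply hZ1
    apply hψ.ker
    rw [hZZ, aut7_pm h]
  have h4 : tr Z' = 0 := (aut7_sq Z' h2).resolve_left h3
  have h5 : (y - x * (D7.dl ℤ)) * (y + x + x * (D7.dl ℤ)) = 0 := by
    rw [hZ', tr_eq] at h4
    simp only [G.SL_mul, G.mU00, G.mU01, G.mU10, G.mU11, G.mB00, G.mB01, G.mB10, G.mB11] at h4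
    have h6 := D7.dl_eq ℤ
    linear_combination -h4 - x * x * h6 + 2 * hxx
  rcases mul_eq_zero.1 h5 with h | h
  · rcases hx with rfl | rfl
    · obtain rfl : y = (D7.dl ℤ) := by linear_combination h
      exact aut7_end ψ false false hT hU hB
    · obtain rfl : y = -(D7.dl ℤ) := by linear_combination h
      refine aut7_end ψ true false ?_ ?_ ?_
      · rw [hT]
        congr 1
      · rw [hU]
        congr 1
      · rw [hB, ← pj_neg]
        congr 1
        apply G.SL_ext <;> rfl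
  · rcases hx with rfl | rfl
    · obtain rfl : y = ⟨-1, -1⟩ := by
        have h6 : (⟨-1, -1⟩ : O7) = -1 - (D7.dl ℤ) := by decide
        rw [h6]
        linear_combination h
      refine aut7_end ψ false true ?_ ?_ ?_
      · rw [hT]
        congr 1
        apply G.SL_ext <;> rfl
      · rw [hU]
        congr 1
        apply G.SL_ext <;> rfl
      · rw [hB]
        congr 1
        apply G.SL_ext <;> rfl
    · obtain rfl : y = ⟨1, 1⟩ := by
        have h6 : (⟨1, 1⟩ : O7) = 1 + (D7.dl ℤ) := by decide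
        rw [h6]
        linear_combination h
      refine aut7_end ψ true true ?_ ?_ ?_
      · rw [hT]
        congr 1
      · rw [hU]
        congr 1
      · rw [hB, ← pj_neg]
        congr 1
        apply G.SL_ext <;> rfl

/-- the normalisation of the image of `mB` -/
private theorem aut7_nB (ψ : SL2 O7 →* M7) (hψ : aut7_G ψ) (x y : O7)
    (hT : ψ (mU 1) = pj O7 (mU x)) (hU : ψ (mU (D7.dl ℤ)) = pj O7 (mU y)) : aut7_Q ψ := by
  obtain ⟨B, hB'⟩ := QuotientGroup.mk'_surjective (pm O7) (ψ (mB O7))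
  have hB : ψ (mB O7) = pj O7 B := hB'.symm
  have hB1 : ¬ (B = 1 ∨ B = -1) := by
    intro h
    rw [aut7_pm h] at hB
    rcases hψ.ker _ hB with h1 | h1
    · have h2 := congrArg (fun g : SL2 O7 => g.val 1 0) h1
      revert h2
      decide
    · have h2 := congrArg (fun g : SL2 O7 => g.val 1 0) h1
      revert h2
      decide
  have hBB : B * B = 1 ∨ B * B = -1 := by
    apply pj_eq_one
    rw [map_mul, ← hB, ← map_mul, G.BB, hψ.neg]
  have htB : tr B = 0 := (aut7_sq B hBB).resolve_left hB1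
  -- the element of order three
  have hC : ψ (mU 1 * mB O7) = pj O7 (mU x * B) := by rw [map_mul, hT, hB, map_mul]
  have hC3 : mU (1 : O7) * mB O7 * (mU 1 * mB O7) * (mU 1 * mB O7) = -1 := by
    apply G.SL_ext <;> simp only [G.SL_mul] <;> decide
  have hC1 : ¬ (mU x * B = 1 ∨ mU x * B = -1) := by
    intro h
    rw [aut7_pm h] at hC
    rcases hψ.ker _ hC with h1 | h1
    · have h2 := congrArg (fun g : SL2 O7 => g.val 1 0) h1
      simp only [G.SL_mul] at h2
      revert h2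
      decide
    · have h2 := congrArg (fun g : SL2 O7 => g.val 1 0) h1
      simp only [G.SL_mul] at h2
      revert h2
      decide
  have hC3' : mU x * B * (mU x * B) * (mU x * B) = 1 ∨
      mU x * B * (mU x * B) * (mU x * B) = -1 := by
    apply pj_eq_one
    rw [map_mul, map_mul _ (mU x * B) (mU x * B), ← hC, ← map_mul, ← map_mul, hC3, hψ.neg]
  have htC := (aut7_cube _ hC3').resolve_left hC1
  rw [tr_eq] at htB htC
  simp only [G.SL_mul, G.mU00, G.mU01, G.mU10, G.mU11] at htC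
  have hxb : x * B.val 1 0 * (x * B.val 1 0) = 1 := by
    linear_combination htC - (2 * x * B.val 1 0 + B.val 0 0 + B.val 1 1) * htB
  have hx : x = 1 ∨ x = -1 := aut7_unit hxb
  have hb : B.val 1 0 = 1 ∨ B.val 1 0 = -1 := by
    apply aut7_unit (b := x)
    linear_combination hxb
  have hbb : B.val 1 0 * B.val 1 0 = 1 := by
    rcases hb with h | h
    · rw [h]; ring
    · rw [h]; ring
  have hdet := G.SL_det B
  obtain ⟨z, hz⟩ : ∃ z, z = -(B.val 0 0) * B.val 1 0 := ⟨_, rfl⟩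
  have h00 : (mU z * B * (mU z)⁻¹).val 0 0 = 0 := by
    rw [aut7_inv]
    simp only [G.SL_mul, G.mU00, G.mU01, G.mU10, G.mU11]
    rw [hz]
    linear_combination -(B.val 0 0) * hbb
  have h01 : (mU z * B * (mU z)⁻¹).val 0 1 = -(B.val 1 0) := by
    rw [aut7_inv]
    simp only [G.SL_mul, G.mU00, G.mU01, G.mU10, G.mU11]
    rw [hz]
    linear_combination (-(B.val 0 0 * B.val 0 0 * B.val 1 0) - B.val 0 1) * hbb -
      B.val 1 0 * hdet
  have h10 : (mU z * B * (mU z)⁻¹).val 1 0 = B.val 1 0 := by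
    rw [aut7_inv]
    simp only [G.SL_mul, G.mU00, G.mU01, G.mU10, G.mU11]
    ring
  have h11 : (mU z * B * (mU z)⁻¹).val 1 1 = 0 := by
    rw [aut7_inv]
    simp only [G.SL_mul, G.mU00, G.mU01, G.mU10, G.mU11]
    rw [hz]
    linear_combination (B.val 0 0) * hbb + htB
  apply aut7_conj ψ (mU z)
  refine aut7_fin _ (hψ.cj _) x y hx ?_ ?_ ?_
  · rw [aut7_cjv ψ _ _ _ hT, ← G.mU_add, aut7_inv, ← G.mU_add]
    congr 2
    ring
  · rw [aut7_cjv ψ _ _ _ hU, ← G.mU_add, aut7_inv, ← G.mU_add]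
    congr 2
    ring
  · rw [aut7_cjv ψ _ _ _ hB]
    rcases hb with h | h
    · congr 1
      apply G.SL_ext
      · exact h00
      · rw [h01, h]; rfl
      · rw [h10, h]; rfl
      · exact h11
    · rw [← pj_neg]
      congr 1
      apply G.SL_ext
      · rw [G.SL_neg, h00]; rfl
      · rw [G.SL_neg, h01, h]; rfl
      · rw [G.SL_neg, h10, h]; rfl
      · rw [G.SL_neg, h11]; rfl

private theorem aut7_main (hpar : S_par) (hemb : S_emb) (hnrm : S_nrm) (ψ : SL2 O7 →* M7)
    (hψ : aut7_G ψ) : aut7_Q ψ := by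
  obtain ⟨T, hT'⟩ := QuotientGroup.mk'_surjective (pm O7) (ψ (mU 1))
  have hT : ψ (mU 1) = pj O7 T := hT'.symm
  obtain ⟨U, hU'⟩ := QuotientGroup.mk'_surjective (pm O7) (ψ (mU (D7.dl ℤ)))
  have hU : ψ (mU (D7.dl ℤ)) = pj O7 U := hU'.symm
  -- the powers of the images
  have hz : ∀ m n : ℤ, pj O7 (T ^ m * U ^ n) = 1 → m = 0 ∧ n = 0 := by
    intro m n h
    have h1 : ψ (mU 1 ^ m * mU (D7.dl ℤ) ^ n) = 1 := by
      rw [map_mul, map_zpow, map_zpow, hT, hU, ← map_zpow, ← map_zpow, ← map_mul, h]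
    rw [aut7_pow, aut7_pow, ← G.mU_add] at h1
    rcases hψ.ker _ h1 with h2 | h2
    · have h3 := congrArg (fun g : SL2 O7 => g.val 0 1) h2
      change (m : O7) * 1 + (n : O7) * (D7.dl ℤ) = 0 at h3
      have h4 := congrArg QuadraticAlgebra.re h3
      have h5 := congrArg QuadraticAlgebra.im h3
      simp [D7.dl] at h4 h5
      exact ⟨h4, h5⟩
    · have h3 := congrArg (fun g : SL2 O7 => g.val 0 0) h2
      change (1 : O7) = -1 at h3
      exact absurd (by linear_combination h3) aut7_two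
  -- they commute
  have hc : T * U = U * T := by
    have h1 : pj O7 (T * U) = pj O7 (U * T) := by
      rw [map_mul, map_mul, ← hT, ← hU, ← map_mul, ← map_mul, ← G.mU_add, ← G.mU_add, add_comm]
    rcases pj_eq h1 with h2 | h2
    · exact h2
    · exfalso
      have h3 : T = U * (-T) * U⁻¹ := by
        rw [mul_neg, ← h2, mul_inv_cancel_right]
      have h4 : tr T = tr (-T) := by
        conv_lhs => rw [h3]
        exact aut7_trc _ _
      have h5 : tr (-T) = -tr T := by
        rw [tr_eq, tr_eq, G.SL_neg, G.SL_neg]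
        ring
      have h6 : tr T = 0 := by
        have : (2 : O7) * tr T = 0 := by linear_combination h4 + h5
        exact (mul_eq_zero.1 this).resolve_left aut7_two
      have h7 : T * T = -1 := by
        rw [tr_eq] at h6
        have h8 := G.SL_det T
        apply G.SL_ext <;> rw [G.SL_mul, G.SL_neg]
        · show _ = -(1 : O7)
          linear_combination T.val 0 0 * h6 - h8
        · show _ = -(0 : O7)
          linear_combination T.val 0 1 * h6
        · show _ = -(0 : O7)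
          linear_combination T.val 1 0 * h6
        · show _ = -(1 : O7)
          linear_combination T.val 1 1 * h6 - h8
      have h9 := (hz 2 0 (by
        rw [zpow_zero, mul_one, zpow_two, h7, pj_neg, map_one])).1
      exact absurd h9 (by norm_num)
  -- the trace
  obtain ⟨j, hj, hjf⟩ := hemb.2
  have htr := hpar O7 j hj hjf T U hc fun m n h => hz m n (by rw [h, map_one])
  obtain ⟨T₁, hT1, hc1, ht1⟩ : ∃ T₁ : SL2 O7, ψ (mU 1) = pj O7 T₁ ∧ T₁ * U = U * T₁ ∧ tr T₁ = 2 := by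
    rcases htr with h | h
    · exact ⟨T, hT, hc, h⟩
    · refine ⟨-T, by rw [pj_neg, hT], by rw [neg_mul, mul_neg, hc], ?_⟩
      rw [tr_eq, G.SL_neg, G.SL_neg]
      rw [tr_eq] at h
      linear_combination -h
  obtain ⟨A, x, hA⟩ := hnrm O7 T₁ ht1
  have hx0 : x ≠ 0 := by
    rintro rfl
    rw [G.mU_zero] at hA
    have h1 : T₁ = 1 := by
      have : T₁ = A⁻¹ * (A * T₁ * A⁻¹) * A := by group
      rw [this, hA]; group
    rw [h1, map_one] at hT1
    rcases hψ.ker _ hT1 with h2 | h2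
    · have h3 := congrArg (fun g : SL2 O7 => g.val 0 1) h2
      revert h3
      decide
    · have h3 := congrArg (fun g : SL2 O7 => g.val 0 1) h2
      revert h3
      decide
  have hcA : mU x * (A * U * A⁻¹) = A * U * A⁻¹ * mU x := by
    rw [← hA]
    have e1 : A * T₁ * A⁻¹ * (A * U * A⁻¹) = A * (T₁ * U) * A⁻¹ := by group
    have e2 : A * U * A⁻¹ * (A * T₁ * A⁻¹) = A * (U * T₁) * A⁻¹ := by group
    rw [e1, e2, hc1]
  obtain ⟨y, hy⟩ := aut7_cent x hx0 _ hcA
  apply aut7_conj ψ A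
  refine aut7_nB _ (hψ.cj _) x y ?_ ?_
  · rw [aut7_cjv ψ _ _ _ hT1, hA]
  · rw [aut7_cjv ψ _ _ _ hU]
    rcases hy with h | h
    · rw [h]
    · rw [h, pj_neg]

theorem p_aut7 (hpar : S_par) (hemb : S_emb) (hnrm : S_nrm) : S_aut7 := by
  intro h
  have hG : aut7_G (h.toMonoidHom.comp (pj O7)) := by
    constructor
    · show h (pj O7 (-1)) = 1
      rw [pj_neg, map_one, map_one]
    · intro g hg
      have h1 : h (pj O7 g) = 1 := hg
      exact pj_eq_one ((map_eq_one_iff h h.injective).1 h1)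
  obtain ⟨d, e, m, hm⟩ := aut7_main hpar hemb hnrm _ hG
  exact ⟨d, e, m, hm⟩

end

end Pool.Agent.F8.PO
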