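import Pool.Agent.Lib.MP_305fdd_al.F8.PO.Stm

/-!
# MP_305fdd_al, project PO, piece emb: `O1` and `O7` are discrete subrings of `ℂ`
-/

set_option autoImplicit false

namespace Pool.Agent.F8.PO

open Pool.Agent.F8.D1 (O1 ev1 ev1_apply)
open Pool.Agent.F8.D7 (O7 ev7 ev7_apply)
open scoped QuadraticAlgebra

private theorem emb_fin {a b : ℤ} (S : Set (QuadraticAlgebra ℤ a b)) (N : ℤ)
    (h : ∀ z ∈ S, |z.re| ≤ N ∧ |z.im| ≤ N) : S.Finite := by
  refine Set.Finite.subset (((Set.finite_Icc (-N) N).prod (Set.finite_Icc (-N) N)).image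
    (fun p : ℤ × ℤ => (⟨p.1, p.2⟩ : QuadraticAlgebra ℤ a b))) ?_
  intro z hz
  obtain ⟨h1, h2⟩ := h z hz
  exact ⟨(z.re, z.im), ⟨abs_le.1 h1, abs_le.1 h2⟩, rfl⟩

private theorem emb_int (n : ℤ) (C : ℝ) (h : |(n : ℝ)| ≤ C) : |n| ≤ ⌈C⌉ := by
  have h1 : ((|n| : ℤ) : ℝ) ≤ C := by rw [Int.cast_abs]; exact h
  have h2 : ((|n| : ℤ) : ℝ) ≤ ((⌈C⌉ : ℤ) : ℝ) := h1.trans (Int.le_ceil C)
  exact_mod_cast h2

private noncomputable def dd : ℂ := ⟨-1 / 2, Real.sqrt 7 / 2⟩

private theorem dd_eq : dd * dd + dd + 2 = 0 := by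
  have h : Real.sqrt 7 * Real.sqrt 7 = 7 := Real.mul_self_sqrt (by norm_num)
  apply Complex.ext
  · simp only [dd, Complex.add_re, Complex.mul_re, Complex.re_ofNat, Complex.zero_re]
    linear_combination (-1 / 4) * h
  · simp only [dd, Complex.add_im, Complex.mul_im, Complex.im_ofNat, Complex.zero_im]
    ring

private theorem s7 : 2 ≤ Real.sqrt 7 := by
  apply Real.le_sqrt_of_sq_le
  norm_num

theorem p_emb : S_emb := by
  constructor
  · refine ⟨ev1 (Int.castRingHom ℂ) Complex.I Complex.I_mul_I, ?_, ?_⟩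
    · rw [injective_iff_map_eq_zero]
      intro z hz
      rw [ev1_apply] at hz
      have h1 := congrArg Complex.re hz
      have h2 := congrArg Complex.im hz
      simp at h1 h2
      apply QuadraticAlgebra.ext
      · simpa using h1
      · simpa using h2
    · intro C
      apply emb_fin _ ⌈C⌉
      intro z hz
      have hz1 : ‖ev1 (Int.castRingHom ℂ) Complex.I Complex.I_mul_I z‖ ≤ C := hz
      have hr := (Complex.abs_re_le_norm _).trans hz1
      have hi := (Complex.abs_im_le_norm _).trans hz1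
      rw [ev1_apply] at hr hi
      simp at hr hi
      exact ⟨emb_int _ _ hr, emb_int _ _ hi⟩
  · refine ⟨ev7 (Int.castRingHom ℂ) dd dd_eq, ?_, ?_⟩
    · rw [injective_iff_map_eq_zero]
      intro z hz
      rw [ev7_apply] at hz
      have h1 := congrArg Complex.re hz
      have h2 := congrArg Complex.im hz
      simp [dd] at h1 h2
      have h3 : (z.im : ℝ) = 0 := by
        exact_mod_cast h2
      rw [h3] at h1
      apply QuadraticAlgebra.ext
      · have h4 : (z.re : ℝ) = 0 := by linarith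
        exact_mod_cast h4
      · exact_mod_cast h3
    · intro C
      apply emb_fin _ ⌈2 * C⌉
      intro z hz
      have hz1 : ‖ev7 (Int.castRingHom ℂ) dd dd_eq z‖ ≤ C := hz
      have hr := (Complex.abs_re_le_norm _).trans hz1
      have hi := (Complex.abs_im_le_norm _).trans hz1
      rw [ev7_apply] at hr hi
      simp [dd] at hr hi
      have hC : 0 ≤ C := (norm_nonneg _).trans hz1
      have h7 := s7
      have hi1 : |(z.im : ℝ)| ≤ C := by
        rw [abs_of_nonneg (by positivity : (0 : ℝ) ≤ Real.sqrt 7 / 2)] at hi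
        have := abs_nonneg (z.im : ℝ)
        nlinarith
      have hi2 := abs_le.1 hi1
      have hr2 := abs_le.1 hr
      refine ⟨emb_int _ _ ?_, emb_int _ _ (by linarith)⟩
      rw [abs_le]
      constructor
      · linarith [hi2.1, hi2.2, hr2.1, hr2.2]
      · linarith [hi2.1, hi2.2, hr2.1, hr2.2]

end Pool.Agent.F8.PO
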