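import Pool.Agent.Lib.MP_305fdd_al.F8.PO.Stm

/-!
# MP_305fdd_al, project PO: the numbers for `O7` (piece fx7)
-/

set_option autoImplicit false

namespace Pool.Agent.F8.PO

open Pool.Agent.MP_305fdd_al Pool.Agent.Lib.MP_305fdd_al Pool.Agent.F2X Pool.Agent.F8
  Pool.Agent.F8.HN Pool.Agent.F8.AB
open Pool.Agent.F8.D7 (O7)
open Pool.Agent.F8.G (SL_ext SL_mul SL_neg mU00 mU01 mU10 mU11 mB00 mB01 mB10 mB11 mU_add
  mU_zero BB)
open scoped QuadraticAlgebra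

noncomputable section

/-! ### Matrices -/

private theorem fx7_neg (x : O7) : mU (-x) = (mU x)⁻¹ := by
  apply eq_inv_of_mul_eq_one_left
  rw [← mU_add, neg_add_cancel, mU_zero]

private theorem fx7_m3 : mU (1 : O7) * mB O7 * mU 1 * mB O7 * mU 1 * mB O7 = -1 := by
  apply SL_ext <;> simp only [SL_mul, mU00, mU01, mU10, mU11, mB00, mB01, mB10, mB11] <;> decide

private theorem fx7_m4 : mU (-D7.dl ℤ) * mU (-1 : O7) * mB O7 * mU (D7.dl ℤ) * mB O7 *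
    mU (-D7.dl ℤ) * mU (-1 : O7) * mB O7 * mU (D7.dl ℤ) * mB O7 = -1 := by
  apply SL_ext <;> simp only [SL_mul, mU00, mU01, mU10, mU11, mB00, mB01, mB10, mB11] <;> decide

private theorem fx7_c1 : SLm cj7 (mU (1 : O7)) = mU 1 := by
  apply SL_ext <;> decide

private theorem fx7_c2 : SLm cj7 (mU (D7.dl ℤ)) = mU (-1) * mU (-D7.dl ℤ) := by
  rw [← mU_add]
  apply SL_ext <;> decide

private theorem fx7_c3 : SLm cj7 (mB O7) = mB O7 := by
  apply SL_ext <;> decide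

private theorem fx7_d (x : O7) : de7 (mU x) = mU (-x) := by
  apply SL_ext
  · rfl
  · rfl
  · exact neg_zero
  · rfl

private theorem fx7_d3 : de7 (mB O7) = -mB O7 := by
  apply SL_ext <;> decide

/-! ### Homomorphisms to a commutative group -/

section
variable {P : Type} [CommGroup P]

/-- the relations -/
private def fx7_Q (t : P × P × P) : Prop :=
  t.2.2 * t.2.2 = 1 ∧ t.1 * t.2.2 * t.1 * t.2.2 * t.1 * t.2.2 = 1 ∧
    t.2.1⁻¹ * t.1⁻¹ * t.2.2 * t.2.1 * t.2.2 * t.2.1⁻¹ * t.1⁻¹ * t.2.2 * t.2.1 * t.2.2 = 1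

/-- the value at `mU 1` after `st7 d e` -/
private def fx7_g (d : Bool) (t : P × P × P) : P := if d then t.1⁻¹ else t.1

/-- the value at `mU δ` after `st7 d e` -/
private def fx7_k (d e : Bool) (t : P × P × P) : P :=
  if d then (if e then t.1 * t.2.1 else t.2.1⁻¹) else (if e then t.1⁻¹ * t.2.1⁻¹ else t.2.1)

/-- the condition -/
private def fx7_R (d e : Bool) (t : P × P × P) : Prop :=
  fx7_Q t ∧ fx7_g d t = t.1 ∧ fx7_k d e t = t.2.1

/-- the values of a homomorphism -/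
private def fx7_v (θ : M7 →* P) : P × P × P :=
  (θ (pj O7 (mU 1)), θ (pj O7 (mU (D7.dl ℤ))), θ (pj O7 (mB O7)))

private theorem fx7_vQ (θ : M7 →* P) : fx7_Q (fx7_v θ) := by
  refine ⟨?_, ?_, ?_⟩
  · show θ (pj O7 (mB O7)) * θ (pj O7 (mB O7)) = 1
    rw [← map_mul, ← map_mul, BB, pj_neg, map_one, map_one]
  · show θ (pj O7 (mU 1)) * θ (pj O7 (mB O7)) * θ (pj O7 (mU 1)) * θ (pj O7 (mB O7)) *
      θ (pj O7 (mU 1)) * θ (pj O7 (mB O7)) = 1
    simp only [← map_mul]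
    rw [fx7_m3, pj_neg, map_one, map_one]
  · show (θ (pj O7 (mU (D7.dl ℤ))))⁻¹ * (θ (pj O7 (mU 1)))⁻¹ * θ (pj O7 (mB O7)) *
      θ (pj O7 (mU (D7.dl ℤ))) * θ (pj O7 (mB O7)) * (θ (pj O7 (mU (D7.dl ℤ))))⁻¹ *
      (θ (pj O7 (mU 1)))⁻¹ * θ (pj O7 (mB O7)) * θ (pj O7 (mU (D7.dl ℤ))) *
      θ (pj O7 (mB O7)) = 1
    simp only [← map_inv, ← fx7_neg, ← map_mul]
    rw [fx7_m4, pj_neg, map_one, map_one]

private theorem fx7_ext (f g : SL2 O7 →* P) (h1 : f (mU 1) = g (mU 1))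
    (h2 : f (mU (D7.dl ℤ)) = g (mU (D7.dl ℤ))) (h3 : f (mB O7) = g (mB O7)) (x : SL2 O7) :
    f x = g x :=
  D7.PG.SL_sub (f.eqLocus g) h1 h2 h3 x

private theorem fx7_inj (θ θ' : M7 →* P) (h : fx7_v θ = fx7_v θ') : θ = θ' := by
  have h1 : ∀ x, θ.comp (pj O7) x = θ'.comp (pj O7) x :=
    fx7_ext _ _ (congrArg Prod.fst h) (congrArg (fun t => t.2.1) h) (congrArg (fun t => t.2.2) h)
  apply MonoidHom.ext
  intro y
  obtain ⟨x, rfl⟩ := QuotientGroup.mk'_surjective (pm O7) y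
  exact h1 x

private theorem fx7_sur (t : P × P × P) (h : fx7_Q t) : ∃ θ : M7 →* P, fx7_v θ = t := by
  obtain ⟨al, up, be⟩ := t
  obtain ⟨h2, h3, h4⟩ := h
  obtain ⟨f, hf, hb⟩ := D7.PG.pres (Q := P) (al := al) (up := up) (be := be)
    ⟨mul_comm _ _, h2, h3, h4⟩
  have hn : f (-1) = 1 := by
    rw [← BB, map_mul, hb]
    exact h2
  have hk : ∀ x ∈ pm O7, f x = 1 := by
    rintro x (rfl | rfl)
    · exact map_one f
    · exact hn
  refine ⟨QuotientGroup.lift (pm O7) f hk, ?_⟩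
  have e1 : f (mU 1) = al := by
    rw [hf]
    simp [D7.PG.ee]
  have e2 : f (mU (D7.dl ℤ)) = up := by
    rw [hf]
    simp [D7.PG.ee, D7.dl]
  exact Prod.ext e1 (Prod.ext e2 hb)

/-- the values after `st7 d e` -/
private theorem fx7_st (θ : M7 →* P) (d e : Bool) :
    θ (pj O7 (st7 d e (mU 1))) = fx7_g d (fx7_v θ) ∧
    θ (pj O7 (st7 d e (mU (D7.dl ℤ)))) = fx7_k d e (fx7_v θ) ∧
    θ (pj O7 (st7 d e (mB O7))) = θ (pj O7 (mB O7)) := by
  cases d <;> cases e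
  · exact ⟨rfl, rfl, rfl⟩
  · refine ⟨?_, ?_, ?_⟩
    · show θ (pj O7 (SLm cj7 (mU 1))) = θ (pj O7 (mU 1))
      rw [fx7_c1]
    · show θ (pj O7 (SLm cj7 (mU (D7.dl ℤ)))) =
        (θ (pj O7 (mU 1)))⁻¹ * (θ (pj O7 (mU (D7.dl ℤ))))⁻¹
      rw [fx7_c2, fx7_neg, fx7_neg, map_mul, map_mul, map_inv, map_inv, map_inv, map_inv]
    · show θ (pj O7 (SLm cj7 (mB O7))) = θ (pj O7 (mB O7))
      rw [fx7_c3]
  · refine ⟨?_, ?_, ?_⟩
    · show θ (pj O7 (de7 (mU 1))) = (θ (pj O7 (mU 1)))⁻¹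
      rw [fx7_d, fx7_neg, map_inv, map_inv]
    · show θ (pj O7 (de7 (mU (D7.dl ℤ)))) = (θ (pj O7 (mU (D7.dl ℤ))))⁻¹
      rw [fx7_d, fx7_neg, map_inv, map_inv]
    · show θ (pj O7 (de7 (mB O7))) = θ (pj O7 (mB O7))
      rw [fx7_d3, pj_neg]
  · refine ⟨?_, ?_, ?_⟩
    · show θ (pj O7 (de7 (SLm cj7 (mU 1)))) = (θ (pj O7 (mU 1)))⁻¹
      rw [fx7_c1, fx7_d, fx7_neg, map_inv, map_inv]
    · show θ (pj O7 (de7 (SLm cj7 (mU (D7.dl ℤ))))) =
        θ (pj O7 (mU 1)) * θ (pj O7 (mU (D7.dl ℤ)))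
      rw [fx7_c2, map_mul, fx7_d, fx7_d, neg_neg, neg_neg, map_mul, map_mul]
    · show θ (pj O7 (de7 (SLm cj7 (mB O7)))) = θ (pj O7 (mB O7))
      rw [fx7_c3, fx7_d3, pj_neg]

private theorem fx7_iff (h : MulAut M7) (d e : Bool) (hI : Is7 h d e) (θ : M7 →* P) :
    (∃ z : P, ∀ x, θ (h x) = z * θ x * z⁻¹) ↔
      fx7_g d (fx7_v θ) = (fx7_v θ).1 ∧ fx7_k d e (fx7_v θ) = (fx7_v θ).2.1 := by
  obtain ⟨m, hm⟩ := hI
  obtain ⟨s1, s2, s3⟩ := fx7_st θ d e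
  have hc : ∀ x, θ (h (pj O7 x)) = θ (pj O7 (st7 d e x)) := by
    intro x
    rw [hm, map_mul, map_mul, map_mul, map_mul, map_inv, map_inv, mul_comm (θ (pj O7 m)),
      mul_inv_cancel_right]
  have hz : ∀ z a : P, z * a * z⁻¹ = a := fun z a => by rw [mul_comm z a, mul_inv_cancel_right]
  constructor
  · rintro ⟨z, hz'⟩
    have h1 := hz' (pj O7 (mU 1))
    have h2 := hz' (pj O7 (mU (D7.dl ℤ)))
    rw [hc, hz, s1] at h1
    rw [hc, hz, s2] at h2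
    exact ⟨h1, h2⟩
  · rintro ⟨h1, h2⟩
    refine ⟨1, fun y => ?_⟩
    obtain ⟨x, rfl⟩ := QuotientGroup.mk'_surjective (pm O7) y
    have h3 : θ (h (pj O7 x)) = θ (pj O7 x) := by
      rw [hc]
      exact fx7_ext ((θ.comp (pj O7)).comp (st7 d e)) (θ.comp (pj O7)) (s1.trans h1)
        (s2.trans h2) s3 x
    rw [hz]
    exact h3

private theorem fx7_card (h : MulAut M7) (d e : Bool) (hI : Is7 h d e) :
    Fx M7 P h = Nat.card {t : P × P × P // fx7_R d e t} := by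
  unfold Fx
  let F : {θ : M7 →* P // ∃ z : P, ∀ x, θ (h x) = z * θ x * z⁻¹} →
      {t : P × P × P // fx7_R d e t} :=
    fun θ => ⟨fx7_v θ.1, fx7_vQ θ.1, (fx7_iff h d e hI θ.1).1 θ.2⟩
  apply Nat.card_eq_of_bijective F
  constructor
  · intro θ θ' hθ
    exact Subtype.ext (fx7_inj _ _ (congrArg Subtype.val hθ))
  · rintro ⟨t, ht, ht'⟩
    obtain ⟨θ, hθ⟩ := fx7_sur t ht
    subst hθ
    exact ⟨⟨θ, (fx7_iff h d e hI θ).2 ht'⟩, rfl⟩

end

private instance {P : Type} [CommGroup P] [DecidableEq P] (t : P × P × P) :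
    Decidable (fx7_Q t) := by
  unfold fx7_Q
  infer_instance

private instance {P : Type} [CommGroup P] [DecidableEq P] (d e : Bool) (t : P × P × P) :
    Decidable (fx7_R d e t) := by
  unfold fx7_R
  infer_instance

/-- the piece fx7 -/
theorem p_fx7 : S_fx7 := by
  intro h d e hI
  constructor
  · rw [fx7_card h d e hI, Nat.card_eq_fintype_card]
    clear hI
    revert d e
    decide +kernel
  · rw [fx7_card h d e hI, Nat.card_eq_fintype_card]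
    clear hI
    revert d e
    decide +kernel

end

end Pool.Agent.F8.PO
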