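import Pool.Agent.Lib.MP_305fdd_al.F8.PO.Stm

set_option autoImplicit false

/-!
# MP_305fdd_al, project PO, piece nrm: unipotent matrices over a principal ideal domain
-/

namespace Pool.Agent.F8.PO

open Pool.Agent.MP_305fdd_al Pool.Agent.Lib.MP_305fdd_al Pool.Agent.F2X Pool.Agent.F8
  Pool.Agent.F8.HN Pool.Agent.F8.AB

/-- Two elements of a principal ideal domain, not both zero, divided by their greatest common divisor. -/
private lemma nrm_gcd {R : Type} [CommRing R] [IsDomain R] [IsPrincipalIdealRing R] (a c : R)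
    (h : ¬ (a = 0 ∧ c = 0)) : ∃ g a' c' u v : R, g ≠ 0 ∧ a = g * a' ∧ c = g * c' ∧
      u * a' + v * c' = 1 := by
  obtain ⟨g, hg⟩ := (IsPrincipalIdealRing.principal (Ideal.span {a, c})).principal
  have ha : a ∈ Ideal.span {g} := by
    have : a ∈ Ideal.span {a, c} := Ideal.subset_span (by simp)
    rw [hg] at this
    exact this
  have hc : c ∈ Ideal.span {g} := by
    have : c ∈ Ideal.span {a, c} := Ideal.subset_span (by simp)
    rw [hg] at this
    exact this
  have hgm : g ∈ Ideal.span {a, c} := by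
    rw [hg]
    exact Submodule.mem_span_singleton_self g
  obtain ⟨a', ha'⟩ := Ideal.mem_span_singleton'.1 ha
  obtain ⟨c', hc'⟩ := Ideal.mem_span_singleton'.1 hc
  obtain ⟨u, v, huv⟩ := Ideal.mem_span_pair.1 hgm
  have hg0 : g ≠ 0 := by
    intro h0
    apply h
    rw [h0, mul_zero] at ha' hc'
    exact ⟨ha'.symm, hc'.symm⟩
  refine ⟨g, a', c', u, v, hg0, by rw [← ha', mul_comm], by rw [← hc', mul_comm], ?_⟩
  apply mul_left_cancel₀ hg0
  rw [mul_one]
  calc g * (u * a' + v * c') = u * (a' * g) + v * (c' * g) := by ring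
    _ = g := by rw [ha', hc', huv]

theorem p_nrm : S_nrm := by
  intro R _ _ _ T hT
  obtain ⟨a, ha⟩ : ∃ a : R, T.val 0 0 = 1 + a := ⟨T.val 0 0 - 1, by ring⟩
  have htr : T.val 0 0 + T.val 1 1 = 2 := by
    have h1 : tr T = T.val 0 0 + T.val 1 1 := by
      conv_lhs => rw [eq_mx T]
      exact mx_tr _ _ _ _ _
    rw [← h1]
    exact hT
  have hd : T.val 1 1 = 1 - a := by
    rw [ha] at htr
    linear_combination htr
  have hdet := G.SL_det T
  generalize hb : T.val 0 1 = b at hdet
  generalize hc : T.val 1 0 = c at hdet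
  rw [ha, hd] at hdet
  have hN : a * a + b * c = 0 := by linear_combination -hdet
  have hTe : T = mx (1 + a) b c (1 - a) hdet := G.SL_ext ha hb hc hd
  by_cases h0 : a = 0 ∧ c = 0
  · refine ⟨1, b, ?_⟩
    rw [one_mul, inv_one, mul_one, hTe]
    apply G.SL_ext
    · change 1 + a = 1
      rw [h0.1, add_zero]
    · rfl
    · change c = 0
      exact h0.2
    · change 1 - a = 1
      rw [h0.1, sub_zero]
  · obtain ⟨g, a', c', u, v, hg, h1, h2, h3⟩ := nrm_gcd a c h0
    have hA : u * a' - v * (-c') = 1 := by linear_combination h3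
    have k1 : a * a' + b * c' = 0 := by
      apply mul_left_cancel₀ hg
      rw [mul_zero]
      linear_combination hN - a * h1 - b * h2
    have k2 : c * a' - a * c' = 0 := by
      rw [h1, h2]
      ring
    refine ⟨mx u v (-c') a' hA, b * u * u - 2 * a * u * v - c * v * v, ?_⟩
    rw [hTe, mx_inv, mx_mul, mx_mul]
    apply G.SL_ext
    · change (u * (1 + a) + v * c) * a' + (u * b + v * (1 - a)) * -(-c') = 1
      linear_combination h3 + u * k1 + v * k2
    · change (u * (1 + a) + v * c) * (-v) + (u * b + v * (1 - a)) * u =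
        b * u * u - 2 * a * u * v - c * v * v
      ring
    · change (-c' * (1 + a) + a' * c) * a' + (-c' * b + a' * (1 - a)) * -(-c') = 0
      linear_combination a' * k2 - c' * k1
    · change (-c' * (1 + a) + a' * c) * (-v) + (-c' * b + a' * (1 - a)) * u = 1
      linear_combination h3 - v * k2 - u * k1

end Pool.Agent.F8.PO
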