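import Pool.Agent.Lib.MP_305fdd_al.F8.PO.Stm

/-!
# MP_305fdd_al, project PO, piece par
-/

set_option autoImplicit false

namespace Pool.Agent.F8.PO

open Pool.Agent.MP_305fdd_al Pool.Agent.Lib.MP_305fdd_al Pool.Agent.F2X Pool.Agent.F8
  Pool.Agent.F8.HN Pool.Agent.F8.AB

/-- The matrices which commute with a nonscalar matrix. -/
private theorem par_cen (A X : Matrix (Fin 2) (Fin 2) ℂ)
    (hns : ¬ (A 0 1 = 0 ∧ A 1 0 = 0 ∧ A 0 0 = A 1 1)) (h : A * X = X * A) :
    ∃ x y : ℂ, ∀ i k, X i k = x * (1 : Matrix (Fin 2) (Fin 2) ℂ) i k + y * A i k := by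
  have e00 : (A * X) 0 0 = (X * A) 0 0 := by rw [h]
  have e01 : (A * X) 0 1 = (X * A) 0 1 := by rw [h]
  have e10 : (A * X) 1 0 = (X * A) 1 0 := by rw [h]
  simp only [Matrix.mul_apply, Fin.sum_univ_two] at e00 e01 e10
  have key : ∃ y : ℂ, X 0 1 = y * A 0 1 ∧ X 1 0 = y * A 1 0 ∧ X 0 0 - X 1 1 = y * (A 0 0 - A 1 1) := by
    by_cases h1 : A 0 1 = 0
    · by_cases h2 : A 1 0 = 0
      · have h3 : A 0 0 - A 1 1 ≠ 0 := fun h3 => hns ⟨h1, h2, sub_eq_zero.mp h3⟩
        refine ⟨(X 0 0 - X 1 1) / (A 0 0 - A 1 1), ?_, ?_, ?_⟩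
        · rw [h1] at e01 ⊢
          have : (A 0 0 - A 1 1) * X 0 1 = 0 := by linear_combination e01
          rw [mul_zero]
          exact (mul_eq_zero.mp this).resolve_left h3
        · rw [h2] at e10 ⊢
          have : (A 0 0 - A 1 1) * X 1 0 = 0 := by linear_combination -e10
          rw [mul_zero]
          exact (mul_eq_zero.mp this).resolve_left h3
        · field_simp
      · refine ⟨X 1 0 / A 1 0, ?_, ?_, ?_⟩
        · field_simp
          linear_combination -e00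
        · field_simp
        · field_simp
          linear_combination e10
    · refine ⟨X 0 1 / A 0 1, ?_, ?_, ?_⟩
      · field_simp
      · field_simp
        linear_combination e00
      · field_simp
        linear_combination -e01
  obtain ⟨y, hy1, hy2, hy3⟩ := key
  refine ⟨X 0 0 - y * A 0 0, y, ?_⟩
  intro i k
  fin_cases i <;> fin_cases k
  · simp
  · simpa using hy1
  · simpa using hy2
  · simp
    linear_combination -hy3

/-- The eigenvalue character on the centraliser. -/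
private theorem par_chi (R : Type) [CommRing R] (j : R →+* ℂ) (hj : Function.Injective j) (T : SL2 R)
    (h2 : tr T ≠ 2) (h2' : tr T ≠ -2) :
    ∃ χ : Subgroup.centralizer ({T} : Set (SL2 R)) →* ℂˣ,
      (∀ X, j (tr X.1) = (χ X : ℂ) + ((χ X)⁻¹ : ℂˣ)) ∧ (∀ X, χ X = 1 → X = 1) := by
  obtain ⟨A, hA⟩ : ∃ A : Matrix (Fin 2) (Fin 2) ℂ, A = (SLm j T).val := ⟨_, rfl⟩
  have hdet : A 0 0 * A 1 1 - A 0 1 * A 1 0 = 1 := by
    have := (SLm j T).det_coe
    rw [Matrix.det_fin_two] at this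
    rw [hA]
    exact this
  obtain ⟨t, ht⟩ : ∃ t : ℂ, t = A 0 0 + A 1 1 := ⟨_, rfl⟩
  have ht' : t = j (tr T) := by rw [← tr_map, tr_eq, ht, hA]
  have ht2 : t ≠ 2 := by
    intro h
    apply h2
    apply hj
    rw [← ht', h, map_ofNat]
  have ht2' : t ≠ -2 := by
    intro h
    apply h2'
    apply hj
    rw [← ht', h, map_neg, map_ofNat]
  obtain ⟨s, hs⟩ := IsAlgClosed.exists_pow_nat_eq (t ^ 2 - 4) (n := 2) (by norm_num)
  have hs0 : s ≠ 0 := by
    intro h
    rw [h] at hs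
    have : (t - 2) * (t + 2) = 0 := by linear_combination -hs
    rcases mul_eq_zero.mp this with h | h
    · exact ht2 (sub_eq_zero.mp h)
    · exact ht2' (eq_neg_of_add_eq_zero_left h)
  obtain ⟨lam, hlam⟩ : ∃ lam : ℂ, lam = (t + s) / 2 := ⟨_, rfl⟩
  obtain ⟨lam', hlam'⟩ : ∃ lam' : ℂ, lam' = (t - s) / 2 := ⟨_, rfl⟩
  have hsum : lam + lam' = t := by rw [hlam, hlam']; ring
  have hpr : lam * lam' = 1 := by rw [hlam, hlam']; linear_combination -hs / 4
  have hne : lam - lam' ≠ 0 := by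
    have : lam - lam' = s := by rw [hlam, hlam']; ring
    rw [this]; exact hs0
  have hns : ¬ (A 0 1 = 0 ∧ A 1 0 = 0 ∧ A 0 0 = A 1 1) := by
    rintro ⟨a1, a2, a3⟩
    have : (t - 2) * (t + 2) = 0 := by
      rw [ht]
      rw [a1, a3] at hdet
      rw [a3]
      linear_combination 4 * hdet
    rcases mul_eq_zero.mp this with h | h
    · exact ht2 (sub_eq_zero.mp h)
    · exact ht2' (eq_neg_of_add_eq_zero_left h)
  -- the eigenvector
  obtain ⟨v, hv, hv0, hv1⟩ : ∃ v : Fin 2 → ℂ, v ≠ 0 ∧ A 0 0 * v 0 + A 0 1 * v 1 = lam * v 0 ∧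
      A 1 0 * v 0 + A 1 1 * v 1 = lam * v 1 := by
    have hd : (A - lam • (1 : Matrix (Fin 2) (Fin 2) ℂ)).det = 0 := by
      rw [Matrix.det_fin_two]
      simp
      linear_combination hdet + lam * hsum - hpr + lam * ht
    obtain ⟨v, hv, hAv⟩ := Matrix.exists_mulVec_eq_zero_iff.mpr hd
    refine ⟨v, hv, ?_, ?_⟩
    · have := congrFun hAv 0
      simp [Matrix.mulVec, dotProduct, Fin.sum_univ_two] at this
      linear_combination this
    · have := congrFun hAv 1
      simp [Matrix.mulVec, dotProduct, Fin.sum_univ_two] at this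
      linear_combination this
  obtain ⟨i, hi⟩ : ∃ i, v i ≠ 0 := by
    by_contra h
    push Not at h
    exact hv (funext h)
  -- elements of the centraliser
  have hX : ∀ X : Subgroup.centralizer ({T} : Set (SL2 R)), ∃ x y : ℂ,
      ∀ i k, (SLm j X.1).val i k = x * (1 : Matrix (Fin 2) (Fin 2) ℂ) i k + y * A i k := by
    intro X
    apply par_cen A _ hns
    have h1 := X.2
    rw [Subgroup.mem_centralizer_singleton_iff] at h1
    have h2 : SLm j T * SLm j X.1 = SLm j X.1 * SLm j T := by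
      rw [← map_mul, ← map_mul, h1]
    rw [hA]
    exact congrArg Subtype.val h2
  have hent : ∀ X : Subgroup.centralizer ({T} : Set (SL2 R)), ∀ x y : ℂ,
      (∀ i k, (SLm j X.1).val i k = x * (1 : Matrix (Fin 2) (Fin 2) ℂ) i k + y * A i k) →
      ∀ k, (SLm j X.1).val k 0 * v 0 + (SLm j X.1).val k 1 * v 1 = (x + y * lam) * v k := by
    intro X x y h
    refine Fin.forall_fin_two.mpr ⟨?_, ?_⟩
    · rw [h, h]
      simp
      linear_combination y * hv0
    · rw [h, h]
      simp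
      linear_combination y * hv1
  obtain ⟨c, hc⟩ : ∃ c : Subgroup.centralizer ({T} : Set (SL2 R)) → ℂ, ∀ X,
      c X = ((SLm j X.1).val i 0 * v 0 + (SLm j X.1).val i 1 * v 1) / v i := ⟨_, fun _ => rfl⟩
  have hcx : ∀ X : Subgroup.centralizer ({T} : Set (SL2 R)), ∀ x y : ℂ,
      (∀ i k, (SLm j X.1).val i k = x * (1 : Matrix (Fin 2) (Fin 2) ℂ) i k + y * A i k) →
      c X = x + y * lam := by
    intro X x y h
    rw [hc, hent X x y h i]
    field_simp
  have hP : ∀ X : Subgroup.centralizer ({T} : Set (SL2 R)), ∀ k,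
      (SLm j X.1).val k 0 * v 0 + (SLm j X.1).val k 1 * v 1 = c X * v k := by
    intro X k
    obtain ⟨x, y, h⟩ := hX X
    rw [hcx X x y h, hent X x y h k]
  have hmul : ∀ X Y : Subgroup.centralizer ({T} : Set (SL2 R)), c (X * Y) = c X * c Y := by
    intro X Y
    have h1 := hP (X * Y) i
    have h2 : ∀ k l, (SLm j (X * Y).1).val k l =
        (SLm j X.1).val k 0 * (SLm j Y.1).val 0 l + (SLm j X.1).val k 1 * (SLm j Y.1).val 1 l := by
      intro k l
      have h3 : SLm j (X * Y).1 = SLm j X.1 * SLm j Y.1 := by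
        rw [← map_mul]; rfl
      rw [h3, Matrix.SpecialLinearGroup.coe_mul, Matrix.mul_apply, Fin.sum_univ_two]
    rw [h2, h2] at h1
    have h3 := hP X i
    have h4 := hP Y 0
    have h5 := hP Y 1
    have h6 : c (X * Y) * v i = (c X * c Y) * v i := by
      linear_combination -h1 + (SLm j X.1).val i 0 * h4 + (SLm j X.1).val i 1 * h5 + c Y * h3
    exact mul_right_cancel₀ hi h6
  have hone : c 1 = 1 := by
    have h1 := hcx 1 1 0 (by
      intro i k
      have : SLm j (1 : Subgroup.centralizer ({T} : Set (SL2 R))).1 = 1 := by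
        rw [Subgroup.coe_one, map_one]
      rw [this]
      simp)
    rw [h1]; ring
  let χ0 : Subgroup.centralizer ({T} : Set (SL2 R)) →* ℂ :=
    { toFun := c, map_one' := hone, map_mul' := hmul }
  have hχ : ∀ X, ((χ0.toHomUnits X : ℂˣ) : ℂ) = c X := fun X => rfl
  have hinv : ∀ X : Subgroup.centralizer ({T} : Set (SL2 R)), ∀ x y : ℂ,
      (∀ i k, (SLm j X.1).val i k = x * (1 : Matrix (Fin 2) (Fin 2) ℂ) i k + y * A i k) →
      c X * (x + y * lam') = 1 := by
    intro X x y h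
    rw [hcx X x y h]
    have h1 := (SLm j X.1).det_coe
    rw [Matrix.det_fin_two, h, h, h, h] at h1
    simp at h1
    linear_combination h1 + x * y * hsum + y ^ 2 * hpr + x * y * ht - y ^ 2 * hdet
  refine ⟨χ0.toHomUnits, ?_, ?_⟩
  · intro X
    obtain ⟨x, y, h⟩ := hX X
    have h1 := hinv X x y h
    have h2 : (((χ0.toHomUnits X)⁻¹ : ℂˣ) : ℂ) = x + y * lam' := by
      rw [Units.val_inv_eq_inv_val, hχ]
      exact inv_eq_of_mul_eq_one_right h1
    rw [h2, hχ, hcx X x y h, ← tr_map, tr_eq, h, h]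
    simp
    linear_combination y * (-ht) - y * hsum
  · intro X hX1
    obtain ⟨x, y, h⟩ := hX X
    have h1 := hinv X x y h
    have h3 : c X = 1 := by rw [← hχ, hX1, Units.val_one]
    have h4 := hcx X x y h
    rw [h3] at h1 h4
    have h5 : y * (lam - lam') = 0 := by linear_combination -h4 - h1
    have h6 : y = 0 := (mul_eq_zero.mp h5).resolve_right hne
    have h7 : x = 1 := by rw [h6] at h4; linear_combination -h4
    apply Subtype.ext
    apply Matrix.SpecialLinearGroup.ext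
    intro a b
    apply hj
    have h8 := h a b
    rw [h6, h7] at h8
    have h9 : (SLm j X.1).val a b = j (X.1.val a b) := rfl
    rw [h9] at h8
    have h10 : j (((1 : Subgroup.centralizer ({T} : Set (SL2 R))).1 : SL2 R).val a b) =
        (1 : Matrix (Fin 2) (Fin 2) ℂ) a b := by
      rw [Subgroup.coe_one, Matrix.SpecialLinearGroup.coe_one]
      fin_cases a <;> fin_cases b <;> simp
    refine Eq.trans ?_ h10.symm
    refine h8.trans ?_
    ring

/-- Integer points near a line. -/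
private theorem par_line (a b : ℝ) : ∃ f : ℤ → ℤ × ℤ, Function.Injective f ∧
    ∀ k, |a * (f k).1 + b * (f k).2| ≤ |b| := by
  by_cases hb : b = 0
  · refine ⟨fun k => (0, k), fun x y h => (Prod.mk.inj h).2, ?_⟩
    intro k
    rw [hb]
    simp
  · refine ⟨fun k => (k, -⌊a * k / b⌋), fun x y h => (Prod.mk.inj h).1, ?_⟩
    intro k
    have h1 : a * ((k : ℤ) : ℝ) + b * ((-⌊a * k / b⌋ : ℤ) : ℝ) = b * Int.fract (a * k / b) := by
      rw [← Int.self_sub_floor]
      push_cast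
      field_simp
      ring
    show |a * ((k : ℤ) : ℝ) + b * ((-⌊a * k / b⌋ : ℤ) : ℝ)| ≤ |b|
    rw [h1, abs_mul, abs_of_nonneg (a := Int.fract (a * k / b)) (Int.fract_nonneg _)]
    have := (Int.fract_lt_one (a * k / b)).le
    nlinarith [abs_nonneg b]

private theorem par_root (c : ℂ) : {z : ℂ | z ^ 2 - c * z + 1 = 0}.Finite := by
  rcases Set.eq_empty_or_nonempty {z : ℂ | z ^ 2 - c * z + 1 = 0} with h | ⟨z0, h0⟩
  · rw [h]; exact Set.finite_empty
  · apply Set.Finite.subset (Set.toFinite ({z0, c - z0} : Set ℂ))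
    intro z hz
    have h0 : z0 ^ 2 - c * z0 + 1 = 0 := h0
    have hz : z ^ 2 - c * z + 1 = 0 := hz
    have : (z - z0) * (z - (c - z0)) = 0 := by linear_combination hz - h0
    rcases mul_eq_zero.mp this with h | h
    · left; exact sub_eq_zero.mp h
    · right; exact sub_eq_zero.mp h

theorem p_par : S_par := by
  intro R _ j hj hfin T U hTU hfree
  by_contra hcon
  push Not at hcon
  obtain ⟨χ, hχ1, hχ2⟩ := par_chi R j hj T hcon.1 hcon.2
  obtain ⟨T', hT'⟩ : ∃ T' : Subgroup.centralizer ({T} : Set (SL2 R)), T'.1 = T :=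
    ⟨⟨T, Subgroup.mem_centralizer_singleton_iff.mpr rfl⟩, rfl⟩
  obtain ⟨U', hU'⟩ : ∃ U' : Subgroup.centralizer ({T} : Set (SL2 R)), U'.1 = U :=
    ⟨⟨U, Subgroup.mem_centralizer_singleton_iff.mpr hTU.symm⟩, rfl⟩
  have hcomm : Commute T' U' := by
    apply Subtype.ext
    rw [Subgroup.coe_mul, Subgroup.coe_mul, hT', hU', hTU]
  obtain ⟨a, ha⟩ : ∃ a : ℝ, a = Real.log ‖((χ T' : ℂˣ) : ℂ)‖ := ⟨_, rfl⟩
  obtain ⟨b, hb⟩ : ∃ b : ℝ, b = Real.log ‖((χ U' : ℂˣ) : ℂ)‖ := ⟨_, rfl⟩
  have hea : ‖((χ T' : ℂˣ) : ℂ)‖ = Real.exp a := by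
    rw [ha, Real.exp_log (norm_pos_iff.mpr (Units.ne_zero _))]
  have heb : ‖((χ U' : ℂˣ) : ℂ)‖ = Real.exp b := by
    rw [hb, Real.exp_log (norm_pos_iff.mpr (Units.ne_zero _))]
  obtain ⟨f, hfinj, hfb⟩ := par_line a b
  obtain ⟨g, hg⟩ : ∃ g : ℤ → Subgroup.centralizer ({T} : Set (SL2 R)),
      ∀ k, g k = T' ^ (f k).1 * U' ^ (f k).2 := ⟨_, fun _ => rfl⟩
  have hginj : Function.Injective g := by
    intro k k' h
    rw [hg, hg] at h
    have h1 : T' ^ ((f k).1 - (f k').1) * U' ^ ((f k).2 - (f k').2) = 1 := by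
      have h2 : T' ^ ((f k).1 - (f k').1) * U' ^ ((f k).2 - (f k').2) =
          (T' ^ (f k').1)⁻¹ * (T' ^ (f k).1 * U' ^ (f k).2) * (U' ^ (f k').2)⁻¹ := by
        rw [sub_eq_neg_add, zpow_add, zpow_neg, zpow_sub]
        group
      rw [h2, h]
      group
    have h3 := congrArg Subtype.val h1
    rw [Subgroup.coe_mul, Subgroup.coe_zpow, Subgroup.coe_zpow, hT', hU', Subgroup.coe_one] at h3
    have h4 := hfree _ _ h3
    apply hfinj
    apply Prod.ext
    · linarith [h4.1]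
    · linarith [h4.2]
  have hinj : Function.Injective (fun k => ((χ (g k) : ℂˣ) : ℂ)) := by
    intro k k' h
    have h1 : χ (g k) = χ (g k') := Units.ext h
    apply hginj
    have h2 : χ (g k * (g k')⁻¹) = 1 := by rw [map_mul, map_inv, h1, mul_inv_cancel]
    exact mul_inv_eq_one.mp (hχ2 _ h2)
  have hnorm : ∀ k, ‖((χ (g k) : ℂˣ) : ℂ)‖ = Real.exp (a * (f k).1 + b * (f k).2) := by
    intro k
    rw [hg, map_mul, map_zpow, map_zpow, Units.val_mul, Units.val_zpow_eq_zpow_val,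
      Units.val_zpow_eq_zpow_val, norm_mul, norm_zpow, norm_zpow, hea, heb, Real.exp_add,
      Real.exp_mul, Real.exp_mul, Real.rpow_intCast, Real.rpow_intCast]
  have hmem : ∀ k, tr (g k).1 ∈ {z : R | ‖j z‖ ≤ 2 * Real.exp |b|} := by
    intro k
    show ‖j (tr (g k).1)‖ ≤ 2 * Real.exp |b|
    rw [hχ1]
    refine (norm_add_le _ _).trans ?_
    rw [Units.val_inv_eq_inv_val, norm_inv, hnorm, ← Real.exp_neg]
    have h1 := hfb k
    rw [abs_le] at h1
    have h2 : Real.exp (a * (f k).1 + b * (f k).2) ≤ Real.exp |b| := Real.exp_le_exp.mpr h1.2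
    have h3 : Real.exp (-(a * (f k).1 + b * (f k).2)) ≤ Real.exp |b| :=
      Real.exp_le_exp.mpr (by linarith [h1.1])
    linarith
  have hZ : (⋃ z ∈ {z : R | ‖j z‖ ≤ 2 * Real.exp |b|}, {w : ℂ | w ^ 2 - j z * w + 1 = 0}).Finite :=
    (hfin _).biUnion (fun z _ => par_root (j z))
  apply Set.infinite_range_of_injective hinj
  apply hZ.subset
  rintro _ ⟨k, rfl⟩
  rw [Set.mem_iUnion₂]
  refine ⟨tr (g k).1, hmem k, ?_⟩
  show ((χ (g k) : ℂˣ) : ℂ) ^ 2 - j (tr (g k).1) * ((χ (g k) : ℂˣ) : ℂ) + 1 = 0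
  rw [hχ1, add_mul, Units.inv_mul]
  ring

end Pool.Agent.F8.PO
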