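import Pool.Agent.Lib.MP_305fdd_al.F8.PO.MainOf
import Pool.Agent.Lib.MP_305fdd_al.F8.PO.P_par
import Pool.Agent.Lib.MP_305fdd_al.F8.PO.P_emb
import Pool.Agent.Lib.MP_305fdd_al.F8.PO.P_nrm
import Pool.Agent.Lib.MP_305fdd_al.F8.PO.P_aut7
import Pool.Agent.Lib.MP_305fdd_al.F8.PO.P_fx7

/-!
# MP_305fdd_al, project PO: the groups which contain `PSL₂(O7)`
-/

set_option autoImplicit false

namespace Pool.Agent.F8.PO

theorem m_par : S_par := p_par
theorem m_emb : S_emb := p_emb
theorem m_nrm : S_nrm := p_nrm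
theorem m_aut7 : S_aut7 := p_aut7 m_par m_emb m_nrm
theorem m_fx7 : S_fx7 := p_fx7

/-- If `PSL₂(O7)` is profinitely rigid then so is every group without nontrivial finite normal subgroups which contains it as a
normal subgroup of finite index. -/
theorem over7 : S_over7 := over7_of m_aut7 m_fx7

end Pool.Agent.F8.PO
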