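import Pool.Agent.Lib.MP_305fdd_al.F8.PO.Stm

/-!
# MP_305fdd_al, project PO: piece aut1, the automorphisms of `PSL₂(ℤ[i])`
-/

set_option autoImplicit false

namespace Pool.Agent.F8.PO

open Pool.Agent.MP_305fdd_al Pool.Agent.Lib.MP_305fdd_al Pool.Agent.F2X Pool.Agent.F8
  Pool.Agent.F8.HN Pool.Agent.F8.AB
open Pool.Agent.F8.D1 (O1)
open Pool.Agent.F8.D7 (O7)
open scoped QuadraticAlgebra

noncomputable section

section mat

variable {R : Type} [CommRing R] [IsDomain R]

private theorem aut1_scalar (x : SL2 R) (b0 : x.val 0 1 = 0) (c0 : x.val 1 0 = 0)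
    (ad : x.val 0 0 = x.val 1 1) : x = 1 ∨ x = -1 := by
  have hdet := G.SL_det x
  rw [b0, c0, ← ad] at hdet
  have h1 : (x.val 0 0 - 1) * (x.val 0 0 + 1) = 0 := by linear_combination hdet
  rcases mul_eq_zero.1 h1 with h | h
  · left
    have h' : x.val 0 0 = 1 := by linear_combination h
    apply G.SL_ext
    · exact h'
    · exact b0
    · exact c0
    · rw [← ad]; exact h'
  · right
    have h' : x.val 0 0 = -1 := by linear_combination h
    apply G.SL_ext
    · exact h'
    · rw [b0]; exact neg_zero.symm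
    · rw [c0]; exact neg_zero.symm
    · rw [← ad]; exact h'

/-- an element whose square is `± 1` is `± 1` or has trace zero -/
private theorem aut1_sq (x : SL2 R) (hx : x * x = 1 ∨ x * x = -1) :
    (x = 1 ∨ x = -1) ∨ tr x = 0 := by
  by_cases ht : tr x = 0
  · exact Or.inr ht
  left
  rw [tr_eq] at ht
  have key : ∃ s : R, (x * x).val 0 1 = 0 ∧ (x * x).val 1 0 = 0 ∧ (x * x).val 0 0 = s ∧
      (x * x).val 1 1 = s := by
    rcases hx with h | h
    · rw [h]; exact ⟨1, rfl, rfl, rfl, rfl⟩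
    · rw [h]; exact ⟨-1, neg_zero, neg_zero, rfl, rfl⟩
  obtain ⟨s, k01, k10, k00, k11⟩ := key
  rw [G.SL_mul] at k01 k10 k00 k11
  have b0 : x.val 0 1 = 0 := by
    have : x.val 0 1 * (x.val 0 0 + x.val 1 1) = 0 := by linear_combination k01
    exact (mul_eq_zero.1 this).resolve_right ht
  have c0 : x.val 1 0 = 0 := by
    have : x.val 1 0 * (x.val 0 0 + x.val 1 1) = 0 := by linear_combination k10
    exact (mul_eq_zero.1 this).resolve_right ht
  have ad : x.val 0 0 = x.val 1 1 := by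
    have : (x.val 0 0 - x.val 1 1) * (x.val 0 0 + x.val 1 1) = 0 := by
      linear_combination k00 - k11
    exact sub_eq_zero.1 ((mul_eq_zero.1 this).resolve_right ht)
  exact aut1_scalar x b0 c0 ad

/-- an element whose cube is `± 1` is `± 1` or has trace `± 1` -/
private theorem aut1_cube (x : SL2 R) (hx : x * x * x = 1 ∨ x * x * x = -1) :
    (x = 1 ∨ x = -1) ∨ tr x * tr x = 1 := by
  by_cases ht : tr x * tr x = 1
  · exact Or.inr ht
  left
  rw [tr_eq] at ht
  have ht' : (x.val 0 0 + x.val 1 1) * (x.val 0 0 + x.val 1 1) - 1 ≠ 0 := sub_ne_zero.2 ht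
  have key : ∃ s : R, (x * x * x).val 0 1 = 0 ∧ (x * x * x).val 1 0 = 0 ∧
      (x * x * x).val 0 0 = s ∧ (x * x * x).val 1 1 = s := by
    rcases hx with h | h
    · rw [h]; exact ⟨1, rfl, rfl, rfl, rfl⟩
    · rw [h]; exact ⟨-1, neg_zero, neg_zero, rfl, rfl⟩
  obtain ⟨s, k01, k10, k00, k11⟩ := key
  simp only [G.SL_mul] at k01 k10 k00 k11
  have hdet := G.SL_det x
  have b0 : x.val 0 1 = 0 := by
    have : x.val 0 1 * ((x.val 0 0 + x.val 1 1) * (x.val 0 0 + x.val 1 1) - 1) = 0 := by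
      linear_combination k01 + x.val 0 1 * hdet
    exact (mul_eq_zero.1 this).resolve_right ht'
  have c0 : x.val 1 0 = 0 := by
    have : x.val 1 0 * ((x.val 0 0 + x.val 1 1) * (x.val 0 0 + x.val 1 1) - 1) = 0 := by
      linear_combination k10 + x.val 1 0 * hdet
    exact (mul_eq_zero.1 this).resolve_right ht'
  have ad : x.val 0 0 = x.val 1 1 := by
    have : (x.val 0 0 - x.val 1 1) *
        ((x.val 0 0 + x.val 1 1) * (x.val 0 0 + x.val 1 1) - 1) = 0 := by
      linear_combination k00 - k11 + (x.val 0 0 - x.val 1 1) * hdet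
    exact sub_eq_zero.1 ((mul_eq_zero.1 this).resolve_right ht')
  exact aut1_scalar x b0 c0 ad

/-- the centraliser of `mU x` -/
private theorem aut1_cent (x : R) (hx : x ≠ 0) (u : SL2 R) (h : mU x * u = u * mU x) :
    ∃ y, u = mU y ∨ u = -mU y := by
  have h00 := congrArg (fun g : SL2 R => g.val 0 0) h
  have h01 := congrArg (fun g : SL2 R => g.val 0 1) h
  simp only [G.SL_mul, G.mU00, G.mU01, G.mU10, G.mU11] at h00 h01
  have c0 : u.val 1 0 = 0 := by
    have : x * u.val 1 0 = 0 := by linear_combination h00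
    exact (mul_eq_zero.1 this).resolve_left hx
  have ad : u.val 0 0 = u.val 1 1 := by
    have : x * (u.val 0 0 - u.val 1 1) = 0 := by linear_combination -h01
    exact sub_eq_zero.1 ((mul_eq_zero.1 this).resolve_left hx)
  have hdet := G.SL_det u
  rw [c0, ← ad] at hdet
  have h1 : (u.val 0 0 - 1) * (u.val 0 0 + 1) = 0 := by linear_combination hdet
  rcases mul_eq_zero.1 h1 with h | h
  · have h' : u.val 0 0 = 1 := by linear_combination h
    refine ⟨u.val 0 1, Or.inl ?_⟩
    apply G.SL_ext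
    · exact h'
    · rfl
    · exact c0
    · rw [← ad]; exact h'
  · have h' : u.val 0 0 = -1 := by linear_combination h
    refine ⟨-u.val 0 1, Or.inr ?_⟩
    apply G.SL_ext
    · exact h'
    · exact (neg_neg _).symm
    · rw [c0]; exact neg_zero.symm
    · rw [← ad]; exact h'

omit [IsDomain R] in
private theorem aut1_trc (x a : SL2 R) : tr (a * x * a⁻¹) = tr x := by
  unfold tr
  rw [Matrix.SpecialLinearGroup.coe_mul, Matrix.trace_mul_comm, ← Matrix.SpecialLinearGroup.coe_mul,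
    inv_mul_cancel_left]

end mat


open Pool.Agent.F8.D1.PG (mL)

/-- the conclusion for a homomorphism -/
private def aut1_Q (ψ : SL2 O1 →* M1) : Prop :=
  ∃ (d e : Bool) (m : SL2 O1), ∀ x, ψ x = pj O1 (m * st1 d e x * m⁻¹)

private theorem aut1_conj (ψ : SL2 O1 →* M1) (A : SL2 O1)
    (h : aut1_Q (((MulAut.conj (pj O1 A)).toMonoidHom).comp ψ)) : aut1_Q ψ := by
  obtain ⟨d, e, m, hm⟩ := h
  refine ⟨d, e, A⁻¹ * m, fun x => ?_⟩
  have h1 : pj O1 A * ψ x * (pj O1 A)⁻¹ = pj O1 (m * st1 d e x * m⁻¹) := hm x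
  have h2 : ψ x = (pj O1 A)⁻¹ * pj O1 (m * st1 d e x * m⁻¹) * pj O1 A := by
    rw [← h1]; group
  rw [h2, ← map_inv, ← map_mul, ← map_mul]
  congr 1
  group

/-- `mU x ^ n = mU (n x)` -/
private theorem aut1_pow (x : O1) (n : ℤ) : mU x ^ n = mU ((n : O1) * x) := by
  induction n using Int.induction_on with
  | zero => rw [Int.cast_zero, zero_mul, G.mU_zero, zpow_zero]
  | succ i ih =>
    rw [zpow_add_one, ih, ← G.mU_add]
    congr 1
    push_cast; ring
  | pred i ih =>
    rw [zpow_sub_one, ih, mul_inv_eq_iff_eq_mul, ← G.mU_add]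
    congr 1
    push_cast; ring

private theorem aut1_two : (2 : O1) ≠ 0 := by
  intro h
  have := congrArg QuadraticAlgebra.re h
  revert this
  decide

private theorem aut1_unit {a b : O1} (h : a * b * (a * b) = 1) :
    a = 1 ∨ a = -1 ∨ a = ⟨0, 1⟩ ∨ a = -⟨0, 1⟩ := by
  have hu : a * (b * (a * b)) = 1 := by rw [← h]; ring
  apply D1.PG.unit_cases
  have h1 : D1.PG.nm a * D1.PG.nm (b * (a * b)) = 1 := by
    rw [← D1.PG.nm_mul, hu, D1.PG.nm_one]
  have h2 := D1.PG.nm_nonneg a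
  exact Int.eq_one_of_mul_eq_one_right h2 h1

/-- the last step -/
private theorem aut1_end (ψ : SL2 O1 →* M1) (d e : Bool)
    (hT : ψ (mU 1) = pj O1 (st1 d e (mU 1))) (hU : ψ (mU ⟨0, 1⟩) = pj O1 (st1 d e (mU ⟨0, 1⟩)))
    (hB : ψ (mB O1) = pj O1 (st1 d e (mB O1))) (hL : ψ mL = pj O1 (st1 d e mL)) : aut1_Q ψ := by
  refine ⟨d, e, 1, fun x => ?_⟩
  rw [one_mul, inv_one, mul_one]
  exact D1.PG.SL_sub (MonoidHom.eqLocus ψ ((pj O1).comp (st1 d e))) hT hU hB hL x

/-- homomorphisms with kernel `± 1` -/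
private structure aut1_G (ψ : SL2 O1 →* M1) : Prop where
  neg : ψ (-1) = 1
  ker : ∀ g, ψ g = 1 → g = 1 ∨ g = -1

private theorem aut1_pm {g : SL2 O1} (h : g = 1 ∨ g = -1) : pj O1 g = 1 := by
  rcases h with rfl | rfl
  · exact map_one _
  · rw [pj_neg, map_one]

private theorem aut1_G.cj {ψ : SL2 O1 →* M1} (hψ : aut1_G ψ) (A : SL2 O1) :
    aut1_G (((MulAut.conj (pj O1 A)).toMonoidHom).comp ψ) := by
  constructor
  · show pj O1 A * ψ (-1) * (pj O1 A)⁻¹ = 1
    rw [hψ.neg, mul_one, mul_inv_cancel]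
  · intro g hg
    have h1 : pj O1 A * ψ g * (pj O1 A)⁻¹ = 1 := hg
    apply hψ.ker
    have h2 : ψ g = (pj O1 A)⁻¹ * (pj O1 A * ψ g * (pj O1 A)⁻¹) * pj O1 A := by group
    rw [h2, h1]; group

private theorem aut1_cjv (ψ : SL2 O1 →* M1) (A g G : SL2 O1) (h : ψ g = pj O1 G) :
    (((MulAut.conj (pj O1 A)).toMonoidHom).comp ψ) g = pj O1 (A * G * A⁻¹) := by
  show pj O1 A * ψ g * (pj O1 A)⁻¹ = _
  rw [h, map_mul, map_mul, map_inv]

private theorem aut1_inv (y : O1) : (mU y)⁻¹ = mU (-y) := by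
  rw [inv_eq_iff_mul_eq_one, ← G.mU_add, add_neg_cancel, G.mU_zero]

/-- the normal form -/
private theorem aut1_fin (ψ : SL2 O1 →* M1) (x y : O1) (B : SL2 O1)
    (hx : x = 1 ∨ x = ⟨0, 1⟩) (hy : y = x * ⟨0, 1⟩ ∨ y = -(x * ⟨0, 1⟩))
    (hT : ψ (mU 1) = pj O1 (mU x)) (hU : ψ (mU ⟨0, 1⟩) = pj O1 (mU y))
    (hB : ψ (mB O1) = pj O1 B) (hB0 : B.val 0 0 = 0) (hB3 : B.val 1 1 = 0)
    (hxb : x * B.val 1 0 = 1 ∨ x * B.val 1 0 = -1) (hb : B.val 0 1 * B.val 1 0 = -1)
    (hL : ψ mL = pj O1 mL) : aut1_Q ψ := by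
  have hii : (⟨0, 1⟩ : O1) * ⟨0, 1⟩ = -1 := by decide
  have hneg : ∀ (C : SL2 O1), (B = C ∨ B = -C) → ψ (mB O1) = pj O1 C := by
    intro C hC
    rcases hC with h | h
    · rw [hB, h]
    · rw [hB, h, pj_neg]
  -- the entries of `B` for `x = 1`
  rcases hx with rfl | rfl
  · have hBB : B = mB O1 ∨ B = -mB O1 := by
      rcases hxb with h | h
      · left
        rw [one_mul] at h
        rw [h, mul_one] at hb
        apply G.SL_ext
        · exact hB0
        · exact hb
        · exact h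
        · exact hB3
      · right
        rw [one_mul] at h
        rw [h, mul_neg, mul_one, neg_inj] at hb
        apply G.SL_ext
        · rw [G.SL_neg, hB0]; exact neg_zero.symm
        · rw [G.SL_neg, hb]; exact (neg_neg (1 : O1)).symm
        · rw [G.SL_neg, h]; rfl
        · rw [G.SL_neg, hB3]; exact neg_zero.symm
    rcases hy with rfl | rfl
    · refine aut1_end ψ false false hT ?_ (hneg _ hBB) hL
      rw [hU, one_mul]
      rfl
    · refine aut1_end ψ false true ?_ ?_ ?_ ?_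
      · rw [hT]
        congr 1
        apply G.SL_ext <;> decide
      · rw [hU]
        congr 1
        apply G.SL_ext <;> decide
      · rw [hneg _ hBB]
        congr 1
        apply G.SL_ext <;> decide
      · rw [hL, ← pj_neg]
        congr 1
        apply G.SL_ext <;> decide
  · have hb1 : B.val 1 0 = ⟨0, -1⟩ ∨ B.val 1 0 = ⟨0, 1⟩ := by
      have e1 : (⟨0, -1⟩ : O1) = -⟨0, 1⟩ := by decide
      rcases hxb with h | h
      · left
        rw [e1]
        linear_combination (-⟨0, 1⟩ : O1) * h + B.val 1 0 * hii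
      · right
        linear_combination (-⟨0, 1⟩ : O1) * h + B.val 1 0 * hii
    have hBB : B = de1 (mB O1) ∨ B = -de1 (mB O1) := by
      have d00 : (de1 (mB O1)).val 0 0 = 0 := rfl
      have d01 : (de1 (mB O1)).val 0 1 = ⟨0, -1⟩ := by decide
      have d10 : (de1 (mB O1)).val 1 0 = ⟨0, -1⟩ := by decide
      have d11 : (de1 (mB O1)).val 1 1 = 0 := rfl
      have e1 : (⟨0, -1⟩ : O1) = -⟨0, 1⟩ := by decide
      rcases hb1 with h | h
      · left
        have h01 : B.val 0 1 = ⟨0, -1⟩ := by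
          rw [h, e1] at hb
          rw [e1]
          linear_combination (⟨0, 1⟩ : O1) * hb + B.val 0 1 * hii
        apply G.SL_ext
        · rw [hB0, d00]
        · rw [h01, d01]
        · rw [h, d10]
        · rw [hB3, d11]
      · right
        have h01 : B.val 0 1 = ⟨0, 1⟩ := by
          rw [h] at hb
          linear_combination (-⟨0, 1⟩ : O1) * hb + B.val 0 1 * hii
        apply G.SL_ext
        · rw [G.SL_neg, hB0, d00, neg_zero]
        · rw [G.SL_neg, h01, d01, e1, neg_neg]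
        · rw [G.SL_neg, h, d10, e1, neg_neg]
        · rw [G.SL_neg, hB3, d11, neg_zero]
    rcases hy with rfl | rfl
    · refine aut1_end ψ true false ?_ ?_ ?_ ?_
      · rw [hT]
        congr 1
      · rw [hU]
        congr 1
      · exact hneg _ hBB
      · rw [hL]
        congr 1
    · refine aut1_end ψ true true ?_ ?_ ?_ ?_
      · rw [hT]
        congr 1
      · rw [hU]
        congr 1
      · rw [hneg _ hBB]
        congr 1
      · rw [hL, ← pj_neg]
        congr 1
        apply G.SL_ext <;> decide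

/-- the values of `x` and `y` -/
private theorem aut1_n2 (ψ : SL2 O1 →* M1) (hψ : aut1_G ψ) (x y : O1) (B : SL2 O1)
    (hT : ψ (mU 1) = pj O1 (mU x)) (hU : ψ (mU ⟨0, 1⟩) = pj O1 (mU y))
    (hB : ψ (mB O1) = pj O1 B) (hB0 : B.val 0 0 = 0) (hB3 : B.val 1 1 = 0)
    (hxb : x * B.val 1 0 * (x * B.val 1 0) = 1) (hb : B.val 0 1 * B.val 1 0 = -1)
    (hL : ψ mL = pj O1 mL) : aut1_Q ψ := by
  have hii : (⟨0, 1⟩ : O1) * ⟨0, 1⟩ = -1 := by decide
  have himi : (⟨0, -1⟩ : O1) = -⟨0, 1⟩ := by decide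
  have hC : ψ (mU ⟨0, 1⟩ * mL * mB O1) = pj O1 (mU y * mL * B) := by
    rw [map_mul, map_mul, hU, hL, hB, map_mul, map_mul]
  have hC3 : mU (⟨0, 1⟩ : O1) * mL * mB O1 * (mU ⟨0, 1⟩ * mL * mB O1) *
      (mU ⟨0, 1⟩ * mL * mB O1) = -1 := by
    apply G.SL_ext <;> simp only [G.SL_mul] <;> decide
  have hC1 : ¬ (mU y * mL * B = 1 ∨ mU y * mL * B = -1) := by
    intro h
    rw [aut1_pm h] at hC
    rcases hψ.ker _ hC with h1 | h1
    · have h2 := congrArg (fun g : SL2 O1 => g.val 1 0) h1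
      simp only [G.SL_mul] at h2
      revert h2
      decide
    · have h2 := congrArg (fun g : SL2 O1 => g.val 1 0) h1
      simp only [G.SL_mul] at h2
      revert h2
      decide
  have hC3' : mU y * mL * B * (mU y * mL * B) * (mU y * mL * B) = 1 ∨
      mU y * mL * B * (mU y * mL * B) * (mU y * mL * B) = -1 := by
    apply pj_eq_one
    rw [map_mul, map_mul _ (mU y * mL * B) (mU y * mL * B), ← hC, ← map_mul, ← map_mul, hC3,
      hψ.neg]
  have htC := (aut1_cube _ hC3').resolve_left hC1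
  rw [tr_eq] at htC
  simp only [G.SL_mul, G.mU00, G.mU01, G.mU10, G.mU11, D1.PG.mL00, D1.PG.mL01, D1.PG.mL10,
    D1.PG.mL11, hB0, hB3, himi] at htC
  have hy2 : (y - x * ⟨0, 1⟩) * (y + x * ⟨0, 1⟩) = 0 := by
    have h1 : y * B.val 1 0 * (y * B.val 1 0) = -1 := by
      linear_combination -htC + (y * B.val 1 0 * (y * B.val 1 0)) * hii
    linear_combination (x * x) * h1 - (y * y) * hxb - (x * x) * hii
  have hy : y = x * ⟨0, 1⟩ ∨ y = -(x * ⟨0, 1⟩) := by
    rcases mul_eq_zero.1 hy2 with h | h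
    · left
      linear_combination h
    · right
      linear_combination h
  have hxb' : x * B.val 1 0 = 1 ∨ x * B.val 1 0 = -1 := by
    have h1 : (x * B.val 1 0 - 1) * (x * B.val 1 0 + 1) = 0 := by linear_combination hxb
    rcases mul_eq_zero.1 h1 with h | h
    · left
      linear_combination h
    · right
      linear_combination h
  -- the conjugation with `mL`
  have hinv : mL⁻¹ = (-mL : SL2 O1) := by
    rw [inv_eq_iff_mul_eq_one]
    apply G.SL_ext <;> simp only [G.SL_mul, G.SL_neg] <;> decide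
  have hred : ∀ x' y' : O1, x = -x' → y = -y' → (x' = 1 ∨ x' = ⟨0, 1⟩) → aut1_Q ψ := by
    intro x' y' hx' hy' h1
    apply aut1_conj ψ mL
    have hcU : ∀ z : O1, mL * mU (-z) * mL⁻¹ = mU z := by
      intro z
      rw [hinv]
      apply G.SL_ext
      · simp only [G.SL_mul, G.SL_neg, G.mU00, G.mU01, G.mU10, G.mU11, D1.PG.mL00, D1.PG.mL01,
          D1.PG.mL10, D1.PG.mL11, himi]
        linear_combination -hii
      · simp only [G.SL_mul, G.SL_neg, G.mU00, G.mU01, G.mU10, G.mU11, D1.PG.mL00, D1.PG.mL01,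
          D1.PG.mL10, D1.PG.mL11, himi]
        linear_combination -z * hii
      · simp only [G.SL_mul, G.SL_neg, G.mU00, G.mU01, G.mU10, G.mU11, D1.PG.mL00, D1.PG.mL01,
          D1.PG.mL10, D1.PG.mL11, himi]
        ring
      · simp only [G.SL_mul, G.SL_neg, G.mU00, G.mU01, G.mU10, G.mU11, D1.PG.mL00, D1.PG.mL01,
          D1.PG.mL10, D1.PG.mL11, himi]
        linear_combination -hii
    have c00 : (mL * B * mL⁻¹).val 0 0 = 0 := by
      rw [hinv]
      simp only [G.SL_mul, G.SL_neg, D1.PG.mL00, D1.PG.mL01, D1.PG.mL10, D1.PG.mL11, hB0]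
      ring
    have c11 : (mL * B * mL⁻¹).val 1 1 = 0 := by
      rw [hinv]
      simp only [G.SL_mul, G.SL_neg, D1.PG.mL00, D1.PG.mL01, D1.PG.mL10, D1.PG.mL11, hB3]
      ring
    have c10 : (mL * B * mL⁻¹).val 1 0 = -(B.val 1 0) := by
      rw [hinv]
      simp only [G.SL_mul, G.SL_neg, D1.PG.mL00, D1.PG.mL01, D1.PG.mL10, D1.PG.mL11, himi]
      linear_combination (B.val 1 0) * hii
    have c01 : (mL * B * mL⁻¹).val 0 1 = -(B.val 0 1) := by
      rw [hinv]
      simp only [G.SL_mul, G.SL_neg, D1.PG.mL00, D1.PG.mL01, D1.PG.mL10, D1.PG.mL11, himi]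
      linear_combination (B.val 0 1) * hii
    refine aut1_fin _ x' y' (mL * B * mL⁻¹) h1 ?_ ?_ ?_ ?_ c00 c11 ?_ ?_ ?_
    · rcases hy with h | h
      · left
        linear_combination hy' - h - (⟨0, 1⟩ : O1) * hx'
      · right
        linear_combination hy' - h + (⟨0, 1⟩ : O1) * hx'
    · rw [aut1_cjv ψ _ _ _ hT, hx', hcU]
    · rw [aut1_cjv ψ _ _ _ hU, hy', hcU]
    · exact aut1_cjv ψ _ _ _ hB
    · rw [c10]
      rcases hxb' with h | h
      · left
        linear_combination h - (B.val 1 0) * hx'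
      · right
        linear_combination h - (B.val 1 0) * hx'
    · rw [c10, c01]
      linear_combination hb
    · rw [aut1_cjv ψ _ _ _ hL]
      congr 1
      group
  rcases aut1_unit hxb with h | h | h | h
  · exact aut1_fin ψ x y B (Or.inl h) hy hT hU hB hB0 hB3 hxb' hb hL
  · exact hred 1 (-y) h (neg_neg y).symm (Or.inl rfl)
  · exact aut1_fin ψ x y B (Or.inr h) hy hT hU hB hB0 hB3 hxb' hb hL
  · exact hred ⟨0, 1⟩ (-y) h (neg_neg y).symm (Or.inr rfl)

/-- the normalisation of the images of `mB`, `mL` -/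
private theorem aut1_nB (ψ : SL2 O1 →* M1) (hψ : aut1_G ψ) (x y : O1) (hx0 : x ≠ 0)
    (hT : ψ (mU 1) = pj O1 (mU x)) (hU : ψ (mU ⟨0, 1⟩) = pj O1 (mU y)) : aut1_Q ψ := by
  have hii : (⟨0, 1⟩ : O1) * ⟨0, 1⟩ = -1 := by decide
  have himi : (⟨0, -1⟩ : O1) = -⟨0, 1⟩ := by decide
  obtain ⟨B, hB'⟩ := QuotientGroup.mk'_surjective (pm O1) (ψ (mB O1))
  have hB : ψ (mB O1) = pj O1 B := hB'.symm
  obtain ⟨L, hL'⟩ := QuotientGroup.mk'_surjective (pm O1) (ψ mL)
  have hL : ψ mL = pj O1 L := hL'.symm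
  -- an involution is mapped to an element of trace zero
  have hinvo : ∀ (g g' : SL2 O1), ψ g = pj O1 g' → g * g = -1 → tr g' = 0 := by
    intro g g' hg hgg
    have h1 : ¬ (g' = 1 ∨ g' = -1) := by
      intro h
      rw [aut1_pm h] at hg
      have h2 : g * g = 1 := by
        rcases hψ.ker _ hg with h3 | h3
        · rw [h3, mul_one]
        · rw [h3, neg_mul_neg, mul_one]
      rw [hgg] at h2
      have h3 := congrArg (fun g : SL2 O1 => g.val 0 0) h2
      change (-1 : O1) = 1 at h3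
      exact absurd (by linear_combination -h3) aut1_two
    have h2 : g' * g' = 1 ∨ g' * g' = -1 := by
      apply pj_eq_one
      rw [map_mul, ← hg, ← map_mul, hgg, hψ.neg]
    exact (aut1_sq g' h2).resolve_left h1
  have htB : tr B = 0 := hinvo _ _ hB G.BB
  have htL : tr L = 0 := hinvo _ _ hL (by apply G.SL_ext <;> simp only [G.SL_mul] <;> decide)
  have htTL : tr (mU x * L) = 0 := hinvo (mU 1 * mL) _ (by rw [map_mul, hT, hL, map_mul])
    (by apply G.SL_ext <;> simp only [G.SL_mul] <;> decide)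
  have htBL : tr (B * L) = 0 := hinvo (mB O1 * mL) _ (by rw [map_mul, hB, hL, map_mul])
    (by apply G.SL_ext <;> simp only [G.SL_mul] <;> decide)
  -- the element of order three
  have hC : ψ (mU 1 * mB O1) = pj O1 (mU x * B) := by rw [map_mul, hT, hB, map_mul]
  have hC3 : mU (1 : O1) * mB O1 * (mU 1 * mB O1) * (mU 1 * mB O1) = -1 := by
    apply G.SL_ext <;> simp only [G.SL_mul] <;> decide
  have hC1 : ¬ (mU x * B = 1 ∨ mU x * B = -1) := by
    intro h
    rw [aut1_pm h] at hC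
    rcases hψ.ker _ hC with h1 | h1
    · have h2 := congrArg (fun g : SL2 O1 => g.val 1 0) h1
      simp only [G.SL_mul] at h2
      revert h2
      decide
    · have h2 := congrArg (fun g : SL2 O1 => g.val 1 0) h1
      simp only [G.SL_mul] at h2
      revert h2
      decide
  have hC3' : mU x * B * (mU x * B) * (mU x * B) = 1 ∨
      mU x * B * (mU x * B) * (mU x * B) = -1 := by
    apply pj_eq_one
    rw [map_mul, map_mul _ (mU x * B) (mU x * B), ← hC, ← map_mul, ← map_mul, hC3, hψ.neg]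
  have htC := (aut1_cube _ hC3').resolve_left hC1
  rw [tr_eq] at htB htC htL htTL htBL
  simp only [G.SL_mul, G.mU00, G.mU01, G.mU10, G.mU11] at htC htTL htBL
  have hL10 : L.val 1 0 = 0 := by
    have h1 : x * L.val 1 0 = 0 := by linear_combination htTL - htL
    exact (mul_eq_zero.1 h1).resolve_left hx0
  have hxb : x * B.val 1 0 * (x * B.val 1 0) = 1 := by
    linear_combination htC - (2 * x * B.val 1 0 + B.val 0 0 + B.val 1 1) * htB
  have hb0 : B.val 1 0 ≠ 0 := by
    intro h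
    rw [h, mul_zero, mul_zero] at hxb
    exact zero_ne_one hxb
  obtain ⟨b', hb'⟩ : ∃ b', b' = x * x * B.val 1 0 := ⟨_, rfl⟩
  have hbb : B.val 1 0 * b' = 1 := by rw [hb']; linear_combination hxb
  have hdet := G.SL_det B
  have hdetL := G.SL_det L
  obtain ⟨z, hz⟩ : ∃ z, z = -(B.val 0 0) * b' := ⟨_, rfl⟩
  have h00 : (mU z * B * (mU z)⁻¹).val 0 0 = 0 := by
    rw [aut1_inv]
    simp only [G.SL_mul, G.mU00, G.mU01, G.mU10, G.mU11]
    rw [hz]
    linear_combination -(B.val 0 0) * hbb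
  have h11 : (mU z * B * (mU z)⁻¹).val 1 1 = 0 := by
    rw [aut1_inv]
    simp only [G.SL_mul, G.mU00, G.mU01, G.mU10, G.mU11]
    rw [hz]
    linear_combination (B.val 0 0) * hbb + htB
  have h10 : (mU z * B * (mU z)⁻¹).val 1 0 = B.val 1 0 := by
    rw [aut1_inv]
    simp only [G.SL_mul, G.mU00, G.mU01, G.mU10, G.mU11]
    ring
  have h01 : (mU z * B * (mU z)⁻¹).val 0 1 * (mU z * B * (mU z)⁻¹).val 1 0 = -1 := by
    have h1 := G.SL_det (mU z * B * (mU z)⁻¹)
    rw [h00] at h1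
    linear_combination -h1
  have l10 : (mU z * L * (mU z)⁻¹).val 1 0 = 0 := by
    rw [aut1_inv]
    simp only [G.SL_mul, G.mU00, G.mU01, G.mU10, G.mU11]
    rw [hL10]
    ring
  have l00 : (mU z * L * (mU z)⁻¹).val 0 0 = L.val 0 0 := by
    rw [aut1_inv]
    simp only [G.SL_mul, G.mU00, G.mU01, G.mU10, G.mU11]
    rw [hL10]
    ring
  have l11 : (mU z * L * (mU z)⁻¹).val 1 1 = -(L.val 0 0) := by
    rw [aut1_inv]
    simp only [G.SL_mul, G.mU00, G.mU01, G.mU10, G.mU11]
    rw [hL10]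
    linear_combination htL
  have l01 : (mU z * L * (mU z)⁻¹).val 0 1 = 0 := by
    rw [aut1_inv]
    simp only [G.SL_mul, G.mU00, G.mU01, G.mU10, G.mU11]
    rw [hL10]
    have h1 : B.val 1 0 * (L.val 0 1 + z * L.val 1 1 - L.val 0 0 * z) = 0 := by
      rw [hz]
      rw [hL10] at htBL
      linear_combination htBL - (L.val 1 1) * htB - B.val 0 0 * (L.val 1 1 - L.val 0 0) * hbb
    have h2 := (mul_eq_zero.1 h1).resolve_left hb0
    linear_combination h2
  have hw : (L.val 0 0 - ⟨0, 1⟩) * (L.val 0 0 + ⟨0, 1⟩) = 0 := by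
    rw [hL10] at hdetL
    linear_combination (L.val 0 0) * htL - hdetL - hii
  have hmL : mU z * L * (mU z)⁻¹ = mL ∨ mU z * L * (mU z)⁻¹ = -mL := by
    rcases mul_eq_zero.1 hw with h | h
    · left
      have h1 : L.val 0 0 = ⟨0, 1⟩ := by linear_combination h
      apply G.SL_ext
      · rw [l00, h1]; rfl
      · rw [l01]; rfl
      · rw [l10]; rfl
      · rw [l11, h1]; rfl
    · right
      have h1 : L.val 0 0 = -⟨0, 1⟩ := by linear_combination h
      apply G.SL_ext
      · rw [l00, h1]; rfl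
      · rw [l01]; rfl
      · rw [l10]; rfl
      · rw [l11, h1]; rfl
  apply aut1_conj ψ (mU z)
  refine aut1_n2 _ (hψ.cj _) x y (mU z * B * (mU z)⁻¹) ?_ ?_ ?_ h00 h11 (by rw [h10]; exact hxb)
    h01 ?_
  · rw [aut1_cjv ψ _ _ _ hT, ← G.mU_add, aut1_inv, ← G.mU_add]
    congr 2
    ring
  · rw [aut1_cjv ψ _ _ _ hU, ← G.mU_add, aut1_inv, ← G.mU_add]
    congr 2
    ring
  · exact aut1_cjv ψ _ _ _ hB
  · rw [aut1_cjv ψ _ _ _ hL]
    rcases hmL with h | h
    · rw [h]
    · rw [h, pj_neg]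

private theorem aut1_main (hpar : S_par) (hemb : S_emb) (hnrm : S_nrm) (ψ : SL2 O1 →* M1)
    (hψ : aut1_G ψ) : aut1_Q ψ := by
  obtain ⟨T, hT'⟩ := QuotientGroup.mk'_surjective (pm O1) (ψ (mU 1))
  have hT : ψ (mU 1) = pj O1 T := hT'.symm
  obtain ⟨U, hU'⟩ := QuotientGroup.mk'_surjective (pm O1) (ψ (mU ⟨0, 1⟩))
  have hU : ψ (mU ⟨0, 1⟩) = pj O1 U := hU'.symm
  -- the powers of the images
  have hz : ∀ m n : ℤ, pj O1 (T ^ m * U ^ n) = 1 → m = 0 ∧ n = 0 := by
    intro m n h
    have h1 : ψ (mU 1 ^ m * mU ⟨0, 1⟩ ^ n) = 1 := by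
      rw [map_mul, map_zpow, map_zpow, hT, hU, ← map_zpow, ← map_zpow, ← map_mul, h]
    rw [aut1_pow, aut1_pow, ← G.mU_add] at h1
    rcases hψ.ker _ h1 with h2 | h2
    · have h3 := congrArg (fun g : SL2 O1 => g.val 0 1) h2
      change (m : O1) * 1 + (n : O1) * ⟨0, 1⟩ = 0 at h3
      have h4 := congrArg QuadraticAlgebra.re h3
      have h5 := congrArg QuadraticAlgebra.im h3
      simp at h4 h5
      exact ⟨h4, h5⟩
    · have h3 := congrArg (fun g : SL2 O1 => g.val 0 0) h2
      change (1 : O1) = -1 at h3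
      exact absurd (by linear_combination h3) aut1_two
  -- they commute
  have hc : T * U = U * T := by
    have h1 : pj O1 (T * U) = pj O1 (U * T) := by
      rw [map_mul, map_mul, ← hT, ← hU, ← map_mul, ← map_mul, ← G.mU_add, ← G.mU_add, add_comm]
    rcases pj_eq h1 with h2 | h2
    · exact h2
    · exfalso
      have h3 : T = U * (-T) * U⁻¹ := by
        rw [mul_neg, ← h2, mul_inv_cancel_right]
      have h4 : tr T = tr (-T) := by
        conv_lhs => rw [h3]
        exact aut1_trc _ _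
      have h5 : tr (-T) = -tr T := by
        rw [tr_eq, tr_eq, G.SL_neg, G.SL_neg]
        ring
      have h6 : tr T = 0 := by
        have : (2 : O1) * tr T = 0 := by linear_combination h4 + h5
        exact (mul_eq_zero.1 this).resolve_left aut1_two
      have h7 : T * T = -1 := by
        rw [tr_eq] at h6
        have h8 := G.SL_det T
        apply G.SL_ext <;> rw [G.SL_mul, G.SL_neg]
        · show _ = -(1 : O1)
          linear_combination T.val 0 0 * h6 - h8
        · show _ = -(0 : O1)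
          linear_combination T.val 0 1 * h6
        · show _ = -(0 : O1)
          linear_combination T.val 1 0 * h6
        · show _ = -(1 : O1)
          linear_combination T.val 1 1 * h6 - h8
      have h9 := (hz 2 0 (by
        rw [zpow_zero, mul_one, zpow_two, h7, pj_neg, map_one])).1
      exact absurd h9 (by norm_num)
  -- the trace
  obtain ⟨j, hj, hjf⟩ := hemb.1
  have htr := hpar O1 j hj hjf T U hc fun m n h => hz m n (by rw [h, map_one])
  obtain ⟨T₁, hT1, hc1, ht1⟩ : ∃ T₁ : SL2 O1, ψ (mU 1) = pj O1 T₁ ∧ T₁ * U = U * T₁ ∧ tr T₁ = 2 := by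
    rcases htr with h | h
    · exact ⟨T, hT, hc, h⟩
    · refine ⟨-T, by rw [pj_neg, hT], by rw [neg_mul, mul_neg, hc], ?_⟩
      rw [tr_eq, G.SL_neg, G.SL_neg]
      rw [tr_eq] at h
      linear_combination -h
  obtain ⟨A, x, hA⟩ := hnrm O1 T₁ ht1
  have hx0 : x ≠ 0 := by
    rintro rfl
    rw [G.mU_zero] at hA
    have h1 : T₁ = 1 := by
      have : T₁ = A⁻¹ * (A * T₁ * A⁻¹) * A := by group
      rw [this, hA]; group
    rw [h1, map_one] at hT1
    rcases hψ.ker _ hT1 with h2 | h2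
    · have h3 := congrArg (fun g : SL2 O1 => g.val 0 1) h2
      revert h3
      decide
    · have h3 := congrArg (fun g : SL2 O1 => g.val 0 1) h2
      revert h3
      decide
  have hcA : mU x * (A * U * A⁻¹) = A * U * A⁻¹ * mU x := by
    rw [← hA]
    have e1 : A * T₁ * A⁻¹ * (A * U * A⁻¹) = A * (T₁ * U) * A⁻¹ := by group
    have e2 : A * U * A⁻¹ * (A * T₁ * A⁻¹) = A * (U * T₁) * A⁻¹ := by group
    rw [e1, e2, hc1]
  obtain ⟨y, hy⟩ := aut1_cent x hx0 _ hcA
  apply aut1_conj ψ A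
  refine aut1_nB _ (hψ.cj _) x y hx0 ?_ ?_
  · rw [aut1_cjv ψ _ _ _ hT1, hA]
  · rw [aut1_cjv ψ _ _ _ hU]
    rcases hy with h | h
    · rw [h]
    · rw [h, pj_neg]

theorem p_aut1 (hpar : S_par) (hemb : S_emb) (hnrm : S_nrm) : S_aut1 := by
  intro h
  have hG : aut1_G (h.toMonoidHom.comp (pj O1)) := by
    constructor
    · show h (pj O1 (-1)) = 1
      rw [pj_neg, map_one, map_one]
    · intro g hg
      have h1 : h (pj O1 g) = 1 := hg
      exact pj_eq_one ((map_eq_one_iff h h.injective).1 h1)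
  obtain ⟨d, e, m, hm⟩ := aut1_main hpar hemb hnrm _ hG
  exact ⟨d, e, m, hm⟩

end

end Pool.Agent.F8.PO
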