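import Pool.Agent.Lib.MP_305fdd_al.F8.PO.P_fx1a

/-!
# MP_305fdd_al, project PO: piece fx1, the numbers of homomorphisms `PSL₂(ℤ[i]) → S₄`
-/

set_option autoImplicit false

namespace Pool.Agent.F8.PO

open Pool.Agent.MP_305fdd_al Pool.Agent.Lib.MP_305fdd_al Pool.Agent.F2X Pool.Agent.F8
  Pool.Agent.F8.HN Pool.Agent.F8.AB
open Pool.Agent.F8.D1 (O1)
open Pool.Agent.F8.D1.PG (mL Rel ee)
open scoped QuadraticAlgebra

noncomputable section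

/-! ### The values of `θ ∘ st1 d e` -/

section

variable {P : Type} [Group P] (θ : M1 →* P)

theorem fx1_v1 (d e : Bool) : θ (pj O1 (st1 d e (mU 1))) =
    bif d then θ (pj O1 (mU ⟨0, 1⟩)) else θ (pj O1 (mU 1)) := by
  cases d <;> cases e
  · rfl
  · show θ (pj O1 (SLm (PIC.cj ℤ) (mU 1))) = _
    rw [fx1_cj_A]; rfl
  · show θ (pj O1 (de1 (mU 1))) = _
    rw [fx1_de_A]; rfl
  · show θ (pj O1 (de1 (SLm (PIC.cj ℤ) (mU 1)))) = _
    rw [fx1_cj_A, fx1_de_A]; rfl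

theorem fx1_v2 (d e : Bool) : θ (pj O1 (st1 d e (mU ⟨0, 1⟩))) =
    bif d then (bif e then θ (pj O1 (mU 1)) else (θ (pj O1 (mU 1)))⁻¹) else
      (bif e then (θ (pj O1 (mU ⟨0, 1⟩)))⁻¹ else θ (pj O1 (mU ⟨0, 1⟩))) := by
  cases d <;> cases e
  · rfl
  · show θ (pj O1 (SLm (PIC.cj ℤ) (mU ⟨0, 1⟩))) = (θ (pj O1 (mU ⟨0, 1⟩)))⁻¹
    rw [fx1_cj_U, map_inv, map_inv]
  · show θ (pj O1 (de1 (mU ⟨0, 1⟩))) = (θ (pj O1 (mU 1)))⁻¹
    rw [fx1_de_U, map_inv, map_inv]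
  · show θ (pj O1 (de1 (SLm (PIC.cj ℤ) (mU ⟨0, 1⟩)))) = θ (pj O1 (mU 1))
    rw [fx1_cj_U, map_inv, fx1_de_U, inv_inv]

theorem fx1_v3 (d e : Bool) : θ (pj O1 (st1 d e (mB O1))) =
    bif d then θ (pj O1 (mB O1)) * θ (pj O1 mL) else θ (pj O1 (mB O1)) := by
  have h : θ (pj O1 (de1 (mB O1))) = θ (pj O1 (mB O1)) * θ (pj O1 mL) := by
    rw [fx1_de_B, pj_neg, map_mul, map_mul]
  cases d <;> cases e
  · rfl
  · show θ (pj O1 (SLm (PIC.cj ℤ) (mB O1))) = _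
    rw [fx1_cj_B]; rfl
  · exact h
  · show θ (pj O1 (de1 (SLm (PIC.cj ℤ) (mB O1)))) = _
    rw [fx1_cj_B]; exact h

theorem fx1_v4 (d e : Bool) : θ (pj O1 (st1 d e mL)) = θ (pj O1 mL) := by
  have h : θ (pj O1 mL⁻¹) = θ (pj O1 mL) := by
    have h3 := (fx1_rel_map θ fx1_rel).c3
    rw [map_inv, map_inv]
    exact inv_eq_of_mul_eq_one_left h3
  cases d <;> cases e
  · rfl
  · show θ (pj O1 (SLm (PIC.cj ℤ) mL)) = _
    rw [fx1_cj_L]; exact h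
  · show θ (pj O1 (de1 mL)) = _
    rw [fx1_de_L]
  · show θ (pj O1 (de1 (SLm (PIC.cj ℤ) mL))) = _
    rw [fx1_cj_L, map_inv, fx1_de_L]; exact h

theorem fx1_ext {f g : SL2 O1 →* P} (h1 : f (mU 1) = g (mU 1))
    (h2 : f (mU ⟨0, 1⟩) = g (mU ⟨0, 1⟩)) (h3 : f (mB O1) = g (mB O1)) (h4 : f mL = g mL) :
    f = g :=
  MonoidHom.ext fun x => D1.PG.SL_sub (MonoidHom.eqLocus f g) h1 h2 h3 h4 x

theorem fx1_surj {a u b l : P} (hr : Rel P a u b l) : ∃ θ : M1 →* P, θ (pj O1 (mU 1)) = a ∧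
    θ (pj O1 (mU ⟨0, 1⟩)) = u ∧ θ (pj O1 (mB O1)) = b ∧ θ (pj O1 mL) = l := by
  obtain ⟨f, fU, fB, fL⟩ := D1.PG.pres hr
  have hm : f (-1) = 1 := by rw [← fx1_r2, map_mul, fB, hr.c2]
  have hk : pm O1 ≤ f.ker := by
    rintro x (rfl | rfl)
    · exact map_one f
    · exact hm
  refine ⟨QuotientGroup.lift (pm O1) f hk, ?_, ?_, fB, fL⟩
  · show f (mU 1) = a
    rw [fU]
    unfold ee
    show a ^ (1 : ℤ) * u ^ (0 : ℤ) = a
    rw [zpow_one, zpow_zero, mul_one]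
  · show f (mU ⟨0, 1⟩) = u
    rw [fU]
    unfold ee
    show a ^ (0 : ℤ) * u ^ (1 : ℤ) = u
    rw [zpow_one, zpow_zero, one_mul]

end

theorem fx1_D (θ : M1 →* Equiv.Perm (Fin 4)) (h : MulAut M1) (d e : Bool) (hh : Is1 h d e) :
    (∃ z, ∀ x, θ (h x) = z * θ x * z⁻¹) ↔
    ∃ z, fx1_C d e (θ (pj O1 (mU 1))) (θ (pj O1 (mB O1))) (θ (pj O1 mL))
      (θ (pj O1 (mU ⟨0, 1⟩))) z := by
  obtain ⟨m, hm⟩ := hh
  have key : ∀ x : SL2 O1, θ (h (pj O1 x)) =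
      θ (pj O1 m) * θ (pj O1 (st1 d e x)) * (θ (pj O1 m))⁻¹ := by
    intro x
    rw [hm]
    simp only [map_mul, map_inv]
  constructor
  · rintro ⟨z, hz⟩
    have k2 : ∀ x : SL2 O1, ((θ (pj O1 m))⁻¹ * z) * θ (pj O1 x) =
        θ (pj O1 (st1 d e x)) * ((θ (pj O1 m))⁻¹ * z) := by
      intro x
      have h1 := hz (pj O1 x)
      rw [key] at h1
      calc ((θ (pj O1 m))⁻¹ * z) * θ (pj O1 x)
          = (θ (pj O1 m))⁻¹ * (z * θ (pj O1 x) * z⁻¹) * z := by group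
        _ = _ := by rw [← h1]; group
    refine ⟨(θ (pj O1 m))⁻¹ * z, ?_, ?_, ?_, ?_⟩
    · rw [k2, fx1_v1]
    · rw [k2, fx1_v2]
    · rw [k2, fx1_v3]
    · rw [k2, fx1_v4]
  · rintro ⟨z, h1, h2, h3, h4⟩
    have k3 : θ.comp ((pj O1).comp (st1 d e)) =
        (MulAut.conj z).toMonoidHom.comp (θ.comp (pj O1)) := by
      apply fx1_ext
      · show θ (pj O1 (st1 d e (mU 1))) = z * θ (pj O1 (mU 1)) * z⁻¹
        rw [fx1_v1, eq_mul_inv_iff_mul_eq]; exact h1.symm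
      · show θ (pj O1 (st1 d e (mU ⟨0, 1⟩))) = z * θ (pj O1 (mU ⟨0, 1⟩)) * z⁻¹
        rw [fx1_v2, eq_mul_inv_iff_mul_eq]; exact h2.symm
      · show θ (pj O1 (st1 d e (mB O1))) = z * θ (pj O1 (mB O1)) * z⁻¹
        rw [fx1_v3, eq_mul_inv_iff_mul_eq]; exact h3.symm
      · show θ (pj O1 (st1 d e mL)) = z * θ (pj O1 mL) * z⁻¹
        rw [fx1_v4, eq_mul_inv_iff_mul_eq]; exact h4.symm
    refine ⟨θ (pj O1 m) * z, fun y => ?_⟩
    obtain ⟨x, rfl⟩ := QuotientGroup.mk'_surjective (pm O1) y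
    have k4 : θ (pj O1 (st1 d e x)) = z * θ (pj O1 x) * z⁻¹ := DFunLike.congr_fun k3 x
    rw [key, k4]; group

/-! ### Counting -/

/-- the condition on the quadruple -/
def fx1_G (d e : Bool) (t : Equiv.Perm (Fin 4) × Equiv.Perm (Fin 4) × Equiv.Perm (Fin 4) ×
    Equiv.Perm (Fin 4)) : Bool :=
  fx1_F1 (fx1_enc t.1) (fx1_enc t.2.1) && (fx1_F2 (fx1_enc t.1) (fx1_enc t.2.1) (fx1_enc t.2.2.1) &&
    (fx1_F3 (fx1_enc t.1) (fx1_enc t.2.1) (fx1_enc t.2.2.1) (fx1_enc t.2.2.2) &&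
      fx1_L.any (fx1_F4 d e (fx1_enc t.1) (fx1_enc t.2.1) (fx1_enc t.2.2.1) (fx1_enc t.2.2.2))))

theorem fx1_G_iff (d e : Bool) (a b l u : Equiv.Perm (Fin 4)) : fx1_G d e (a, b, l, u) = true ↔
    Rel (Equiv.Perm (Fin 4)) a u b l ∧ ∃ z, fx1_C d e a b l u z := by
  unfold fx1_G
  rw [Bool.and_eq_true, Bool.and_eq_true, Bool.and_eq_true, ← fx1_any, fx1_rel_iff]
  simp only [fx1_F4_iff]
  tauto

theorem fx1_sum_bif {ι : Type} (s : Finset ι) (c : Bool) (g : ι → ℕ) :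
    ∑ i ∈ s, (bif c then g i else 0) = bif c then ∑ i ∈ s, g i else 0 := by
  cases c <;> simp

theorem fx1_ite (g x y z w : Bool) (hg : g = (x && (y && (z && w)))) [Decidable (g = true)] :
    (if g = true then 1 else 0 : ℕ) =
    bif x then (bif y then (bif z then (bif w then 1 else 0) else 0) else 0) else 0 := by
  subst hg
  cases x <;> cases y <;> cases z <;> cases w <;> simp

theorem fx1_card (d e : Bool) : Nat.card {t // fx1_G d e t = true} = fx1_cnt d e := by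
  rw [Nat.card_eq_fintype_card, Fintype.card_subtype, Finset.card_filter]
  unfold fx1_cnt
  simp only [← fx1_sum, Fintype.sum_prod_type]
  refine Finset.sum_congr rfl fun a _ => Finset.sum_congr rfl fun b _ => ?_
  rw [← fx1_sum_bif]
  refine Finset.sum_congr rfl fun l _ => ?_
  rw [← fx1_sum_bif, ← fx1_sum_bif]
  refine Finset.sum_congr rfl fun u _ => ?_
  exact fx1_ite _ _ _ _ _ rfl

theorem p_fx1 : S_fx1 := by
  intro h d e hh
  have hb : Function.Bijective (fun θ : {θ : M1 →* Equiv.Perm (Fin 4) //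
      ∃ z, ∀ x, θ (h x) = z * θ x * z⁻¹} =>
      (⟨(θ.1 (pj O1 (mU 1)), θ.1 (pj O1 (mB O1)), θ.1 (pj O1 mL), θ.1 (pj O1 (mU ⟨0, 1⟩))),
        (fx1_G_iff d e _ _ _ _).2 ⟨fx1_rel_map θ.1 fx1_rel, (fx1_D θ.1 h d e hh).1 θ.2⟩⟩ :
        {t // fx1_G d e t = true})) := by
    constructor
    · rintro ⟨θ, hθ⟩ ⟨θ', hθ'⟩ hq
      have hq' := congrArg Subtype.val hq
      simp only [Prod.mk.injEq] at hq'
      obtain ⟨q1, q2, q3, q4⟩ := hq'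
      apply Subtype.ext
      have k : θ.comp (pj O1) = θ'.comp (pj O1) := fx1_ext q1 q4 q2 q3
      apply MonoidHom.ext
      intro y
      obtain ⟨x, rfl⟩ := QuotientGroup.mk'_surjective (pm O1) y
      exact DFunLike.congr_fun k x
    · rintro ⟨⟨a, b, l, u⟩, ht⟩
      obtain ⟨hr, hz⟩ := (fx1_G_iff d e a b l u).1 ht
      obtain ⟨θ, h1, h2, h3, h4⟩ := fx1_surj hr
      refine ⟨⟨θ, (fx1_D θ h d e hh).2 ?_⟩, ?_⟩
      · rw [h1, h2, h3, h4]; exact hz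
      · apply Subtype.ext
        show (θ (pj O1 (mU 1)), θ (pj O1 (mB O1)), θ (pj O1 mL), θ (pj O1 (mU ⟨0, 1⟩))) =
          (a, b, l, u)
        rw [h1, h2, h3, h4]
  unfold Fx
  rw [Nat.card_congr (Equiv.ofBijective _ hb), fx1_card, fx1_cnt_eq]

end

end Pool.Agent.F8.PO
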