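import Pool.Agent.Lib.MP_305fdd_al.F8.PO.Main7
import Pool.Agent.Lib.MP_305fdd_al.F8.PO.P_aut1
import Pool.Agent.Lib.MP_305fdd_al.F8.PO.P_fx1

/-!
# MP_305fdd_al, project PO: the groups which contain `PSL₂(O)` as a normal subgroup of finite index
-/

set_option autoImplicit false

namespace Pool.Agent.F8.PO

theorem m_aut1 : S_aut1 := p_aut1 m_par m_emb m_nrm
theorem m_fx1 : S_fx1 := p_fx1

/-- If `PSL₂(ℤ[i])` is profinitely rigid then so is every group without nontrivial finite normal subgroups which contains it as a
normal subgroup of finite index. -/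
theorem over1 : S_over1 := over1_of m_aut1 m_fx1

end Pool.Agent.F8.PO
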