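import Pool.Agent.Lib.MP_305fdd_al.F8.PO.MainOf

/-!
# MP_305fdd_al, project PO: `PSL₂(R)` and `PGL₂(R)` have no nontrivial finite normal subgroups
-/

set_option autoImplicit false
set_option linter.unusedSimpArgs false

namespace Pool.Agent.F8.PO

open Pool.Agent.MP_305fdd_al Pool.Agent.Lib.MP_305fdd_al Pool.Agent.F2X Pool.Agent.F8
  Pool.Agent.F8.HN Pool.Agent.F8.AB

noncomputable section

theorem fin_comm {G : Type} [Group G] (F : Subgroup G) (hF : F.Normal) (hf : Finite F) (f : G)
    (hm : f ∈ F) (a : G) : ∃ n : ℕ, 0 < n ∧ a ^ n * f = f * a ^ n := by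
  obtain ⟨i, j, hij, he⟩ := Finite.exists_ne_map_eq_of_infinite
    (fun n : ℕ => (⟨a ^ n * f * (a ^ n)⁻¹, hF.conj_mem f hm (a ^ n)⟩ : F))
  have he' : a ^ i * f * (a ^ i)⁻¹ = a ^ j * f * (a ^ j)⁻¹ := congrArg Subtype.val he
  have key : ∀ i j : ℕ, i < j → a ^ i * f * (a ^ i)⁻¹ = a ^ j * f * (a ^ j)⁻¹ →
      ∃ n : ℕ, 0 < n ∧ a ^ n * f = f * a ^ n := by
    intro i j hij he
    refine ⟨j - i, by omega, ?_⟩
    have h1 : a ^ j = a ^ i * a ^ (j - i) := by rw [← pow_add]; congr 1; omega
    rw [h1, mul_inv_rev] at he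
    have h2 : f = a ^ (j - i) * f * (a ^ (j - i))⁻¹ := by
      have h3 := congrArg (fun x => (a ^ i)⁻¹ * x * a ^ i) he
      simp only [mul_assoc, inv_mul_cancel_left, inv_mul_cancel, mul_one] at h3
      rw [mul_assoc]
      exact h3
    calc a ^ (j - i) * f = (a ^ (j - i) * f * (a ^ (j - i))⁻¹) * a ^ (j - i) := by group
      _ = f * a ^ (j - i) := by rw [← h2]
  rcases lt_or_gt_of_ne hij with h | h
  · exact key i j h he'
  · exact key j i h he'.symm

/-- matrices which commute up to sign with nontrivial upper unipotent matrices -/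
theorem gl_up {R : Type} [CommRing R] [IsDomain R] (h2 : (2 : R) ≠ 0) (a b c d z n : R)
    (hn : n ≠ 0) (hz : z * z = 1) (hd : a * d - b * c ≠ 0)
    (e00 : a + n * c = z * a) (e01 : b + n * d = z * (a * n + b)) (e10 : c = z * c)
    (e11 : d = z * (c * n + d)) : c = 0 ∧ a = d := by
  have hz' : z = 1 ∨ z = -1 := mul_self_eq_one_iff.1 hz
  rcases hz' with rfl | rfl
  · have hc : c = 0 := by
      have : n * c = 0 := by linear_combination e00
      rcases mul_eq_zero.1 this with h | h
      · exact absurd h hn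
      · exact h
    have : n * (a - d) = 0 := by linear_combination -e01
    rcases mul_eq_zero.1 this with h | h
    · exact absurd h hn
    · exact ⟨hc, by linear_combination h⟩
  · exfalso
    have h0 : ∀ x : R, x = -x → x = 0 := by
      intro x hx
      have : 2 * x = 0 := by linear_combination hx
      rcases mul_eq_zero.1 this with h | h
      · exact absurd h h2
      · exact h
    have hc : c = 0 := h0 c (by linear_combination e10)
    subst hc
    have ha : a = 0 := h0 a (by linear_combination e00)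
    subst ha
    apply hd
    ring

theorem mU_pow {R : Type} [CommRing R] (x : R) (n : ℕ) : (mU x) ^ n = mU ((n : R) * x) := by
  induction n with
  | zero =>
    apply G.SL_ext
    · simp [G.mU00]
    · simp [G.mU01]
    · simp [G.mU10]
    · simp [G.mU11]
  | succ n ih =>
    rw [pow_succ, ih, ← G.mU_add]
    congr 1
    push_cast
    ring

/-- `PSL₂(R)` has no nontrivial finite normal subgroups -/
theorem nofin_pm {R : Type} [CommRing R] [IsDomain R] [CharZero R]
    (F : Subgroup (SL2 R ⧸ pm R)) (hF : F.Normal) (hf : Finite F) : F = ⊥ := by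
  have h2 : (2 : R) ≠ 0 := two_ne_zero
  have key : ∀ g : SL2 R, pj R g ∈ F → g.val 1 0 = 0 ∧ g.val 0 0 = g.val 1 1 := by
    intro g hg
    obtain ⟨n, hn, h⟩ := fin_comm F hF hf (pj R g) hg (pj R (mU 1))
    rw [← map_pow, ← map_mul, ← map_mul, mU_pow, mul_one] at h
    have hn' : (n : R) ≠ 0 := Nat.cast_ne_zero.2 hn.ne'
    have hd : g.val 0 0 * g.val 1 1 - g.val 0 1 * g.val 1 0 ≠ 0 := by
      rw [G.SL_det g]; exact one_ne_zero
    rcases pj_eq h with h | h
    · have a0 := congrArg (fun x : SL2 R => x.val 0 0) h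
      have a1 := congrArg (fun x : SL2 R => x.val 0 1) h
      have a2 := congrArg (fun x : SL2 R => x.val 1 0) h
      have a3 := congrArg (fun x : SL2 R => x.val 1 1) h
      simp only [G.SL_mul, G.mU00, G.mU01, G.mU10, G.mU11] at a0 a1 a2 a3
      refine gl_up h2 _ (g.val 0 1) _ _ 1 n hn' (by ring) hd ?_ ?_ ?_ ?_
      · linear_combination a0
      · linear_combination a1
      · ring
      · linear_combination a3
    · have a0 := congrArg (fun x : SL2 R => x.val 0 0) h
      have a1 := congrArg (fun x : SL2 R => x.val 0 1) h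
      have a2 := congrArg (fun x : SL2 R => x.val 1 0) h
      have a3 := congrArg (fun x : SL2 R => x.val 1 1) h
      simp only [G.SL_neg, G.SL_mul, G.mU00, G.mU01, G.mU10, G.mU11] at a0 a1 a2 a3
      refine gl_up h2 _ (g.val 0 1) _ _ (-1) n hn' (by ring) hd ?_ ?_ ?_ ?_
      · linear_combination a0
      · linear_combination a1
      · linear_combination a2
      · linear_combination a3
  rw [eq_bot_iff]
  intro f hm
  obtain ⟨g, rfl⟩ := QuotientGroup.mk'_surjective (pm R) f
  obtain ⟨hc, hd⟩ := key g hm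
  have h1 : pj R (mB R * g * (mB R)⁻¹) ∈ F := by
    rw [map_mul, map_mul, map_inv]
    exact hF.conj_mem _ hm _
  have hb := (key _ h1).1
  have hinv : ((mB R)⁻¹ : SL2 R) = -mB R := by
    apply inv_eq_of_mul_eq_one_right
    apply G.SL_ext
    · simp only [G.SL_neg, G.SL_mul, G.mB00, G.mB01, G.mB10, G.mB11, G.one00, mul_neg, G.SL_mul]; ring
    · simp only [G.SL_neg, G.SL_mul, G.mB00, G.mB01, G.mB10, G.mB11, G.one01, mul_neg, G.SL_mul]; ring
    · simp only [G.SL_neg, G.SL_mul, G.mB00, G.mB01, G.mB10, G.mB11, G.one10, mul_neg, G.SL_mul]; ring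
    · simp only [G.SL_neg, G.SL_mul, G.mB00, G.mB01, G.mB10, G.mB11, G.one11, mul_neg, G.SL_mul]; ring
  rw [hinv] at hb
  simp only [mul_neg, G.SL_neg, G.SL_mul, G.mB00, G.mB01, G.mB10, G.mB11] at hb
  have hb' : g.val 0 1 = 0 := by linear_combination (-1 : R) * hb
  have hdet := G.SL_det g
  rw [hb', ← hd, zero_mul, sub_zero] at hdet
  show pj R g = 1
  rw [← map_one (pj R)]
  rcases mul_self_eq_one_iff.1 hdet with h0 | h0
  · congr 1
    apply G.SL_ext
    · rw [G.one00, h0]
    · rw [G.one01, hb']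
    · rw [G.one10, hc]
    · rw [G.one11, ← hd, h0]
  · rw [← pj_neg 1]
    congr 1
    apply G.SL_ext
    · rw [G.SL_neg, G.one00, h0]
    · rw [G.SL_neg, G.one01, hb', neg_zero]
    · rw [G.SL_neg, G.one10, hc, neg_zero]
    · rw [G.SL_neg, G.one11, ← hd, h0]

/-- `PGL₂(R)` -/
abbrev PGLR (R : Type) [CommRing R] : Type := GL (Fin 2) R ⧸ Subgroup.center (GL (Fin 2) R)

/-- `PGL₂(R)` has no nontrivial finite normal subgroups -/
theorem nofin_PGL {R : Type} [CommRing R] [IsDomain R] [CharZero R]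
    (F : Subgroup (PGLR R)) (hF : F.Normal) (hf : Finite F) : F = ⊥ := by
  have h2 : (2 : R) ≠ 0 := two_ne_zero
  have key : ∀ g : GL (Fin 2) R, (QuotientGroup.mk g : PGLR R) ∈ F →
      g.val 1 0 = 0 ∧ g.val 0 0 = g.val 1 1 := by
    intro g hg
    obtain ⟨n, hn, h⟩ := fin_comm F hF hf _ hg
      (QuotientGroup.mk (Matrix.SpecialLinearGroup.toGL (mU (1 : R))) : PGLR R)
    have h' : (QuotientGroup.mk (g * Matrix.SpecialLinearGroup.toGL (mU (n : R))) : PGLR R) =
        QuotientGroup.mk (Matrix.SpecialLinearGroup.toGL (mU (n : R)) * g) := by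
      have e1 : Matrix.SpecialLinearGroup.toGL (mU (n : R)) =
          Matrix.SpecialLinearGroup.toGL (mU (1 : R)) ^ n := by
        rw [← map_pow, mU_pow, mul_one]
      rw [e1]
      exact h.symm
    have h3 := QuotientGroup.eq.1 h'
    rw [Matrix.GeneralLinearGroup.mem_center_iff_val_mem_range_scalar] at h3
    obtain ⟨z, hz⟩ := h3
    have h4 : (Matrix.SpecialLinearGroup.toGL (mU (n : R)) * g).val =
        (g * Matrix.SpecialLinearGroup.toGL (mU (n : R))).val * Matrix.scalar (Fin 2) z := by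
      rw [hz, ← Units.val_mul, mul_inv_cancel_left]
    have hn' : (n : R) ≠ 0 := Nat.cast_ne_zero.2 hn.ne'
    have hu : IsUnit (g.val.det) := (Matrix.isUnit_iff_isUnit_det _).1 g.isUnit
    have hd : g.val 0 0 * g.val 1 1 - g.val 0 1 * g.val 1 0 ≠ 0 := by
      rw [← Matrix.det_fin_two]; exact hu.ne_zero
    have hdet := congrArg Matrix.det h4
    have hz2 : z * z = 1 := by
      rw [Units.val_mul, Units.val_mul, Matrix.det_mul, Matrix.det_mul, Matrix.det_mul] at hdet
      have e2 : (Matrix.SpecialLinearGroup.toGL (mU (n : R))).val.det = 1 := (mU (n : R)).2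
      have e3 : (Matrix.scalar (Fin 2) z).det = z * z := by
        rw [Matrix.det_fin_two]
        simp
      rw [e2, e3] at hdet
      apply hu.mul_left_cancel
      linear_combination -hdet
    have ent : ∀ i j, (Matrix.SpecialLinearGroup.toGL (mU (n : R)) * g).val i j =
        z * (g * Matrix.SpecialLinearGroup.toGL (mU (n : R))).val i j := by
      intro i j
      rw [h4]
      simp [Matrix.scalar_apply, Matrix.mul_diagonal, mul_comm]
    have a0 := ent 0 0
    have a1 := ent 0 1
    have a2 := ent 1 0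
    have a3 := ent 1 1
    simp only [Units.val_mul, Matrix.mul_apply, Fin.sum_univ_two,
      Matrix.SpecialLinearGroup.coe_GL_coe_matrix, G.mU00, G.mU01, G.mU10, G.mU11] at a0 a1 a2 a3
    refine gl_up h2 _ (g.val 0 1) _ _ z n hn' hz2 hd ?_ ?_ ?_ ?_
    · linear_combination a0
    · linear_combination a1
    · linear_combination a2
    · linear_combination a3
  rw [eq_bot_iff]
  intro f hm
  obtain ⟨g, rfl⟩ := QuotientGroup.mk_surjective f
  obtain ⟨hc, hd⟩ := key g hm
  have h1 : (QuotientGroup.mk (Matrix.SpecialLinearGroup.toGL (mB R) * g *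
      (Matrix.SpecialLinearGroup.toGL (mB R))⁻¹) : PGLR R) ∈ F :=
    hF.conj_mem _ hm (QuotientGroup.mk (Matrix.SpecialLinearGroup.toGL (mB R)) : PGLR R)
  have hb := (key _ h1).1
  have hinv : ((mB R)⁻¹ : SL2 R) = -mB R := by
    apply inv_eq_of_mul_eq_one_right
    apply G.SL_ext
    · simp only [G.SL_neg, G.SL_mul, G.mB00, G.mB01, G.mB10, G.mB11, G.one00, mul_neg, G.SL_mul]; ring
    · simp only [G.SL_neg, G.SL_mul, G.mB00, G.mB01, G.mB10, G.mB11, G.one01, mul_neg, G.SL_mul]; ring
    · simp only [G.SL_neg, G.SL_mul, G.mB00, G.mB01, G.mB10, G.mB11, G.one10, mul_neg, G.SL_mul]; ring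
    · simp only [G.SL_neg, G.SL_mul, G.mB00, G.mB01, G.mB10, G.mB11, G.one11, mul_neg, G.SL_mul]; ring
  rw [← map_inv, hinv] at hb
  simp only [Units.val_mul, Matrix.mul_apply, Fin.sum_univ_two,
    Matrix.SpecialLinearGroup.coe_GL_coe_matrix, G.SL_neg, G.mB00, G.mB01, G.mB10, G.mB11] at hb
  have hb' : g.val 0 1 = 0 := by linear_combination (-1 : R) * hb
  rw [Subgroup.mem_bot, QuotientGroup.eq_one_iff,
    Matrix.GeneralLinearGroup.mem_center_iff_val_mem_range_scalar]
  refine ⟨g.val 0 0, ?_⟩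
  ext i j
  fin_cases i <;> fin_cases j
  · simp
  · simp [hb']
  · simp [hc]
  · simp [hd]

end

end Pool.Agent.F8.PO
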