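import Pool.Agent.Lib.MP_305fdd_al.F8.PO.Stm

/-!
# MP_305fdd_al, project PO: piece fx1, first part: codes, the count, the matrices
-/

set_option autoImplicit false

namespace Pool.Agent.F8.PO

open Pool.Agent.MP_305fdd_al Pool.Agent.Lib.MP_305fdd_al Pool.Agent.F2X Pool.Agent.F8
  Pool.Agent.F8.HN Pool.Agent.F8.AB
open Pool.Agent.F8.D1 (O1)
open Pool.Agent.F8.D1.PG (mL Rel ee)
open scoped QuadraticAlgebra

noncomputable section

/-! ### Codes of permutations of four letters -/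

/-- the code of a permutation -/
def fx1_enc (p : Equiv.Perm (Fin 4)) : ℕ :=
  (p 0).val + 4 * (p 1).val + 16 * (p 2).val + 64 * (p 3).val

/-- the digits of a code -/
def fx1_dg (c i : ℕ) : ℕ := c / 4 ^ i % 4

/-- the multiplication of codes -/
def fx1_mul (c d : ℕ) : ℕ :=
  fx1_dg c (fx1_dg d 0) + 4 * fx1_dg c (fx1_dg d 1) + 16 * fx1_dg c (fx1_dg d 2)
    + 64 * fx1_dg c (fx1_dg d 3)

theorem fx1_dg_enc (p : Equiv.Perm (Fin 4)) (i : Fin 4) : fx1_dg (fx1_enc p) i.val = (p i).val := by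
  unfold fx1_dg fx1_enc
  have h0 := (p 0).isLt
  have h1 := (p 1).isLt
  have h2 := (p 2).isLt
  have h3 := (p 3).isLt
  fin_cases i
  · show ((p 0).val + 4 * (p 1).val + 16 * (p 2).val + 64 * (p 3).val) / 1 % 4 = (p 0).val
    omega
  · show ((p 0).val + 4 * (p 1).val + 16 * (p 2).val + 64 * (p 3).val) / 4 % 4 = (p 1).val
    omega
  · show ((p 0).val + 4 * (p 1).val + 16 * (p 2).val + 64 * (p 3).val) / 16 % 4 = (p 2).val
    omega
  · show ((p 0).val + 4 * (p 1).val + 16 * (p 2).val + 64 * (p 3).val) / 64 % 4 = (p 3).val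
    omega

theorem fx1_enc_mul (p q : Equiv.Perm (Fin 4)) :
    fx1_enc (p * q) = fx1_mul (fx1_enc p) (fx1_enc q) := by
  have e : ∀ i : Fin 4, fx1_dg (fx1_enc p) (fx1_dg (fx1_enc q) i.val) = (p (q i)).val := by
    intro i
    rw [fx1_dg_enc, fx1_dg_enc]
  have e0 := e 0
  have e1 := e 1
  have e2 := e 2
  have e3 := e 3
  show (p (q 0)).val + 4 * (p (q 1)).val + 16 * (p (q 2)).val + 64 * (p (q 3)).val = _
  rw [← e0, ← e1, ← e2, ← e3]
  rfl

theorem fx1_enc_inj {p q : Equiv.Perm (Fin 4)} (h : fx1_enc p = fx1_enc q) : p = q := by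
  apply Equiv.ext
  intro i
  apply Fin.ext
  rw [← fx1_dg_enc, ← fx1_dg_enc, h]

/-- the 24 codes -/
def fx1_L : List ℕ := [27, 30, 39, 45, 54, 57, 75, 78, 99, 108, 114, 120, 135, 141, 147, 156, 177,
  180, 198, 201, 210, 216, 225, 228]

theorem fx1_image : (Finset.univ : Finset (Equiv.Perm (Fin 4))).image fx1_enc
    = fx1_L.toFinset := by
  decide +kernel

theorem fx1_sum (f : ℕ → ℕ) : ∑ p : Equiv.Perm (Fin 4), f (fx1_enc p) = (fx1_L.map f).sum := by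
  have h : ∑ p : Equiv.Perm (Fin 4), f (fx1_enc p)
      = ∑ c ∈ (Finset.univ : Finset (Equiv.Perm (Fin 4))).image fx1_enc, f c := by
    rw [Finset.sum_image]
    intro p _ q _ hpq
    exact fx1_enc_inj hpq
  rw [h, fx1_image, List.sum_toFinset]
  decide +kernel

theorem fx1_any (f : ℕ → Bool) : (∃ p : Equiv.Perm (Fin 4), f (fx1_enc p) = true) ↔
    fx1_L.any f = true := by
  rw [List.any_eq_true]
  constructor
  · rintro ⟨p, hp⟩
    refine ⟨fx1_enc p, ?_, hp⟩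
    rw [← List.mem_toFinset, ← fx1_image]
    exact Finset.mem_image_of_mem _ (Finset.mem_univ _)
  · rintro ⟨c, hc, h⟩
    rw [← List.mem_toFinset, ← fx1_image] at hc
    obtain ⟨p, _, rfl⟩ := Finset.mem_image.1 hc
    exact ⟨p, h⟩

/-- equality of codes -/
def fx1_eq (a b : ℕ) : Bool := Nat.beq a b

theorem fx1_eq_iff (p q : Equiv.Perm (Fin 4)) :
    fx1_eq (fx1_enc p) (fx1_enc q) = true ↔ p = q := by
  unfold fx1_eq
  rw [Nat.beq_eq]
  exact ⟨fx1_enc_inj, fun h => by rw [h]⟩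

theorem fx1_one : fx1_enc 1 = 228 := by decide +kernel

/-! ### The conditions on the codes -/

/-- `b² = 1`, `(a b)³ = 1` -/
def fx1_F1 (a b : ℕ) : Bool :=
  fx1_eq (fx1_mul b b) 228 && fx1_eq (fx1_mul (fx1_mul a b) (fx1_mul (fx1_mul a b) (fx1_mul a b))) 228

/-- `l² = 1`, `b l = l b`, `(l a)² = 1` -/
def fx1_F2 (a b l : ℕ) : Bool :=
  fx1_eq (fx1_mul l l) 228 && (fx1_eq (fx1_mul b l) (fx1_mul l b) &&
    fx1_eq (fx1_mul (fx1_mul l a) (fx1_mul l a)) 228)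

/-- `a u = u a`, `(l u)² = 1`, `(u (l b))³ = 1` -/
def fx1_F3 (a b l u : ℕ) : Bool :=
  fx1_eq (fx1_mul a u) (fx1_mul u a) && (fx1_eq (fx1_mul (fx1_mul l u) (fx1_mul l u)) 228 &&
    fx1_eq (fx1_mul (fx1_mul u (fx1_mul l b)) (fx1_mul (fx1_mul u (fx1_mul l b))
      (fx1_mul u (fx1_mul l b)))) 228)

/-- the condition on `z` -/
def fx1_F4 (d e : Bool) (a b l u z : ℕ) : Bool :=
  fx1_eq (fx1_mul z a) (fx1_mul (bif d then u else a) z) &&
    ((bif d then (bif e then fx1_eq (fx1_mul z u) (fx1_mul a z) else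
        fx1_eq (fx1_mul a (fx1_mul z u)) z)
      else (bif e then fx1_eq (fx1_mul u (fx1_mul z u)) z else
        fx1_eq (fx1_mul z u) (fx1_mul u z))) &&
    (fx1_eq (fx1_mul z b) (fx1_mul (bif d then fx1_mul b l else b) z) &&
      fx1_eq (fx1_mul z l) (fx1_mul l z)))

/-- the number -/
def fx1_cnt (d e : Bool) : ℕ :=
  (fx1_L.map fun a => (fx1_L.map fun b => bif fx1_F1 a b then
    (fx1_L.map fun l => bif fx1_F2 a b l then
      (fx1_L.map fun u => bif fx1_F3 a b l u then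
        (bif fx1_L.any (fx1_F4 d e a b l u) then 1 else 0) else 0).sum else 0).sum else 0).sum).sum

theorem fx1_cnt_eq (d e : Bool) : fx1_cnt d e = tb1 d e := by
  cases d <;> cases e <;> decide +kernel

theorem fx1_F1_iff (a b : Equiv.Perm (Fin 4)) : fx1_F1 (fx1_enc a) (fx1_enc b) = true ↔
    b * b = 1 ∧ a * b * (a * b * (a * b)) = 1 := by
  simp only [fx1_F1, ← fx1_enc_mul, ← fx1_one, Bool.and_eq_true, fx1_eq_iff]

theorem fx1_F2_iff (a b l : Equiv.Perm (Fin 4)) :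
    fx1_F2 (fx1_enc a) (fx1_enc b) (fx1_enc l) = true ↔
    l * l = 1 ∧ b * l = l * b ∧ l * a * (l * a) = 1 := by
  simp only [fx1_F2, ← fx1_enc_mul, ← fx1_one, Bool.and_eq_true, fx1_eq_iff]

theorem fx1_F3_iff (a b l u : Equiv.Perm (Fin 4)) :
    fx1_F3 (fx1_enc a) (fx1_enc b) (fx1_enc l) (fx1_enc u) = true ↔
    a * u = u * a ∧ l * u * (l * u) = 1 ∧ u * (l * b) * (u * (l * b) * (u * (l * b))) = 1 := by
  simp only [fx1_F3, ← fx1_enc_mul, ← fx1_one, Bool.and_eq_true, fx1_eq_iff]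

/-- the condition on `z` -/
def fx1_C (d e : Bool) (a b l u z : Equiv.Perm (Fin 4)) : Prop :=
  z * a = (bif d then u else a) * z ∧
  z * u = (bif d then (bif e then a else a⁻¹) else (bif e then u⁻¹ else u)) * z ∧
  z * b = (bif d then b * l else b) * z ∧ z * l = l * z

theorem fx1_F4_iff (d e : Bool) (a b l u z : Equiv.Perm (Fin 4)) :
    fx1_F4 d e (fx1_enc a) (fx1_enc b) (fx1_enc l) (fx1_enc u) (fx1_enc z) = true ↔
    fx1_C d e a b l u z := by
  cases d <;> cases e <;>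
  simp only [fx1_F4, fx1_C, cond_true, cond_false, ← fx1_enc_mul, Bool.and_eq_true, fx1_eq_iff,
    eq_inv_mul_iff_mul_eq]

theorem fx1_rel_iff (a b l u : Equiv.Perm (Fin 4)) : Rel (Equiv.Perm (Fin 4)) a u b l ↔
    fx1_F1 (fx1_enc a) (fx1_enc b) = true ∧ fx1_F2 (fx1_enc a) (fx1_enc b) (fx1_enc l) = true ∧
    fx1_F3 (fx1_enc a) (fx1_enc b) (fx1_enc l) (fx1_enc u) = true := by
  rw [fx1_F1_iff, fx1_F2_iff, fx1_F3_iff]
  constructor
  · intro h
    refine ⟨⟨h.c2, ?_⟩, ⟨h.c3, ?_, ?_⟩, h.c1, ?_, ?_⟩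
    · rw [← h.c4]; group
    · have h7 := h.c7
      calc b * l = b * l * (b * b) := by rw [h.c2, mul_one]
        _ = b * l * b * b := by group
        _ = l * b := by rw [h7]
    · have h5 := h.c5
      calc l * a * (l * a) = l * a * l * a := by group
        _ = 1 := by rw [h5]; group
    · have h6 := h.c6
      calc l * u * (l * u) = l * u * l * u := by group
        _ = 1 := by rw [h6]; group
    · rw [← h.c8]; group
  · rintro ⟨⟨h2, h4⟩, ⟨h3, h7, h5⟩, h1, h6, h8⟩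
    refine ⟨h1, h2, h3, ?_, ?_, ?_, ?_, ?_⟩
    · rw [← h4]; group
    · apply eq_inv_of_mul_eq_one_left
      rw [← h5]; group
    · apply eq_inv_of_mul_eq_one_left
      rw [← h6]; group
    · rw [h7, mul_assoc, h2, mul_one]
    · rw [← h8]; group

/-! ### The matrices -/

theorem fx1_A : mU (1 : O1) = mx 1 1 0 1 (by ring) := rfl
theorem fx1_U : mU (⟨0, 1⟩ : O1) = mx 1 ⟨0, 1⟩ 0 1 (by ring) := rfl
theorem fx1_B : mB O1 = mx 0 (-1) 1 0 (by ring) := rfl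
theorem fx1_Lm : mL = mx (⟨0, 1⟩ : O1) 0 0 ⟨0, -1⟩ (by decide) := rfl

theorem fx1_r1 : mU (1 : O1) * mU ⟨0, 1⟩ = mU ⟨0, 1⟩ * mU 1 := by
  rw [fx1_A, fx1_U]
  simp only [mx_mul]
  apply mx_congr <;> decide
theorem fx1_r2 : mB O1 * mB O1 = -1 := by
  rw [fx1_B]
  simp only [mx_mul, mx_one, mx_neg]
  apply mx_congr <;> decide
theorem fx1_r3 : mL * mL = -1 := by
  rw [fx1_Lm]
  simp only [mx_mul, mx_one, mx_neg]
  apply mx_congr <;> decide
theorem fx1_r4 : mU (1 : O1) * mB O1 * mU 1 * mB O1 * mU 1 * mB O1 = -1 := by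
  rw [fx1_A, fx1_B]
  simp only [mx_mul, mx_one, mx_neg]
  apply mx_congr <;> decide
theorem fx1_r5 : mL * mU 1 * mL * mU 1 = -1 := by
  rw [fx1_A, fx1_Lm]
  simp only [mx_mul, mx_one, mx_neg]
  apply mx_congr <;> decide
theorem fx1_r6 : mL * mU ⟨0, 1⟩ * mL * mU ⟨0, 1⟩ = -1 := by
  rw [fx1_U, fx1_Lm]
  simp only [mx_mul, mx_one, mx_neg]
  apply mx_congr <;> decide
theorem fx1_r7 : mB O1 * mL * mB O1 = mL := by
  rw [fx1_B, fx1_Lm]
  simp only [mx_mul]
  apply mx_congr <;> decide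
theorem fx1_r8 : mU ⟨0, 1⟩ * mL * mB O1 * mU ⟨0, 1⟩ * mL * mB O1 * mU ⟨0, 1⟩ * mL * mB O1 = -1 := by
  rw [fx1_U, fx1_Lm, fx1_B]
  simp only [mx_mul, mx_one, mx_neg]
  apply mx_congr <;> decide

theorem fx1_pj1 : pj O1 (-1) = 1 := by rw [pj_neg, map_one]

/-- the relations of the generators of `PSL₂(ℤ[i])` -/
theorem fx1_rel : Rel M1 (pj O1 (mU 1)) (pj O1 (mU ⟨0, 1⟩)) (pj O1 (mB O1)) (pj O1 mL) := by
  constructor
  · rw [← map_mul, fx1_r1, map_mul]
  · rw [← map_mul, fx1_r2, fx1_pj1]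
  · rw [← map_mul, fx1_r3, fx1_pj1]
  · simp only [← map_mul]
    rw [fx1_r4, fx1_pj1]
  · apply eq_inv_of_mul_eq_one_left
    simp only [← map_mul]
    rw [fx1_r5, fx1_pj1]
  · apply eq_inv_of_mul_eq_one_left
    simp only [← map_mul]
    rw [fx1_r6, fx1_pj1]
  · simp only [← map_mul]
    rw [fx1_r7]
  · simp only [← map_mul]
    rw [fx1_r8, fx1_pj1]

theorem fx1_rel_map {Q P : Type} [Group Q] [Group P] (f : Q →* P) {a u b l : Q}
    (h : Rel Q a u b l) : Rel P (f a) (f u) (f b) (f l) := by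
  constructor
  · rw [← map_mul, h.c1, map_mul]
  · rw [← map_mul, h.c2, map_one]
  · rw [← map_mul, h.c3, map_one]
  · simp only [← map_mul]
    rw [h.c4, map_one]
  · simp only [← map_mul]
    rw [h.c5, map_inv]
  · simp only [← map_mul]
    rw [h.c6, map_inv]
  · simp only [← map_mul]
    rw [h.c7]
  · simp only [← map_mul]
    rw [h.c8, map_one]

theorem fx1_de_mx (a b c d : O1) (h : a * d - b * c = 1) : de1 (mx a b c d h) =
    mx a (⟨0, 1⟩ * b) (⟨0, -1⟩ * c) d (by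
      have h' : (⟨0, 1⟩ : O1) * ⟨0, -1⟩ = 1 := by decide
      linear_combination h - b * c * h') := rfl

theorem fx1_de_A : de1 (mU 1) = mU ⟨0, 1⟩ := by
  rw [fx1_A, fx1_U, fx1_de_mx]
  apply mx_congr <;> decide
theorem fx1_de_U : de1 (mU ⟨0, 1⟩) = (mU 1)⁻¹ := by
  apply eq_inv_of_mul_eq_one_left
  rw [fx1_A, fx1_U, fx1_de_mx, mx_mul, mx_one]
  apply mx_congr <;> decide
theorem fx1_de_B : de1 (mB O1) = -(mB O1 * mL) := by
  rw [fx1_B, fx1_Lm, fx1_de_mx, mx_mul, mx_neg]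
  apply mx_congr <;> decide
theorem fx1_de_L : de1 mL = mL := by
  rw [fx1_Lm, fx1_de_mx]
  apply mx_congr <;> decide
theorem fx1_cj_A : SLm (PIC.cj ℤ) (mU 1) = mU 1 := by
  rw [fx1_A, mx_map]
  apply mx_congr <;> decide
theorem fx1_cj_U : SLm (PIC.cj ℤ) (mU ⟨0, 1⟩) = (mU ⟨0, 1⟩)⁻¹ := by
  apply eq_inv_of_mul_eq_one_left
  rw [fx1_U, mx_map, mx_mul, mx_one]
  apply mx_congr <;> decide
theorem fx1_cj_B : SLm (PIC.cj ℤ) (mB O1) = mB O1 := by
  rw [fx1_B, mx_map]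
  apply mx_congr <;> decide
theorem fx1_cj_L : SLm (PIC.cj ℤ) mL = mL⁻¹ := by
  apply eq_inv_of_mul_eq_one_left
  rw [fx1_Lm, mx_map, mx_mul, mx_one]
  apply mx_congr <;> decide

end

end Pool.Agent.F8.PO
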