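import Pool.Agent.Lib.MP_305fdd_al.F8.PO.Stm

/-!
# MP_305fdd_al, project PO: overgroups of a profinitely rigid group, the general principle
-/

set_option autoImplicit false

namespace Pool.Agent.F8.PO

open Pool.Agent.MP_305fdd_al Pool.Agent.Lib.MP_305fdd_al Pool.Agent.F2X Pool.Agent.F8
  Pool.Agent.F8.HN Pool.Agent.F8.AB

noncomputable section

/-- a group with a finitely generated subgroup of finite index -/
theorem ov_fg {Γ : Type} [Group Γ] (N : Subgroup Γ) [N.FiniteIndex] (h : Group.FG N) :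
    Group.FG Γ := by
  classical
  obtain ⟨S, hS⟩ := (Group.fg_iff_subgroup_fg N).1 h
  have hfin : Finite (Γ ⧸ N) := inferInstance
  rw [Group.fg_iff]
  refine ⟨(S : Set Γ) ∪ Set.range (fun q : Γ ⧸ N => q.out), ?_,
    S.finite_toSet.union (Set.finite_range _)⟩
  rw [eq_top_iff]
  intro g _
  have h1 : ((g : Γ ⧸ N).out)⁻¹ * g ∈ N := by
    rw [← QuotientGroup.eq]
    exact QuotientGroup.out_eq' _
  have h2 : N ≤ Subgroup.closure ((S : Set Γ) ∪ Set.range (fun q : Γ ⧸ N => q.out)) := by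
    rw [← hS]
    exact Subgroup.closure_mono Set.subset_union_left
  have h3 : (g : Γ ⧸ N).out ∈
      Subgroup.closure ((S : Set Γ) ∪ Set.range (fun q : Γ ⧸ N => q.out)) :=
    Subgroup.subset_closure (Or.inr ⟨_, rfl⟩)
  have h4 := mul_mem h3 (h2 h1)
  rwa [mul_inv_cancel_left] at h4

/-- natural bijections give the same finite quotients -/
theorem ov_same {G H : Type} [Group G] [Group H] (Φ : NatBij G H) :
    SameFiniteQuotients G H := by
  intro Q _ _
  constructor
  · rintro ⟨φ, hφ⟩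
    refine ⟨Φ.toFun Q φ, ?_⟩
    rw [← MonoidHom.range_eq_top, Φ.range_eq, MonoidHom.range_eq_top]
    exact hφ
  · rintro ⟨φ, hφ⟩
    refine ⟨Φ.symm.toFun Q φ, ?_⟩
    rw [← MonoidHom.range_eq_top, Φ.symm.range_eq, MonoidHom.range_eq_top]
    exact hφ

/-- corresponding homomorphisms on subgroups of finite index are equal on corresponding elements -/
theorem ov_cor {G H : Type} [Group G] [Group H] (Φ : NatBij G H) {A : Subgroup G}
    (hA : A.FiniteIndex) {B : Subgroup H} (Ψ : NatBij A B)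
    (hΨ : ∀ (R : Type) [Group R] [Finite R] (θ : G →* R),
      Ψ.toFun R (θ.comp A.subtype) = (Φ.toFun R θ).comp B.subtype)
    {P : Type} [Group P] [Finite P] (ψ : A →* P) :
    ∃ (E : Type) (_ : Group E) (_ : Finite E) (θ : G →* E),
      ∀ (g : A) (h : B), θ g = Φ.toFun E θ h → ψ g = Ψ.toFun P ψ h := by
  classical
  let K : Subgroup G := ψ.ker.map A.subtype
  have hKfin : K.FiniteIndex := by
    refine ⟨?_⟩
    have h1 : K.index = ψ.ker.index * A.index := Subgroup.index_map_subtype _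
    have h2 : ψ.ker.index ≠ 0 := (Subgroup.finiteIndex_ker ψ).index_ne_zero
    rw [h1]
    exact mul_ne_zero h2 hA.index_ne_zero
  let K₀ : Subgroup G := K.normalCore
  have hK₀ : K₀ ≤ K := Subgroup.normalCore_le K
  have hK₀fin : K₀.FiniteIndex := Subgroup.finiteIndex_normalCore K
  have hfq : Finite (G ⧸ K₀) := Subgroup.finite_quotient_of_finiteIndex
  let θ : G →* G ⧸ K₀ := QuotientGroup.mk' K₀
  let f : A →* (θ.comp A.subtype).range := (θ.comp A.subtype).rangeRestrict
  have hf : Function.Surjective f := MonoidHom.rangeRestrict_surjective _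
  have hker : f.ker ≤ ψ.ker := by
    intro x hx
    have h1 : θ x = 1 := congrArg Subtype.val (MonoidHom.mem_ker.1 hx)
    have h2 : (x : G) ∈ K₀ := (QuotientGroup.eq_one_iff (x : G)).1 h1
    obtain ⟨k, hk, hk2⟩ := hK₀ h2
    have h3 : k = x := Subtype.ext hk2
    rw [← h3]
    exact hk
  let ψ' : (θ.comp A.subtype).range →* P := f.liftOfSurjective hf ⟨ψ, hker⟩
  have hψ' : ψ'.comp f = ψ := MonoidHom.liftOfRightInverse_comp _ _ _ _
  have h1 : ((θ.comp A.subtype).range.subtype).comp (Ψ.toFun _ f) =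
      (Φ.toFun _ θ).comp B.subtype := by
    rw [← Ψ.nat, ← hΨ]
    rfl
  refine ⟨G ⧸ K₀, inferInstance, hfq, θ, fun g h e => ?_⟩
  have h2 : f g = Ψ.toFun _ f h := by
    apply Subtype.ext
    have h3 := DFunLike.congr_fun h1 h
    have h4 : ((Ψ.toFun _ f h : (θ.comp A.subtype).range) : G ⧸ K₀) = Φ.toFun _ θ h := h3
    rw [h4, ← e]
    rfl
  have h5 : Ψ.toFun P ψ = ψ'.comp (Ψ.toFun _ f) := by
    rw [← Ψ.nat, hψ']
  rw [h5, MonoidHom.comp_apply, ← h2]
  exact (DFunLike.congr_fun hψ' g).symm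

/-- `Fx` and isomorphisms -/
theorem Fx_congr {K M : Type} [Group K] [Group M] (P : Type) [Group P] (e : K ≃* M)
    (a : MulAut K) : Fx M P (MulAut.congr e a) = Fx K P a := by
  refine Nat.card_congr (Equiv.subtypeEquiv ?_ ?_)
  · exact ⟨fun θ => θ.comp e.toMonoidHom, fun θ => θ.comp e.symm.toMonoidHom,
      fun θ => by ext x; simp, fun θ => by ext x; simp⟩
  · intro θ
    constructor
    · rintro ⟨z, hz⟩
      refine ⟨z, fun x => ?_⟩
      have := hz (e x)
      show θ (e (a x)) = z * θ (e x) * z⁻¹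
      rw [← this]
      congr 1
      show e (a x) = e (a (e.symm (e x)))
      rw [e.symm_apply_apply]
    · rintro ⟨z, hz⟩
      refine ⟨z, fun x => ?_⟩
      have := hz (e.symm x)
      show θ (e (a (e.symm x))) = z * θ x * z⁻¹
      have h2 : θ (e (a (e.symm x))) = z * θ (e (e.symm x)) * z⁻¹ := this
      rw [h2, e.apply_symm_apply]

/-- corresponding conjugations -/
theorem ov_Fx {G H : Type} [Group G] [Group H] (Φ : NatBij G H) (A : Subgroup G) [A.Normal]
    (hA : A.FiniteIndex) (B : Subgroup H) [B.Normal]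
    (hB : B = (Φ.toFun _ (QuotientGroup.mk' A)).ker)
    (Ψ : NatBij A B)
    (hΨ : ∀ (R : Type) [Group R] [Finite R] (θ : G →* R),
      Ψ.toFun R (θ.comp A.subtype) = (Φ.toFun R θ).comp B.subtype)
    (g : G) (l : H) (hgl : QuotientGroup.mk' A g = Φ.toFun _ (QuotientGroup.mk' A) l)
    (P : Type) [Group P] [Finite P] :
    Fx A P (MulAut.conjNormal g) = Fx B P (MulAut.conjNormal l) := by
  refine Nat.card_congr ((Ψ.equiv P).subtypeEquiv fun θ => ?_)
  obtain ⟨E, _, _, ϑ, hϑ⟩ := ov_cor Φ hA Ψ hΨ θ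
  obtain ⟨g₁, hg1, hg2⟩ := pair_val Φ ϑ (QuotientGroup.mk' A) l
  have hn : g⁻¹ * g₁ ∈ A := by
    rw [← QuotientGroup.eq]
    show QuotientGroup.mk' A g = QuotientGroup.mk' A g₁
    rw [hgl, hg2]
  obtain ⟨n, hn'⟩ : ∃ n : A, n = ⟨g⁻¹ * g₁, hn⟩ := ⟨_, rfl⟩
  have hg₁ : g₁ = g * n := by rw [hn']; group
  -- the conjugation with `g₁`
  have hc1 : ∀ x : A, (MulAut.conjNormal g₁ : MulAut A) x =
      (MulAut.conjNormal g : MulAut A) (n * x * n⁻¹) := by
    intro x
    apply Subtype.ext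
    rw [MulAut.conjNormal_apply, MulAut.conjNormal_apply, hg₁]
    push_cast
    group
  let θ₁ : A →* P := θ.comp (MulAut.conjNormal g₁ : MulAut A).toMonoidHom
  have h1 : Ψ.toFun P θ₁ = (Ψ.toFun P θ).comp (MulAut.conjNormal l : MulAut B).toMonoidHom := by
    obtain ⟨E₁, _, _, ϑ₁, hϑ₁⟩ := ov_cor Φ hA Ψ hΨ θ₁
    ext y
    obtain ⟨x, hx1, hx2⟩ := pair_val Φ (ϑ.prod ϑ₁) (QuotientGroup.mk' A) (y : H)
    rw [pair_prod] at hx1
    have hx3 : ϑ x = Φ.toFun _ ϑ y := congrArg Prod.fst hx1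
    have hx4 : ϑ₁ x = Φ.toFun _ ϑ₁ y := congrArg Prod.snd hx1
    have hxA : x ∈ A := by
      have hy : (y : H) ∈ (Φ.toFun _ (QuotientGroup.mk' A)).ker := by rw [← hB]; exact y.2
      rw [MonoidHom.mem_ker.1 hy] at hx2
      exact (QuotientGroup.eq_one_iff x).1 hx2
    have h2 := hϑ₁ ⟨x, hxA⟩ y hx4
    rw [← h2]
    show θ ((MulAut.conjNormal g₁ : MulAut A) ⟨x, hxA⟩) =
      Ψ.toFun P θ ((MulAut.conjNormal l : MulAut B) y)
    apply hϑ
    rw [MulAut.conjNormal_apply, MulAut.conjNormal_apply, map_mul, map_mul, map_inv, map_mul,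
      map_mul, map_inv, hg1, ← hx3]
  -- conjugation with `z`
  have h3 : ∀ z : P, Ψ.toFun P ((MulAut.conj z).toMonoidHom.comp θ) =
      (MulAut.conj z).toMonoidHom.comp (Ψ.toFun P θ) := fun z => Ψ.nat _ _
  have h4 : (∃ z : P, ∀ x, θ ((MulAut.conjNormal g : MulAut A) x) = z * θ x * z⁻¹) ↔
      ∃ z : P, θ₁ = (MulAut.conj z).toMonoidHom.comp θ := by
    constructor
    · rintro ⟨z, hz⟩
      refine ⟨z * θ n, ?_⟩
      ext x
      show θ ((MulAut.conjNormal g₁ : MulAut A) x) = z * θ n * θ x * (z * θ n)⁻¹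
      rw [hc1, hz, map_mul, map_mul, map_inv]
      group
    · rintro ⟨z, hz⟩
      refine ⟨z * (θ n)⁻¹, fun x => ?_⟩
      have h5 := DFunLike.congr_fun hz (n⁻¹ * x * n)
      have h6 : θ ((MulAut.conjNormal g₁ : MulAut A) (n⁻¹ * x * n)) =
        z * θ (n⁻¹ * x * n) * z⁻¹ := h5
      rw [hc1] at h6
      have h7 : n * (n⁻¹ * x * n) * n⁻¹ = x := by group
      rw [h7] at h6
      rw [h6, map_mul, map_mul, map_inv]
      group
  rw [h4]
  constructor
  · rintro ⟨z, hz⟩
    refine ⟨z, fun y => ?_⟩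
    rw [hz, h3] at h1
    exact (DFunLike.congr_fun h1 y).symm
  · rintro ⟨z, hz⟩
    refine ⟨z, Ψ.injective P ?_⟩
    rw [h1, h3]
    ext y
    exact hz y

theorem p_ov : S_ov := by
  intro M _ _ hM hc hsep G _ N hN hi he hK Λ _ hΛ
  obtain ⟨e⟩ := he
  obtain ⟨hfg, hrf, hs⟩ := hΛ
  have hfgN : Group.FG N :=
    Group.fg_of_surjective (f := e.symm.toMonoidHom) e.symm.surjective
  have hfgG : Group.FG G := ov_fg N hfgN
  obtain ⟨Φ⟩ := exists_natBij hs.symm
  let π : G →* G ⧸ N := QuotientGroup.mk' N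
  have hπ : Function.Surjective π := QuotientGroup.mk'_surjective N
  obtain ⟨π', hπ'⟩ : ∃ π', π' = Φ.toFun (G ⧸ N) π := ⟨_, rfl⟩
  have hπs : Function.Surjective π' := by
    rw [← MonoidHom.range_eq_top, hπ', Φ.range_eq, MonoidHom.range_eq_top]
    exact hπ
  have hNπ : N = (⊥ : Subgroup (G ⧸ N)).comap π := by
    rw [MonoidHom.comap_bot]; exact (QuotientGroup.ker_mk' N).symm
  obtain ⟨Ψ, hΨ⟩ := natBij_sub (π := π) (π' := π') Φ hπ'.symm ⊥ N π'.ker hNπ
    (MonoidHom.comap_bot π').symm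
  have hfi' : π'.ker.FiniteIndex := Subgroup.finiteIndex_ker _
  have hfgN' : Group.FG π'.ker := Subgroup.fg_of_index_ne_zero π'.ker
  have hrf' : Group.ResiduallyFinite π'.ker := inferInstance
  have hsame : SameFiniteQuotients π'.ker M := by
    have h1 : SameFiniteQuotients N M := by
      intro Q _ _
      constructor
      · rintro ⟨φ, hφ⟩
        exact ⟨φ.comp e.symm.toMonoidHom, hφ.comp e.symm.surjective⟩
      · rintro ⟨φ, hφ⟩
        exact ⟨φ.comp e.toMonoidHom, hφ.comp e.surjective⟩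
    intro Q _ _
    rw [← h1 Q, ov_same Ψ Q]
  obtain ⟨f⟩ := hM π'.ker ⟨hfgN', hrf', hsame⟩
  -- the actions on `M`
  let κ : G →* MulAut M := (MulAut.congr e).toMonoidHom.comp (MulAut.conjNormal (H := N))
  let κ' : Λ →* MulAut M := (MulAut.congr f).toMonoidHom.comp (MulAut.conjNormal (H := π'.ker))
  have hκ : ∀ g x, κ g x = e (MulAut.conjNormal g (e.symm x)) := fun _ _ => rfl
  have hκ' : ∀ l x, κ' l x = f (MulAut.conjNormal l (f.symm x)) := fun _ _ => rfl
  have hin : ∀ (n : N) x, κ n x = e n * x * (e n)⁻¹ := by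
    intro n x
    rw [hκ]
    have : (MulAut.conjNormal (n : G) (e.symm x) : N) = n * e.symm x * n⁻¹ := by
      apply Subtype.ext
      rw [MulAut.conjNormal_apply]
      rfl
    rw [this, map_mul, map_mul, map_inv, e.apply_symm_apply]
  have hin' : ∀ (n : π'.ker) x, κ' n x = f n * x * (f n)⁻¹ := by
    intro n x
    rw [hκ']
    have : (MulAut.conjNormal (n : Λ) (f.symm x) : π'.ker) = n * f.symm x * n⁻¹ := by
      apply Subtype.ext
      rw [MulAut.conjNormal_apply]
      rfl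
    rw [this, map_mul, map_mul, map_inv, f.apply_symm_apply]
  have hkey : ∀ g l, π g = π' l → ∃ m : M, ∀ x, κ' l x = κ g (m * x * m⁻¹) := by
    intro g l hgl
    apply hsep
    intro P _ _
    show Fx M P (MulAut.congr e (MulAut.conjNormal g)) =
      Fx M P (MulAut.congr f (MulAut.conjNormal l))
    rw [Fx_congr, Fx_congr]
    exact ov_Fx Φ N hi π'.ker (by rw [hπ']) Ψ hΨ g l (by rw [← hπ']; exact hgl) P
  -- the ranges
  have hr : κ.range = κ'.range := by
    apply le_antisymm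
    · rintro _ ⟨g, rfl⟩
      obtain ⟨l, hl⟩ := hπs (π g)
      obtain ⟨m, hm⟩ := hkey g l hl.symm
      refine ⟨l * (f.symm m⁻¹ : π'.ker), ?_⟩
      ext x
      rw [map_mul, MulAut.mul_apply, hin', f.apply_symm_apply, hm]
      congr 1
      group
    · rintro _ ⟨l, rfl⟩
      obtain ⟨g, hg⟩ := hπ (π' l)
      obtain ⟨m, hm⟩ := hkey g l hg
      refine ⟨g * (e.symm m : N), ?_⟩
      ext x
      rw [map_mul, MulAut.mul_apply, hin, e.apply_symm_apply, hm]
  -- injectivity
  have hcen : ∀ n : N, κ n = 1 → (n : G) = 1 := by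
    intro n hn
    have h1 : e n = 1 := hc _ fun x => by
      have h2 := DFunLike.congr_fun hn x
      rw [hin, MulAut.one_apply] at h2
      exact mul_inv_eq_iff_eq_mul.1 h2
    have h3 : n = 1 := e.injective (by rw [h1, map_one])
    rw [h3]; rfl
  have hcen' : ∀ n : π'.ker, κ' n = 1 → (n : Λ) = 1 := by
    intro n hn
    have h1 : f n = 1 := hc _ fun x => by
      have h2 := DFunLike.congr_fun hn x
      rw [hin', MulAut.one_apply] at h2
      exact mul_inv_eq_iff_eq_mul.1 h2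
    have h3 : n = 1 := f.injective (by rw [h1, map_one])
    rw [h3]; rfl
  have hinj : Function.Injective κ := by
    rw [← MonoidHom.ker_eq_bot_iff]
    apply hK _ inferInstance
    have hfq : Finite (G ⧸ N) := Subgroup.finite_quotient_of_finiteIndex
    apply Finite.of_injective (fun k : κ.ker => π k)
    intro a b hab
    have h1 : (a : G)⁻¹ * b ∈ N := QuotientGroup.eq.1 hab
    have h2 := hcen ⟨_, h1⟩ (by
      show κ ((a : G)⁻¹ * b) = 1
      rw [map_mul, map_inv, MonoidHom.mem_ker.1 a.2, MonoidHom.mem_ker.1 b.2, inv_one, one_mul])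
    exact Subtype.ext (inv_mul_eq_one.1 h2)
  have hinj' : Function.Injective κ' := by
    rw [injective_iff_map_eq_one]
    intro l hl
    obtain ⟨g, hg⟩ := hπ (π' l)
    obtain ⟨m, hm⟩ := hkey g l hg
    have h1 : κ (g * (e.symm m : N)) = 1 := by
      ext x
      rw [map_mul, MulAut.mul_apply, hin, e.apply_symm_apply, ← hm, hl]
    have h2 : g * (e.symm m : N) = 1 := hinj (by rw [h1, map_one])
    have h3 : π g = 1 := by
      have h4 : g = ((e.symm m : N) : G)⁻¹ := eq_inv_of_mul_eq_one_left h2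
      rw [h4, map_inv, inv_eq_one]
      exact (QuotientGroup.eq_one_iff _).2 (e.symm m).2
    have h5 : l ∈ π'.ker := by
      rw [MonoidHom.mem_ker, ← hg, h3]
    exact hcen' ⟨l, h5⟩ hl
  exact ⟨(MonoidHom.ofInjective hinj').trans ((MulEquiv.subgroupCongr hr.symm).trans
    (MonoidHom.ofInjective hinj).symm)⟩

end

end Pool.Agent.F8.PO
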